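import Mathlib

set_option autoImplicit false

namespace Pool.Agent.H.MP_96e181_an

open MeasureTheory Filter Topology Set
open scoped ENNReal NNReal

theorem volume_univ_eq : (volume : Measure UnitAddCircle) univ = 1 := by
  have := AddCircle.measure_univ (1:ℝ)
  simpa using this

theorem volume_real_univ : (volume : Measure UnitAddCircle).real univ = 1 := by
  simp [Measure.real, volume_univ_eq]

/-- From `c ∫ f dλ ≤ ∫ f dμ` for nonnegative continuous `f` to `c • λ ≤ μ`. -/
theorem smul_volume_le_of_integral {μ : Measure UnitAddCircle} [IsFiniteMeasure μ] {c : ℝ≥0}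
    (h : ∀ f : C(UnitAddCircle, ℝ), (∀ x, 0 ≤ f x) →
      (c : ℝ) * ∫ x, f x ∂(volume : Measure UnitAddCircle) ≤ ∫ x, f x ∂μ) :
    (c : ℝ≥0∞) • (volume : Measure UnitAddCircle) ≤ μ := by
  have hclosed : ∀ F : Set UnitAddCircle, IsClosed F →
      (c : ℝ≥0∞) * (volume : Measure UnitAddCircle) F ≤ μ F := by
    intro F hF
    have hpos : ∀ n : ℕ, (0:ℝ) < 1 / ((n : ℝ) + 1) := fun n => Nat.one_div_pos_of_nat
    have hlim : Tendsto (fun n : ℕ => (1:ℝ) / ((n : ℝ) + 1)) atTop (𝓝 0) :=
      tendsto_one_div_add_atTop_nhds_zero_nat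
    have h1 := tendsto_integral_thickenedIndicator_of_isClosed
      (volume : Measure UnitAddCircle) hF hpos hlim
    have h2 := tendsto_integral_thickenedIndicator_of_isClosed μ hF hpos hlim
    have h3 : (c : ℝ) * (volume : Measure UnitAddCircle).real F ≤ μ.real F := by
      refine le_of_tendsto_of_tendsto' (h1.const_mul (c : ℝ)) h2 (fun n => ?_)
      let f : C(UnitAddCircle, ℝ) :=
        ⟨fun x => ((thickenedIndicator (hpos n) F x : ℝ≥0) : ℝ), by fun_prop⟩
      exact h f (fun x => NNReal.coe_nonneg _)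
    have h4 : ((c : ℝ≥0∞) * (volume : Measure UnitAddCircle) F) ≠ ∞ :=
      ENNReal.mul_ne_top ENNReal.coe_ne_top (measure_ne_top _ _)
    rw [← ENNReal.toReal_le_toReal h4 (measure_ne_top _ _), ENNReal.toReal_mul]
    simpa [Measure.real] using h3
  refine Measure.le_iff.2 (fun A hA => ?_)
  rw [Measure.smul_apply, smul_eq_mul]
  rw [hA.measure_eq_iSup_isClosed_of_ne_top (measure_ne_top _ _)]
  simp only [ENNReal.mul_iSup]
  refine iSup_le (fun F => iSup_le (fun hFA => iSup_le (fun hF => ?_)))
  exact (hclosed F hF).trans (measure_mono hFA)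

theorem integral_fourier_volume {a : ℤ} (ha : a ≠ 0) :
    ∫ x, fourier a x ∂(volume : Measure UnitAddCircle) = 0 := by
  have h := fourierCoeff_fourier (T := (1:ℝ)) a
  have h2 := congrFun h 0
  rw [fourierCoeff] at h2
  simp only [neg_zero, fourier_zero, one_smul] at h2
  rw [Pi.single_apply] at h2
  rw [if_neg (fun h => ha h.symm)] at h2
  have h3 := AddCircle.volume_eq_smul_haarAddCircle (T := (1:ℝ))
  rw [h3]
  simp only [ENNReal.ofReal_one, one_smul]
  exact h2

/-- If `ν k ≤ μ` have mass at least `c` and all their nonzero Fourier coefficients tend to `0`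
then `c • λ ≤ μ`. -/
theorem smul_volume_le_of_fourier {μ : Measure UnitAddCircle} [IsFiniteMeasure μ] {c : ℝ≥0}
    (ν : ℕ → Measure UnitAddCircle) (hν : ∀ k, ν k ≤ μ) (hc : ∀ k, (c : ℝ≥0∞) ≤ ν k univ)
    (hF : ∀ a : ℤ, a ≠ 0 → Tendsto (fun k => ∫ x, fourier a x ∂(ν k)) atTop (𝓝 0)) :
    (c : ℝ≥0∞) • (volume : Measure UnitAddCircle) ≤ μ := by
  have hfin : ∀ k, IsFiniteMeasure (ν k) := fun k =>
    ⟨lt_of_le_of_lt (hν k univ) (measure_lt_top μ univ)⟩
  have hmass : ∀ k, (ν k).real univ ≤ μ.real univ := fun k =>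
    ENNReal.toReal_mono (measure_ne_top _ _) (hν k univ)
  have hint : ∀ (k : ℕ) (g : C(UnitAddCircle, ℂ)), Integrable (fun x => g x) (ν k) := by
    intro k g
    exact g.continuous.integrable_of_hasCompactSupport (HasCompactSupport.of_compactSpace _)
  have hint0 : ∀ (g : C(UnitAddCircle, ℂ)),
      Integrable (fun x => g x) (volume : Measure UnitAddCircle) := by
    intro g
    exact g.continuous.integrable_of_hasCompactSupport (HasCompactSupport.of_compactSpace _)
  -- the discrepancy functional
  set D : ℕ → C(UnitAddCircle, ℂ) → ℂ := fun k g =>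
    ∫ x, g x ∂(ν k) - (∫ x, g x ∂(volume : Measure UnitAddCircle)) * ((ν k).real univ : ℂ)
    with hD
  have hDadd : ∀ k g₁ g₂, D k (g₁ + g₂) = D k g₁ + D k g₂ := by
    intro k g₁ g₂
    simp only [hD, ContinuousMap.add_apply]
    rw [integral_add (hint k g₁) (hint k g₂), integral_add (hint0 g₁) (hint0 g₂)]
    ring
  have hDsmul : ∀ k (z : ℂ) g, D k (z • g) = z * D k g := by
    intro k z g
    simp only [hD, ContinuousMap.smul_apply, smul_eq_mul]
    rw [integral_const_mul, integral_const_mul]
    ring
  have hDbound : ∀ k g, ‖D k g‖ ≤ 2 * ‖g‖ * μ.real univ := by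
    intro k g
    have e1 : ‖∫ x, g x ∂(ν k)‖ ≤ ‖g‖ * (ν k).real univ :=
      norm_integral_le_of_norm_le_const (Eventually.of_forall (fun x => g.norm_coe_le_norm x))
    have e2 : ‖∫ x, g x ∂(volume : Measure UnitAddCircle)‖ ≤ ‖g‖ := by
      have := norm_integral_le_of_norm_le_const (μ := (volume : Measure UnitAddCircle))
        (Eventually.of_forall (fun x => g.norm_coe_le_norm x))
      rw [volume_real_univ, mul_one] at this
      exact this
    have e3 : 0 ≤ (ν k).real univ := measureReal_nonneg
    calc ‖D k g‖ ≤ ‖∫ x, g x ∂(ν k)‖ +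
          ‖(∫ x, g x ∂(volume : Measure UnitAddCircle)) * ((ν k).real univ : ℂ)‖ :=
            norm_sub_le _ _
      _ ≤ ‖g‖ * (ν k).real univ + ‖g‖ * (ν k).real univ := by
          rw [norm_mul, Complex.norm_real, Real.norm_of_nonneg e3]
          exact add_le_add e1 (mul_le_mul_of_nonneg_right e2 e3)
      _ ≤ 2 * ‖g‖ * μ.real univ := by
          nlinarith [mul_le_mul_of_nonneg_left (hmass k) (norm_nonneg g)]
  -- the closed subspace of good functions
  have hall : ∀ g : C(UnitAddCircle, ℂ), Tendsto (fun k => D k g) atTop (𝓝 0) := by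
    intro g
    have hspan : ∀ g ∈ Submodule.span ℂ (range (@fourier (1:ℝ))),
        Tendsto (fun k => D k g) atTop (𝓝 0) := by
      intro g hg
      induction hg using Submodule.span_induction with
      | mem x hx =>
        obtain ⟨a, rfl⟩ := hx
        by_cases ha : a = 0
        · subst ha
          have : ∀ k, D k (fourier 0) = 0 := by
            intro k
            simp [hD, volume_real_univ]
          simp [this]
        · have : ∀ k, D k (fourier a) = ∫ x, fourier a x ∂(ν k) := by
            intro k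
            simp only [hD]
            rw [integral_fourier_volume ha]; simp
          simpa [this] using hF a ha
      | zero =>
        have : ∀ k, D k 0 = 0 := by intro k; simp [hD]
        simp [this]
      | add x y _ _ hx hy =>
        simp only [hDadd]
        simpa using hx.add hy
      | smul z x _ hx =>
        simp only [hDsmul]
        simpa using hx.const_mul z
    have hg : g ∈ (Submodule.span ℂ (range (@fourier (1:ℝ)))).topologicalClosure := by
      rw [span_fourier_closure_eq_top]; trivial
    rw [Metric.tendsto_atTop]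
    intro ε hε
    set R : ℝ := 2 * μ.real univ + 1 with hR
    have hRpos : 0 < R := by
      have : 0 ≤ μ.real univ := measureReal_nonneg
      linarith
    have hg' : g ∈ closure ((Submodule.span ℂ (range (@fourier (1:ℝ))) :
        Submodule ℂ C(UnitAddCircle, ℂ)) : Set C(UnitAddCircle, ℂ)) := hg
    rw [Metric.mem_closure_iff] at hg'
    obtain ⟨g₁, hg₁, hdist⟩ := hg' (ε / 2 / R) (by positivity)
    obtain ⟨N, hN⟩ := Metric.tendsto_atTop.1 (hspan g₁ hg₁) (ε / 2) (by positivity)
    refine ⟨N, fun k hk => ?_⟩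
    have h1 := hN k hk
    rw [dist_zero_right] at h1 ⊢
    have h2 : D k g = D k g₁ + D k (g - g₁) := by
      rw [← hDadd]; congr 1; abel
    have h3 : ‖D k (g - g₁)‖ < ε / 2 := by
      have h4 := hDbound k (g - g₁)
      rw [dist_eq_norm] at hdist
      have h5 : 2 * ‖g - g₁‖ * μ.real univ ≤ ‖g - g₁‖ * R := by
        rw [hR]
        nlinarith [norm_nonneg (g - g₁)]
      have h6 : ‖g - g₁‖ * R < ε / 2 := by
        rwa [lt_div_iff₀ hRpos] at hdist
      linarith
    rw [h2]
    calc ‖D k g₁ + D k (g - g₁)‖ ≤ ‖D k g₁‖ + ‖D k (g - g₁)‖ := norm_add_le _ _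
      _ < ε := by linarith
  -- conclude
  apply smul_volume_le_of_integral
  intro f hf
  have hfint : ∀ m : Measure UnitAddCircle, IsFiniteMeasure m → Integrable (fun x => f x) m := by
    intro m hm
    exact f.continuous.integrable_of_hasCompactSupport (HasCompactSupport.of_compactSpace _)
  let g : C(UnitAddCircle, ℂ) := ⟨fun x => ((f x : ℝ) : ℂ), by fun_prop⟩
  have hg := hall g
  have hDg : ∀ k, D k g = ((∫ x, f x ∂(ν k) -
      (∫ x, f x ∂(volume : Measure UnitAddCircle)) * (ν k).real univ : ℝ) : ℂ) := by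
    intro k
    simp only [hD, g, ContinuousMap.coe_mk]
    rw [integral_complex_ofReal, integral_complex_ofReal]
    push_cast
    ring
  have hre : Tendsto (fun k => ∫ x, f x ∂(ν k) -
      (∫ x, f x ∂(volume : Measure UnitAddCircle)) * (ν k).real univ) atTop (𝓝 0) := by
    have h1 := (Complex.continuous_re.tendsto (0:ℂ)).comp hg
    simp only [Function.comp_def, hDg, Complex.ofReal_re, Complex.zero_re] at h1
    exact h1
  have hf0 : 0 ≤ ∫ x, f x ∂(volume : Measure UnitAddCircle) := integral_nonneg hf
  refine ge_of_tendsto' (f := fun k : ℕ => ∫ x, f x ∂μ - (∫ x, f x ∂(ν k) -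
      (∫ x, f x ∂(volume : Measure UnitAddCircle)) * (ν k).real univ)) (x := atTop) ?_ ?_
  · simpa using tendsto_const_nhds.sub hre
  · intro k
    have h1 : ∫ x, f x ∂(ν k) ≤ ∫ x, f x ∂μ :=
      integral_mono_measure (hν k) (Eventually.of_forall hf) (hfint μ inferInstance)
    have h2 : (c : ℝ) ≤ (ν k).real univ := by
      have := ENNReal.toReal_mono (measure_ne_top (ν k) univ) (hc k)
      simpa [Measure.real] using this
    nlinarith [mul_le_mul_of_nonneg_left h2 hf0]

end Pool.Agent.H.MP_96e181_an
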