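import Mathlib
import Pool.Agent.H.MP_96e181_an.FourierLower

set_option autoImplicit false

namespace Pool.Agent.H.MP_96e181_an

open MeasureTheory Filter Topology Set Finset
open scoped ENNReal NNReal

theorem mp_mul {μ : Measure UnitAddCircle} {s t : ℕ}
    (hs : MeasurePreserving (fun x : UnitAddCircle => s • x) μ μ)
    (ht : MeasurePreserving (fun x : UnitAddCircle => t • x) μ μ) :
    MeasurePreserving (fun x : UnitAddCircle => (s * t) • x) μ μ := by
  have h := hs.comp ht
  have e : ((fun x : UnitAddCircle => s • x) ∘ fun x => t • x) =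
      (fun x : UnitAddCircle => (s * t) • x) := by
    funext x
    simp [mul_smul]
  rwa [e] at h

theorem mp_pow {μ : Measure UnitAddCircle} {s : ℕ}
    (hs : MeasurePreserving (fun x : UnitAddCircle => s • x) μ μ) (k : ℕ) :
    MeasurePreserving (fun x : UnitAddCircle => (s ^ k) • x) μ μ := by
  induction k with
  | zero =>
    have e : (fun x : UnitAddCircle => (s ^ 0) • x) = id := by funext x; simp
    rw [e]
    exact MeasurePreserving.id μ
  | succ k ih => rw [pow_succ]; exact mp_mul ih hs

theorem continuous_nsmul_circle (s : ℕ) : Continuous (fun x : UnitAddCircle => s • x) :=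
  continuous_nsmul s

/-- The averaged push-forward of the restriction of `μ` to `E`. -/
noncomputable def avg (μ : Measure UnitAddCircle) (E : Set UnitAddCircle) (K : ℕ) (s : ℕ → ℕ) :
    Measure UnitAddCircle :=
  (K : ℝ≥0∞)⁻¹ • ∑ i ∈ Finset.range K, (μ.restrict E).map (fun x : UnitAddCircle => s i • x)

theorem avg_le {μ : Measure UnitAddCircle} (E : Set UnitAddCircle) {K : ℕ} (hK : 0 < K)
    {s : ℕ → ℕ} (hs : ∀ i, MeasurePreserving (fun x : UnitAddCircle => s i • x) μ μ) :
    avg μ E K s ≤ μ := by
  have hK0 : (K : ℝ≥0∞) ≠ 0 := by exact_mod_cast hK.ne'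
  have hKt : (K : ℝ≥0∞) ≠ ∞ := ENNReal.natCast_ne_top K
  refine Measure.le_iff.2 (fun A hA => ?_)
  rw [avg, Measure.smul_apply, Measure.finsetSum_apply, smul_eq_mul]
  have h1 : ∀ i ∈ Finset.range K,
      ((μ.restrict E).map (fun x : UnitAddCircle => s i • x)) A ≤ μ A := by
    intro i _
    rw [Measure.map_apply (hs i).measurable hA]
    refine (Measure.restrict_apply_le _ _).trans ?_
    rw [(hs i).measure_preimage hA.nullMeasurableSet]
  calc (K : ℝ≥0∞)⁻¹ * ∑ i ∈ Finset.range K,
        ((μ.restrict E).map (fun x : UnitAddCircle => s i • x)) A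
      ≤ (K : ℝ≥0∞)⁻¹ * ∑ i ∈ Finset.range K, μ A := mul_le_mul_right (Finset.sum_le_sum h1) _
    _ = μ A := by
        rw [Finset.sum_const, Finset.card_range, nsmul_eq_mul, ← mul_assoc,
          ENNReal.inv_mul_cancel hK0 hKt, one_mul]

theorem avg_univ {μ : Measure UnitAddCircle} (E : Set UnitAddCircle) {K : ℕ} (hK : 0 < K)
    (s : ℕ → ℕ) :
    avg μ E K s univ = μ E := by
  have hK0 : (K : ℝ≥0∞) ≠ 0 := by exact_mod_cast hK.ne'
  have hKt : (K : ℝ≥0∞) ≠ ∞ := ENNReal.natCast_ne_top K
  rw [avg, Measure.smul_apply, Measure.finsetSum_apply, smul_eq_mul]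
  have h1 : ∀ i ∈ Finset.range K,
      ((μ.restrict E).map (fun x : UnitAddCircle => s i • x)) univ = μ E := by
    intro i _
    rw [Measure.map_apply (continuous_nsmul_circle _).measurable MeasurableSet.univ]
    simp
  rw [Finset.sum_congr rfl h1, Finset.sum_const, Finset.card_range, nsmul_eq_mul, ← mul_assoc,
          ENNReal.inv_mul_cancel hK0 hKt, one_mul]

theorem integral_avg {μ : Measure UnitAddCircle} [IsFiniteMeasure μ] (E : Set UnitAddCircle)
    {K : ℕ} (s : ℕ → ℕ) (f : C(UnitAddCircle, ℂ)) :
    ∫ x, f x ∂(avg μ E K s) =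
      ∫ x in E, (K : ℂ)⁻¹ * ∑ i ∈ Finset.range K, f (s i • x) ∂μ := by
  have hint : ∀ (m : Measure UnitAddCircle) [IsFiniteMeasure m] (g : C(UnitAddCircle, ℂ)),
      Integrable (fun x => g x) m := by
    intro m _ g
    exact g.continuous.integrable_of_hasCompactSupport (HasCompactSupport.of_compactSpace _)
  rw [avg, integral_smul_measure, integral_finsetSum_measure]
  · rw [integral_const_mul, integral_finsetSum]
    · rw [ENNReal.toReal_inv, ENNReal.toReal_natCast]
      rw [← Complex.coe_smul]
      push_cast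
      rw [smul_eq_mul]
      congr 1
      refine Finset.sum_congr rfl (fun i _ => ?_)
      rw [integral_map (continuous_nsmul_circle _).measurable.aemeasurable
        f.continuous.aestronglyMeasurable]
    · intro i _
      exact hint (μ.restrict E) (f.comp ⟨_, continuous_nsmul_circle (s i)⟩)
  · intro i _
    have : IsFiniteMeasure ((μ.restrict E).map (fun x : UnitAddCircle => s i • x)) := inferInstance
    exact hint _ f

end Pool.Agent.H.MP_96e181_an
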