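import Mathlib

set_option autoImplicit false

namespace Pool.Agent.H.MP_96e181_an

open MeasureTheory Filter Topology Set Finset
open scoped ENNReal NNReal

variable {Ω : Type*} [MeasurableSpace Ω]

/-- Core `L²` estimate. -/
theorem core (μ : Measure Ω) [IsProbabilityMeasure μ] {E : Set Ω} (hE : MeasurableSet E)
    {k b r : Ω → ℕ} (hk : Measurable k) (hb : Measurable b) (hr : Measurable r)
    {K₁ K₂ K₃ : ℕ} (hkK : ∀ x, k x < K₁) (hbK : ∀ x, b x < K₂) (hrK : ∀ x, r x < K₃)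
    {h : Ω → ℂ} (hint : Integrable h μ) {B : ℕ → ℕ → ℕ → ℂ} {e : ℝ} (he : 0 ≤ e)
    (hB : ∀ x, ‖h x - B (k x) (b x) (r x)‖ ≤ e) {C : ℝ} (hC0 : 0 ≤ C)
    (hC : ∀ i j, i < K₁ → j < K₃ → ∑ c ∈ Finset.range K₂, ‖B i c j‖ ^ 2 ≤ C) {η : ℝ} (hη : 0 ≤ η)
    {W : ℕ → ℝ} (hW0 : ∀ i, 0 ≤ W i) {C₁ : ℝ}
    (hW : ∑ i ∈ Finset.range K₁, W i ≤ C₁)
    (hEη : ∀ x ∈ E, μ.real {y | k y = k x ∧ b y = b x} ≤ η * W (k x)) :
    ‖∫ x in E, h x ∂μ‖ ≤ e + √(η * C * K₃ * C₁) := by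
  classical
  set F : Finset (ℕ × ℕ × ℕ) := (Finset.range K₁) ×ˢ ((Finset.range K₃) ×ˢ (Finset.range K₂)) with hF
  let P : ℕ × ℕ × ℕ → Set Ω := fun t => {y | k y = t.1 ∧ r y = t.2.1 ∧ b y = t.2.2}
  have hPmeas : ∀ t, MeasurableSet (P t) := fun t =>
    (hk (measurableSet_singleton t.1)).inter
      ((hr (measurableSet_singleton t.2.1)).inter (hb (measurableSet_singleton t.2.2)))
  have hPdisj : ∀ t s, t ≠ s → Disjoint (P t) (P s) := by
    intro t s hts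
    rw [Set.disjoint_left]
    rintro y ⟨h1, h2, h3⟩ ⟨h1', h2', h3'⟩
    apply hts
    ext <;> simp_all
  have hcover : (⋃ t ∈ F, (E ∩ P t)) = E := by
    ext y
    simp only [Set.mem_iUnion, exists_prop]
    constructor
    · rintro ⟨t, _, hy⟩; exact hy.1
    · intro hy
      refine ⟨(k y, r y, b y), ?_, hy, rfl, rfl, rfl⟩
      simp [hF, hkK, hbK, hrK]
  set w : ℕ × ℕ × ℕ → ℝ := fun t => μ.real (E ∩ P t) with hw
  have hw0 : ∀ t, 0 ≤ w t := fun t => measureReal_nonneg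
  have hpair : Set.Pairwise (↑F : Set (ℕ × ℕ × ℕ)) (Function.onFun Disjoint (fun t => E ∩ P t)) := by
    intro t _ s _ hts
    exact (hPdisj t s hts).mono Set.inter_subset_right Set.inter_subset_right
  have hwsum : ∑ t ∈ F, w t = μ.real E := by
    rw [hw]
    simp only
    rw [← measureReal_biUnion_finset hpair (fun t _ => hE.inter (hPmeas t))]
    rw [hcover]
  have hwle1 : ∑ t ∈ F, w t ≤ 1 := by
    rw [hwsum]; exact measureReal_le_one
  have hint1 : ∫ x in E, h x ∂μ = ∑ t ∈ F, ∫ x in E ∩ P t, h x ∂μ := by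
    conv_lhs => rw [← hcover]
    rw [integral_biUnion_finset F (fun t _ => hE.inter (hPmeas t)) hpair
      (fun t _ => hint.integrableOn)]
  have hbound : ∀ t ∈ F, ‖∫ x in E ∩ P t, h x ∂μ‖ ≤ (‖B t.1 t.2.2 t.2.1‖ + e) * w t := by
    intro t _
    refine norm_setIntegral_le_of_norm_le_const (measure_lt_top _ _) ?_
    rintro x ⟨-, h1, h2, h3⟩
    have h4 := hB x
    rw [h1, h2, h3] at h4
    calc ‖h x‖ = ‖B t.1 t.2.2 t.2.1 + (h x - B t.1 t.2.2 t.2.1)‖ := by congr 1; ring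
      _ ≤ ‖B t.1 t.2.2 t.2.1‖ + e := (norm_add_le _ _).trans (by linarith)
  -- the weights
  have hwη : ∀ t ∈ F, w t ≤ η * W t.1 := by
    intro t _
    rcases (E ∩ P t).eq_empty_or_nonempty with h0 | ⟨x, hxE, h1, h2, h3⟩
    · rw [hw]
      simp only [h0, measureReal_empty]
      exact mul_nonneg hη (hW0 _)
    · have h4 := hEη x hxE
      rw [h1, h3] at h4
      refine le_trans ?_ h4
      refine measureReal_mono ?_ (measure_ne_top _ _)
      rintro y ⟨-, g1, g2, g3⟩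
      exact ⟨g1, g3⟩
  have hsq : ∑ t ∈ F, w t * ‖B t.1 t.2.2 t.2.1‖ ^ 2 ≤ η * C * K₃ * C₁ := by
    calc ∑ t ∈ F, w t * ‖B t.1 t.2.2 t.2.1‖ ^ 2
        ≤ ∑ t ∈ F, (η * W t.1) * ‖B t.1 t.2.2 t.2.1‖ ^ 2 :=
          Finset.sum_le_sum (fun t ht => mul_le_mul_of_nonneg_right (hwη t ht) (by positivity))
      _ = ∑ i ∈ Finset.range K₁, (η * W i) *
            ∑ j ∈ Finset.range K₃, ∑ c ∈ Finset.range K₂, ‖B i c j‖ ^ 2 := by
          rw [hF, Finset.sum_product]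
          refine Finset.sum_congr rfl (fun i _ => ?_)
          rw [Finset.mul_sum, Finset.sum_product]
          refine Finset.sum_congr rfl (fun j _ => ?_)
          rw [Finset.mul_sum]
      _ ≤ ∑ i ∈ Finset.range K₁, (η * W i) * (K₃ * C) := by
          refine Finset.sum_le_sum (fun i hi => mul_le_mul_of_nonneg_left ?_ (mul_nonneg hη (hW0 _)))
          calc ∑ j ∈ Finset.range K₃, ∑ c ∈ Finset.range K₂, ‖B i c j‖ ^ 2
              ≤ ∑ j ∈ Finset.range K₃, C :=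
                Finset.sum_le_sum (fun j hj => hC i j (Finset.mem_range.1 hi) (Finset.mem_range.1 hj))
            _ = K₃ * C := by simp
      _ = η * (K₃ * C) * ∑ i ∈ Finset.range K₁, W i := by
          rw [Finset.mul_sum]
          refine Finset.sum_congr rfl (fun i _ => ?_)
          ring
      _ ≤ η * (K₃ * C) * C₁ := mul_le_mul_of_nonneg_left hW (by positivity)
      _ = η * C * K₃ * C₁ := by ring
  have hCS : (∑ t ∈ F, w t * ‖B t.1 t.2.2 t.2.1‖) ^ 2 ≤ η * C * K₃ * C₁ := by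
    have h1 := Finset.sum_mul_sq_le_sq_mul_sq F (fun t => √(w t))
      (fun t => √(w t) * ‖B t.1 t.2.2 t.2.1‖)
    have e1 : ∀ t, √(w t) * (√(w t) * ‖B t.1 t.2.2 t.2.1‖) = w t * ‖B t.1 t.2.2 t.2.1‖ := by
      intro t
      rw [← mul_assoc, Real.mul_self_sqrt (hw0 t)]
    have e2 : ∀ t, √(w t) ^ 2 = w t := fun t => Real.sq_sqrt (hw0 t)
    have e3 : ∀ t, (√(w t) * ‖B t.1 t.2.2 t.2.1‖) ^ 2 = w t * ‖B t.1 t.2.2 t.2.1‖ ^ 2 := by
      intro t
      rw [mul_pow, Real.sq_sqrt (hw0 t)]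
    simp only [e1, e2, e3] at h1
    refine h1.trans ?_
    calc (∑ t ∈ F, w t) * ∑ t ∈ F, w t * ‖B t.1 t.2.2 t.2.1‖ ^ 2
        ≤ 1 * ∑ t ∈ F, w t * ‖B t.1 t.2.2 t.2.1‖ ^ 2 :=
          mul_le_mul_of_nonneg_right hwle1
            (Finset.sum_nonneg (fun t _ => mul_nonneg (hw0 t) (by positivity)))
      _ ≤ η * C * K₃ * C₁ := by rw [one_mul]; exact hsq
  rw [hint1]
  calc ‖∑ t ∈ F, ∫ x in E ∩ P t, h x ∂μ‖ ≤ ∑ t ∈ F, (‖B t.1 t.2.2 t.2.1‖ + e) * w t :=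
        (norm_sum_le _ _).trans (Finset.sum_le_sum hbound)
    _ = e * ∑ t ∈ F, w t + ∑ t ∈ F, w t * ‖B t.1 t.2.2 t.2.1‖ := by
        rw [Finset.mul_sum, ← Finset.sum_add_distrib]
        refine Finset.sum_congr rfl (fun t _ => ?_)
        ring
    _ ≤ e + √(η * C * K₃ * C₁) := by
        have h1 := Real.le_sqrt_of_sq_le hCS
        have h2 : e * ∑ t ∈ F, w t ≤ e * 1 := mul_le_mul_of_nonneg_left hwle1 he
        linarith

end Pool.Agent.H.MP_96e181_an
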