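import Mathlib

set_option autoImplicit false

namespace Pool.Agent.H.MP_96e181_an

open MeasureTheory Filter Topology Set Finset
open scoped ENNReal NNReal

/-- Number of collisions `K ∣ a (i - i')`. -/
theorem count_mul (K : ℕ) (hK : 0 < K) (a : ℤ) (ha : a ≠ 0) :
    (((Finset.range K) ×ˢ (Finset.range K)).filter
      (fun t => (K : ℤ) ∣ a * (t.1 : ℤ) - a * (t.2 : ℤ))).card ≤ K * (2 * a.natAbs) := by
  have hK' : (0:ℤ) < K := by exact_mod_cast hK
  have hcard : ((Finset.range K) ×ˢ (Finset.Ioo (-|a|) |a|)).card ≤ K * (2 * a.natAbs) := by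
    rw [Finset.card_product, Finset.card_range, Int.card_Ioo]
    apply Nat.mul_le_mul_left
    have : |a| = (a.natAbs : ℤ) := Int.abs_eq_natAbs a
    rw [this]; omega
  refine le_trans ?_ hcard
  apply Finset.card_le_card_of_injOn
    (fun t => (t.1, (a * (t.1 : ℤ) - a * (t.2 : ℤ)) / K))
  · intro t ht
    simp only [Finset.coe_filter, Finset.mem_product, Finset.mem_range, Set.mem_ofPred_eq] at ht
    obtain ⟨⟨h1, h2⟩, h3⟩ := ht
    simp only [Finset.coe_product, Set.mem_prod, Finset.mem_coe, Finset.mem_range, Finset.mem_Ioo]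
    refine ⟨h1, ?_⟩
    have habs : |a * (t.1 : ℤ) - a * (t.2 : ℤ)| < |a| * K := by
      rw [← mul_sub, abs_mul]
      apply mul_lt_mul_of_pos_left _ (abs_pos.2 ha)
      rw [abs_lt]; constructor <;> omega
    obtain ⟨w, hw⟩ := h3
    rw [hw, Int.mul_ediv_cancel_left _ hK'.ne']
    rw [hw, abs_mul, abs_of_pos hK', mul_comm] at habs
    have := lt_of_mul_lt_mul_right habs hK'.le
    exact abs_lt.1 this
  · intro t ht s hs hts
    simp only [Finset.coe_filter, Finset.mem_product, Finset.mem_range, Set.mem_ofPred_eq] at ht hs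
    simp only [Prod.mk.injEq] at hts
    obtain ⟨e1, e2⟩ := hts
    obtain ⟨⟨_, _⟩, w, hw⟩ := ht
    obtain ⟨⟨_, _⟩, v, hv⟩ := hs
    rw [hw, hv, Int.mul_ediv_cancel_left _ hK'.ne', Int.mul_ediv_cancel_left _ hK'.ne'] at e2
    subst e2
    have h4 : a * (t.2 : ℤ) = a * (s.2 : ℤ) := by
      have h5 := hw.trans hv.symm
      rw [e1] at h5
      linarith
    have h5 := mul_left_cancel₀ ha h4
    ext
    · exact e1
    · exact_mod_cast h5

/-- Sum of masses of distinct fibres. -/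
theorem sum_fibre_le_one {Ω : Type*} [MeasurableSpace Ω] (μ : Measure Ω) [IsProbabilityMeasure μ]
    {k : Ω → ℕ} (hk : Measurable k) (K₁ : ℕ) (f : ℕ → ℕ)
    (hf : Set.InjOn f (Finset.range K₁ : Set ℕ)) :
    ∑ i ∈ Finset.range K₁, μ.real {y | k y = f i} ≤ 1 := by
  have hpd : Set.Pairwise (↑(Finset.range K₁) : Set ℕ)
      (Function.onFun Disjoint (fun i => {y | k y = f i})) := by
    intro i hi j hj hij
    simp only [Function.onFun]
    rw [Set.disjoint_left]
    intro y h1 h2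
    exact hij (hf hi hj (h1.symm.trans h2))
  rw [← measureReal_biUnion_finset hpd (fun i _ => hk (measurableSet_singleton (f i)))]
  exact measureReal_le_one

/-- A set on which the conditional mass of the cell `(k,b)` given `k` is at most `η` has measure
at most `η K₂`. -/
theorem mass_le {Ω : Type*} [MeasurableSpace Ω] (μ : Measure Ω) [IsProbabilityMeasure μ]
    {E : Set Ω} {k b : Ω → ℕ}
    {K₁ K₂ : ℕ} (hkK : ∀ x, k x < K₁) (hbK : ∀ x, b x < K₂) {η : ℝ} (hη : 0 ≤ η)
    {W : ℕ → ℝ} (hW0 : ∀ i, 0 ≤ W i) {C₁ : ℝ} (hW : ∑ i ∈ Finset.range K₁, W i ≤ C₁)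
    (hEη : ∀ x ∈ E, μ.real {y | k y = k x ∧ b y = b x} ≤ η * W (k x)) :
    μ.real E ≤ η * C₁ * K₂ := by
  classical
  set F : Finset (ℕ × ℕ) := (Finset.range K₁) ×ˢ (Finset.range K₂) with hF
  let P : ℕ × ℕ → Set Ω := fun t => {y | k y = t.1 ∧ b y = t.2}
  have hcover : E ⊆ (⋃ t ∈ F, (E ∩ P t)) := by
    intro y hy
    simp only [Set.mem_iUnion, exists_prop]
    refine ⟨(k y, b y), ?_, hy, rfl, rfl⟩
    simp [hF, hkK, hbK]
  have hwη : ∀ t ∈ F, μ.real (E ∩ P t) ≤ η * W t.1 := by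
    intro t _
    rcases (E ∩ P t).eq_empty_or_nonempty with h0 | ⟨x, hxE, h1, h3⟩
    · simp only [h0, measureReal_empty]
      exact mul_nonneg hη (hW0 _)
    · have h4 := hEη x hxE
      rw [h1, h3] at h4
      refine le_trans ?_ h4
      refine measureReal_mono ?_ (measure_ne_top _ _)
      rintro y ⟨-, g1, g3⟩
      exact ⟨g1, g3⟩
  calc μ.real E ≤ μ.real (⋃ t ∈ F, (E ∩ P t)) := measureReal_mono hcover (measure_ne_top _ _)
    _ ≤ ∑ t ∈ F, μ.real (E ∩ P t) := measureReal_biUnion_finset_le _ _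
    _ ≤ ∑ t ∈ F, η * W t.1 := Finset.sum_le_sum hwη
    _ = K₂ * (η * ∑ i ∈ Finset.range K₁, W i) := by
        rw [hF, Finset.sum_product, Finset.mul_sum, Finset.mul_sum]
        refine Finset.sum_congr rfl (fun i _ => ?_)
        simp
    _ ≤ K₂ * (η * C₁) := by gcongr
    _ = η * C₁ * K₂ := by ring

end Pool.Agent.H.MP_96e181_an
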