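import Pool.Agent.H.MP_96e181_an.Phase

/-!
# Almost every point of an atomless ×p-invariant measure has a dense ×q-orbit

Helper file for the problem MP_96e181_an.
-/

open MeasureTheory Filter Topology Set

namespace Pool.Agent.H.MP_96e181_an

/-- closure of the orbit of `x` under multiplication by `q` -/
def O (q : ℕ) (x : UnitAddCircle) : Set UnitAddCircle := closure (range fun n : ℕ => q ^ n • x)

lemma self_mem_O (q : ℕ) (x : UnitAddCircle) : x ∈ O q x :=
  subset_closure ⟨0, by simp⟩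

lemma isClosed_O (q : ℕ) (x : UnitAddCircle) : IsClosed (O q x) := isClosed_closure

lemma O_q (q : ℕ) (x : UnitAddCircle) : ∀ y ∈ O q x, q • y ∈ O q x := by
  intro y hy
  have h : (fun z : UnitAddCircle => q • z) '' (O q x) ⊆ O q x := by
    refine (image_closure_subset_closure_image (continuous_const_smul q)).trans ?_
    refine closure_mono ?_
    rintro _ ⟨_, ⟨n, rfl⟩, rfl⟩
    refine ⟨n + 1, ?_⟩
    simp only
    rw [pow_succ', mul_smul]
  exact h ⟨y, hy, rfl⟩

lemma O_q_pow (q n : ℕ) (x : UnitAddCircle) : ∀ y ∈ O q x, q ^ n • y ∈ O q x :=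
  pow_smul_mem (O_q q x) n

lemma O_smul (q P : ℕ) (x : UnitAddCircle) : ∀ y ∈ O q x, P • y ∈ O q (P • x) := by
  intro y hy
  have h : (fun z : UnitAddCircle => P • z) '' (O q x) ⊆ O q (P • x) := by
    refine (image_closure_subset_closure_image (continuous_const_smul P)).trans ?_
    refine closure_mono ?_
    rintro _ ⟨_, ⟨n, rfl⟩, rfl⟩
    refine ⟨n, ?_⟩
    simp only
    rw [← mul_smul, ← mul_smul, mul_comm]
  exact h ⟨y, hy, rfl⟩

lemma O_image (q P : ℕ) (x : UnitAddCircle) :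
    O q (P • x) ⊆ (fun z : UnitAddCircle => P • z) '' (O q x) := by
  refine closure_minimal ?_ ?_
  · rintro _ ⟨n, rfl⟩
    refine ⟨q ^ n • x, subset_closure ⟨n, rfl⟩, ?_⟩
    simp only
    rw [← mul_smul, ← mul_smul, mul_comm]
  · exact ((isClosed_O q x).isCompact.image (continuous_const_smul P)).isClosed

lemma mem_O_of_tendsto {q : ℕ} {x : UnitAddCircle} {y : ℕ → UnitAddCircle} {ε : ℕ → ℝ}
    {y0 : UnitAddCircle} (hε : Tendsto ε atTop (𝓝 0)) (hy : Tendsto y atTop (𝓝 y0))
    (h : ∀ k, ∃ n : ℕ, dist (q ^ n • x) (y k) < ε k) : y0 ∈ O q x := by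
  rw [O, Metric.mem_closure_iff]
  intro δ hδ
  have h1 : ∀ᶠ k in atTop, dist (y k) y0 < δ / 2 := by
    have := (tendsto_iff_dist_tendsto_zero.1 hy)
    exact this.eventually_lt_const (by positivity)
  have h2 : ∀ᶠ k in atTop, ε k < δ / 2 := hε.eventually_lt_const (by positivity)
  obtain ⟨k, hk1, hk2⟩ := (h1.and h2).exists
  obtain ⟨n, hn⟩ := h k
  refine ⟨_, ⟨n, rfl⟩, ?_⟩
  simp only
  calc dist y0 (q ^ n • x) ≤ dist y0 (y k) + dist (y k) (q ^ n • x) := dist_triangle _ _ _
    _ = dist (y k) y0 + dist (q ^ n • x) (y k) := by rw [dist_comm y0, dist_comm (y k) (q ^ n • x)]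
    _ < δ := by linarith

/-- translated orbit closures form an admissible family -/
lemma rcs_translate (q : ℕ) (r : UnitAddCircle) :
    RCS (fun x => {y | y + r ∈ O q x})
      (fun k => {z | ∃ n : ℕ, dist (q ^ n • z.1) (z.2 + r) < 1 / ((k : ℝ) + 1)}) where
  isOpen k := by
    have : {z : UnitAddCircle × UnitAddCircle |
        ∃ n : ℕ, dist (q ^ n • z.1) (z.2 + r) < 1 / ((k : ℝ) + 1)} =
        ⋃ n : ℕ, {z | dist (q ^ n • z.1) (z.2 + r) < 1 / ((k : ℝ) + 1)} := by
      ext z; simp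
    rw [this]
    exact isOpen_iUnion fun n => isOpen_lt (by fun_prop) continuous_const
  anti := by
    intro i j hij z hz
    obtain ⟨n, hn⟩ := hz
    exact ⟨n, hn.trans_le (one_div_le_one_div_of_le (by positivity) (by
      have : (i : ℝ) ≤ j := by exact_mod_cast hij
      linarith))⟩
  sub := by
    intro x y k hy
    have hy' : y + r ∈ O q x := hy
    rw [O, Metric.mem_closure_iff] at hy'
    obtain ⟨_, ⟨n, rfl⟩, hn⟩ := hy' (1 / ((k : ℝ) + 1)) (by positivity)
    exact ⟨n, by rw [dist_comm]; exact hn⟩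
  lim := by
    intro x y y0 h hlim
    show y0 + r ∈ O q x
    exact mem_O_of_tendsto tendsto_one_div_add_atTop_nhds_zero_nat (hlim.add_const r) h

/-- points whose first `i` translates by multiples of `τ` all lie in the orbit closure -/
def X (q : ℕ) (τ : UnitAddCircle) (i : ℕ) (x : UnitAddCircle) : Set UnitAddCircle :=
  {y | ∀ l : ℕ, l ≤ i → y + l • τ ∈ O q x}

/-- differences -/
def D (q : ℕ) (τ : UnitAddCircle) (i : ℕ) (x : UnitAddCircle) : Set UnitAddCircle :=
  {z | ∃ y ∈ X q τ i x, ∃ y' ∈ X q τ i x, z = y - y'}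

lemma rcs_D (q : ℕ) (τ : UnitAddCircle) (i : ℕ) :
    RCS (D q τ i)
      (fun k => {z | ∃ y y' : UnitAddCircle, dist z.2 (y - y') < 1 / ((k : ℝ) + 1) ∧
        (∀ l : ℕ, l ≤ i → ∃ n : ℕ, dist (q ^ n • z.1) (y + l • τ) < 1 / ((k : ℝ) + 1)) ∧
        (∀ l : ℕ, l ≤ i → ∃ n : ℕ, dist (q ^ n • z.1) (y' + l • τ) < 1 / ((k : ℝ) + 1))}) where
  isOpen k := by
    have hop : ∀ y : UnitAddCircle, IsOpen {z : UnitAddCircle × UnitAddCircle |
        ∀ l : ℕ, l ≤ i → ∃ n : ℕ, dist (q ^ n • z.1) (y + l • τ) < 1 / ((k : ℝ) + 1)} := by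
      intro y
      have : {z : UnitAddCircle × UnitAddCircle |
          ∀ l : ℕ, l ≤ i → ∃ n : ℕ, dist (q ^ n • z.1) (y + l • τ) < 1 / ((k : ℝ) + 1)} =
          ⋂ l ∈ Finset.range (i + 1), ⋃ n : ℕ,
            {z | dist (q ^ n • z.1) (y + l • τ) < 1 / ((k : ℝ) + 1)} := by
        ext z
        simp only [mem_ofPred_eq, mem_iInter, Finset.mem_range, mem_iUnion, Nat.lt_succ_iff]
      rw [this]
      refine isOpen_biInter_finset fun l _ => isOpen_iUnion fun n => ?_
      exact isOpen_lt (by fun_prop) continuous_const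
    have : {z : UnitAddCircle × UnitAddCircle | ∃ y y' : UnitAddCircle,
        dist z.2 (y - y') < 1 / ((k : ℝ) + 1) ∧
        (∀ l : ℕ, l ≤ i → ∃ n : ℕ, dist (q ^ n • z.1) (y + l • τ) < 1 / ((k : ℝ) + 1)) ∧
        (∀ l : ℕ, l ≤ i → ∃ n : ℕ, dist (q ^ n • z.1) (y' + l • τ) < 1 / ((k : ℝ) + 1))} =
        ⋃ y : UnitAddCircle, ⋃ y' : UnitAddCircle,
          ({z | dist z.2 (y - y') < 1 / ((k : ℝ) + 1)} ∩
          ({z | ∀ l : ℕ, l ≤ i → ∃ n : ℕ, dist (q ^ n • z.1) (y + l • τ) < 1 / ((k : ℝ) + 1)} ∩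
          {z | ∀ l : ℕ, l ≤ i → ∃ n : ℕ,
            dist (q ^ n • z.1) (y' + l • τ) < 1 / ((k : ℝ) + 1)})) := by
      ext z
      simp only [mem_ofPred_eq, mem_iUnion, mem_inter_iff]
    rw [this]
    refine isOpen_iUnion fun y => isOpen_iUnion fun y' => ?_
    refine IsOpen.inter ?_ ((hop y).inter (hop y'))
    exact isOpen_lt (by fun_prop) continuous_const
  anti := by
    intro a b hab z hz
    have hle : 1 / ((b : ℝ) + 1) ≤ 1 / ((a : ℝ) + 1) :=
      one_div_le_one_div_of_le (by positivity) (by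
        have : (a : ℝ) ≤ b := by exact_mod_cast hab
        linarith)
    obtain ⟨y, y', h1, h2, h3⟩ := hz
    refine ⟨y, y', h1.trans_le hle, fun l hl => ?_, fun l hl => ?_⟩
    · obtain ⟨n, hn⟩ := h2 l hl
      exact ⟨n, hn.trans_le hle⟩
    · obtain ⟨n, hn⟩ := h3 l hl
      exact ⟨n, hn.trans_le hle⟩
  sub := by
    rintro x z k ⟨y, hy, y', hy', rfl⟩
    have hpos : (0 : ℝ) < 1 / ((k : ℝ) + 1) := by positivity
    refine ⟨y, y', by simpa using hpos, fun l hl => ?_, fun l hl => ?_⟩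
    · have := hy l hl
      rw [O, Metric.mem_closure_iff] at this
      obtain ⟨_, ⟨n, rfl⟩, hn⟩ := this _ hpos
      exact ⟨n, by rw [dist_comm]; exact hn⟩
    · have := hy' l hl
      rw [O, Metric.mem_closure_iff] at this
      obtain ⟨_, ⟨n, rfl⟩, hn⟩ := this _ hpos
      exact ⟨n, by rw [dist_comm]; exact hn⟩
  lim := by
    intro x z z0 h hlim
    choose y y' h1 h2 h3 using h
    obtain ⟨a, -, φ, hφ, ha⟩ := (isCompact_univ (X := UnitAddCircle × UnitAddCircle)).tendsto_subseq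
      (x := fun k => (y k, y' k)) (fun _ => mem_univ _)
    have ha1 : Tendsto (fun k => y (φ k)) atTop (𝓝 a.1) :=
      (continuous_fst.tendsto a).comp ha
    have ha2 : Tendsto (fun k => y' (φ k)) atTop (𝓝 a.2) :=
      (continuous_snd.tendsto a).comp ha
    have hε : Tendsto (fun k => 1 / ((φ k : ℝ) + 1)) atTop (𝓝 0) :=
      tendsto_one_div_add_atTop_nhds_zero_nat.comp hφ.tendsto_atTop
    refine ⟨a.1, fun l hl => ?_, a.2, fun l hl => ?_, ?_⟩
    · exact mem_O_of_tendsto hε (ha1.add_const _) (fun k => h2 (φ k) l hl)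
    · exact mem_O_of_tendsto hε (ha2.add_const _) (fun k => h3 (φ k) l hl)
    · have hz : Tendsto (fun k => z (φ k)) atTop (𝓝 z0) := hlim.comp hφ.tendsto_atTop
      have hz2 : Tendsto (fun k => y (φ k) - y' (φ k)) atTop (𝓝 (a.1 - a.2)) := ha1.sub ha2
      have hd : Tendsto (fun k => dist (z (φ k)) (y (φ k) - y' (φ k))) atTop (𝓝 0) :=
        squeeze_zero (fun _ => dist_nonneg) (fun k => (h1 (φ k)).le) hε
      have hd2 := hz.dist hz2
      have := tendsto_nhds_unique hd2 hd
      exact dist_eq_zero.1 this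

lemma irr_pow {p q : ℕ} (h : Irrational (Real.log p / Real.log q)) {u : ℕ} (hu : u ≠ 0) :
    Irrational (Real.log ((p ^ u : ℕ) : ℝ) / Real.log ((q ^ u : ℕ) : ℝ)) := by
  push_cast
  rw [Real.log_pow, Real.log_pow, mul_div_mul_left _ _ (by exact_mod_cast hu)]
  exact h

lemma irr_symm {p q : ℕ} (h : Irrational (Real.log p / Real.log q)) :
    Irrational (Real.log q / Real.log p) := by
  rw [← inv_div]
  exact irrational_inv_iff.2 h

lemma mp_pow {μ : Measure UnitAddCircle} {p : ℕ}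
    (hμ : MeasurePreserving (fun x : UnitAddCircle => p • x) μ μ) (u : ℕ) :
    MeasurePreserving (fun x : UnitAddCircle => p ^ u • x) μ μ := by
  have h1 := hμ.iterate u
  have h2 : (fun x : UnitAddCircle => p • x)^[u] = fun x : UnitAddCircle => p ^ u • x := by
    induction u with
    | zero => ext x; simp
    | succ n ih =>
      rw [Function.iterate_succ', ih (hμ.iterate n)]
      ext x
      simp only [Function.comp]
      rw [pow_succ', mul_smul]
  rwa [h2] at h1

/-- almost every point has infinite order -/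
lemma ae_not_torsion {μ : Measure UnitAddCircle} [NullSingletonClass μ] :
    ∀ᵐ x ∂μ, ∀ n : ℕ, 0 < n → n • x ≠ 0 := by
  rw [ae_all_iff]
  intro n
  by_cases hn : 0 < n
  · have hfin : {x : UnitAddCircle | n • x = 0}.Finite := AddCircle.finite_torsion 1 hn
    have h0 : μ {x : UnitAddCircle | n • x = 0} = 0 := hfin.countable.measure_zero μ
    have : ∀ᵐ x ∂μ, ¬ (n • x = 0) := by
      rw [ae_iff]; simpa using h0
    filter_upwards [this] with x hx _ using hx
  · exact Eventually.of_forall fun x h => absurd h hn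

lemma pow_smul_injective {Q : ℕ} (hQ : 2 ≤ Q) {y : UnitAddCircle}
    (hy : ∀ n : ℕ, 0 < n → n • y ≠ 0) : Function.Injective fun n : ℕ => Q ^ n • y := by
  have key : ∀ n m : ℕ, n < m → Q ^ n • y ≠ Q ^ m • y := by
    intro n m hnm h
    have hlt : Q ^ n < Q ^ m := Nat.pow_lt_pow_right (by omega) hnm
    refine hy (Q ^ m - Q ^ n) (by omega) ?_
    rw [sub_nsmul _ hlt.le, h]
    simp
  intro n m h
  rcases lt_trichotomy n m with hlt | heq | hgt
  · exact absurd h (key n m hlt)
  · exact heq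
  · exact absurd h.symm (key m n hgt)

/-- If an orbit closure contains a point fixed by `p ^ u` and `q ^ u`, it is everything. -/
lemma fixed_case {μ : Measure UnitAddCircle} [IsFiniteMeasure μ] [NullSingletonClass μ] {p q : ℕ}
    (hp : 2 ≤ p) (hq : 2 ≤ q) (h : Irrational (Real.log p / Real.log q))
    (hμ : MeasurePreserving (fun x : UnitAddCircle => p • x) μ μ)
    {r : UnitAddCircle} {u : ℕ} (hu : u ≠ 0) (hpr : p ^ u • r = r) (hqr : q ^ u • r = r) :
    ∀ᵐ x ∂μ, r ∈ O q x → O q x = univ := by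
  have hP2 : 2 ≤ p ^ u := hp.trans (Nat.le_self_pow hu p)
  have hQ2 : 2 ≤ q ^ u := hq.trans (Nat.le_self_pow hu q)
  have hph := phase (Z := fun x => {y | y + r ∈ O q x}) (rcs_translate q r) hP2 hQ2
    (irr_pow h hu)
    (by
      intro x y hy
      show q ^ u • y + r ∈ O q x
      have := O_q_pow q u x _ hy
      rwa [smul_add, hqr] at this)
    (by
      intro x y hy
      show p ^ u • y + r ∈ O q (p ^ u • x)
      have := O_smul q (p ^ u) x _ hy
      rwa [smul_add, hpr] at this)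
    (mp_pow hμ u)
  filter_upwards [hph, ae_not_torsion (μ := μ)] with x hx hxt hr
  have hinj := pow_smul_injective hq hxt
  have hacc : (0 : UnitAddCircle) ∈ closure ({y | y + r ∈ O q x} \ {0}) := by
    rw [Metric.mem_closure_iff]
    intro ε hε
    -- find two orbit points near r, one of which differs from r
    have hr' : r ∈ closure (range fun n : ℕ => q ^ n • x) := hr
    by_cases hex : ∃ n : ℕ, q ^ n • x = r
    · exfalso
      obtain ⟨n, hn⟩ := hex
      have h1 : q ^ (n + u) • x = q ^ n • x := by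
        rw [add_comm, pow_add, mul_smul, hn, hqr]
      have := hinj h1
      omega
    · push Not at hex
      rw [Metric.mem_closure_iff] at hr'
      obtain ⟨_, ⟨n, rfl⟩, hn⟩ := hr' ε hε
      refine ⟨q ^ n • x - r, ⟨?_, ?_⟩, ?_⟩
      · show q ^ n • x - r + r ∈ O q x
        rw [sub_add_cancel]
        exact subset_closure ⟨n, rfl⟩
      · simp only [mem_singleton_iff, sub_eq_zero]
        exact hex n
      · simp only at hn
        rwa [dist_comm, dist_zero_right, ← dist_eq_norm, dist_comm]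
  have hZ := hx hacc
  ext y
  simp only [mem_univ, iff_true]
  have : y - r ∈ {y | y + r ∈ O q x} := by rw [hZ]; trivial
  simpa using this

/-- closed `q`-invariant set whose image under `P` is everything is everything -/
lemma eq_univ_of_image {q P : ℕ} (hq : 2 ≤ q) (hP : 0 < P) {C : Set UnitAddCircle}
    (hC : IsClosed C) (hqC : ∀ y ∈ C, q • y ∈ C)
    (him : univ ⊆ (fun z : UnitAddCircle => P • z) '' C) : C = univ := by
  have hfin : {x : UnitAddCircle | P • x = 0}.Finite := AddCircle.finite_torsion 1 hP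
  have hcov : (univ : Set UnitAddCircle) ⊆ ⋃ f ∈ {x : UnitAddCircle | P • x = 0},
      (fun y => f + y) '' C := by
    intro z _
    obtain ⟨y, hyC, hy⟩ := him (mem_univ (P • z))
    simp only at hy
    refine mem_iUnion₂.2 ⟨z - y, ?_, y, hyC, by simp⟩
    show P • (z - y) = 0
    rw [smul_sub, hy, sub_self]
  have hpos : (volume : Measure UnitAddCircle) C ≠ 0 := by
    intro h0
    have h1 : (volume : Measure UnitAddCircle) (⋃ f ∈ {x : UnitAddCircle | P • x = 0},
        (fun y => f + y) '' C) = 0 := by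
      rw [measure_biUnion_null_iff hfin.countable]
      intro f _
      have : (fun y : UnitAddCircle => f + y) '' C = (fun y => -f + y) ⁻¹' C := by
        rw [image_add_left]
      rw [this, measure_preimage_add]
      exact h0
    have h2 := measure_mono_null hcov h1
    rw [UnitAddCircle.measure_univ] at h2
    exact one_ne_zero h2
  have herg : Ergodic (fun y : UnitAddCircle => q • y) volume :=
    AddCircle.ergodic_nsmul (T := 1) (by omega)
  have hsub : C ⊆ (fun y : UnitAddCircle => q • y) ⁻¹' C := fun y hy => hqC y hy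
  rcases herg.ae_empty_or_univ_of_ae_le_preimage hC.measurableSet.nullMeasurableSet
    hsub.eventuallyLE with h | h
  · exact absurd (by rw [measure_congr h]; simp) hpos
  · have h0 : (volume : Measure UnitAddCircle) Cᶜ = 0 := by
      rw [← ae_eq_univ]; exact h
    have hempty : Cᶜ = ∅ := by
      rcases Cᶜ.eq_empty_or_nonempty with he | hne
      · exact he
      · exact absurd h0 (hC.isOpen_compl.measure_pos _ hne).ne'
    exact compl_empty_iff.1 hempty

lemma exists_period {r : UnitAddCircle} {b : ℕ} (hb : 0 < b) (hr : b • r = 0) (p : ℕ) :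
    ∃ a d : ℕ, d ≠ 0 ∧ p ^ d • (p ^ a • r) = p ^ a • r := by
  have hfin : {x : UnitAddCircle | b • x = 0}.Finite := AddCircle.finite_torsion 1 hb
  have hmaps : MapsTo (fun n : ℕ => p ^ n • r) univ {x : UnitAddCircle | b • x = 0} := by
    intro n _
    show b • p ^ n • r = 0
    rw [← mul_smul, mul_comm, mul_smul, hr, smul_zero]
  obtain ⟨n, -, m, -, hne, heq⟩ :=
    infinite_univ.exists_ne_map_eq_of_mapsTo hmaps hfin
  rcases lt_or_gt_of_ne hne with hlt | hgt
  · refine ⟨n, m - n, by omega, ?_⟩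
    rw [← mul_smul, ← pow_add, Nat.sub_add_cancel hlt.le, heq]
  · refine ⟨m, n - m, by omega, ?_⟩
    rw [← mul_smul, ← pow_add, Nat.sub_add_cancel hgt.le, heq]

lemma iterate_fixed {p d : ℕ} {r : UnitAddCircle} (h : p ^ d • r = r) (e : ℕ) :
    p ^ (d * e) • r = r := by
  induction e with
  | zero => simp
  | succ n ih =>
    rw [mul_add, mul_one, pow_add, mul_smul, h, ih]

/-- the torsion case -/
lemma torsion_case {μ : Measure UnitAddCircle} [IsFiniteMeasure μ] [NullSingletonClass μ] {p q : ℕ}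
    (hp : 2 ≤ p) (hq : 2 ≤ q) (h : Irrational (Real.log p / Real.log q))
    (hμ : MeasurePreserving (fun x : UnitAddCircle => p • x) μ μ)
    {r : UnitAddCircle} {b : ℕ} (hb : 0 < b) (hr : b • r = 0) :
    ∀ᵐ x ∂μ, r ∈ O q x → O q x = univ := by
  obtain ⟨a₂, d₂, hd₂, h₂⟩ := exists_period hb hr q
  have hr2 : b • (q ^ a₂ • r) = 0 := by
    rw [← mul_smul, mul_comm, mul_smul, hr, smul_zero]
  obtain ⟨a₁, d₁, hd₁, h₁⟩ := exists_period hb hr2 p
  set r' : UnitAddCircle := p ^ a₁ • (q ^ a₂ • r) with hr'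
  have hpr : p ^ (d₁ * d₂) • r' = r' := iterate_fixed h₁ d₂
  have hqr : q ^ (d₁ * d₂) • r' = r' := by
    rw [mul_comm]
    refine iterate_fixed ?_ d₁
    rw [hr', ← mul_smul, mul_comm, mul_smul, h₂]
  have hfix := fixed_case hp hq h hμ (mul_ne_zero hd₁ hd₂) hpr hqr
  have hfix' := (mp_pow hμ a₁).quasiMeasurePreserving.ae hfix
  filter_upwards [hfix'] with x hx hrx
  have h1 : q ^ a₂ • r ∈ O q x := O_q_pow q a₂ x r hrx
  have h2 : r' ∈ O q (p ^ a₁ • x) := O_smul q (p ^ a₁) x _ h1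
  have h3 : O q (p ^ a₁ • x) = univ := hx h2
  refine eq_univ_of_image hq (P := p ^ a₁) (by positivity) (isClosed_O q x) (O_q q x) ?_
  rw [← h3]
  exact O_image q (p ^ a₁) x

lemma X_zero (q : ℕ) (τ x : UnitAddCircle) : (X q τ 0 x).Nonempty := by
  refine ⟨x, fun l hl => ?_⟩
  obtain rfl : l = 0 := by omega
  simpa using self_mem_O q x

lemma X_Q {q u : ℕ} {τ : UnitAddCircle} (hτ : q ^ u • τ = τ) (i : ℕ) (x : UnitAddCircle) :
    ∀ y ∈ X q τ i x, q ^ u • y ∈ X q τ i x := by
  intro y hy l hl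
  have := O_q_pow q u x _ (hy l hl)
  rwa [smul_add, ← mul_smul, mul_comm, mul_smul, hτ] at this

lemma X_P {q P : ℕ} {τ : UnitAddCircle} (hτ : P • τ = τ) (i : ℕ) (x : UnitAddCircle) :
    ∀ y ∈ X q τ i x, P • y ∈ X q τ i (P • x) := by
  intro y hy l hl
  have := O_smul q P x _ (hy l hl)
  rwa [smul_add, ← mul_smul, mul_comm, mul_smul, hτ] at this

lemma isClosed_X (q : ℕ) (τ : UnitAddCircle) (i : ℕ) (x : UnitAddCircle) :
    IsClosed (X q τ i x) := by
  have : X q τ i x = ⋂ l : ℕ, ⋂ _ : l ≤ i, (fun y => y + l • τ) ⁻¹' (O q x) := by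
    ext y; simp [X]
  rw [this]
  refine isClosed_iInter fun l => isClosed_iInter fun _ => (isClosed_O q x).preimage ?_
  fun_prop

lemma D_acc {q u : ℕ} (hQ2 : 2 ≤ q ^ u) {τ : UnitAddCircle} (hτ : q ^ u • τ = τ) {i : ℕ}
    {x : UnitAddCircle} (hne : (X q τ i x).Nonempty)
    (ht : ∀ y ∈ O q x, ∀ n : ℕ, 0 < n → n • y ≠ 0) :
    (0 : UnitAddCircle) ∈ closure (D q τ i x \ {0}) := by
  obtain ⟨y, hy⟩ := hne
  have hyO : y ∈ O q x := by simpa using hy 0 (Nat.zero_le _)
  have hinj := pow_smul_injective hQ2 (ht y hyO)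
  have hmem : ∀ n : ℕ, (q ^ u) ^ n • y ∈ X q τ i x := fun n =>
    pow_smul_mem (X_Q hτ i x) n y hy
  obtain ⟨a, -, φ, hφ, ha⟩ := (isCompact_univ (X := UnitAddCircle)).tendsto_subseq
      (x := fun n => (q ^ u) ^ n • y) (fun _ => mem_univ _)
  have h1 : Tendsto (fun k => (q ^ u) ^ (φ (k + 1)) • y - (q ^ u) ^ (φ k) • y) atTop
      (𝓝 (a - a)) := (ha.comp (tendsto_add_atTop_nat 1)).sub ha
  rw [sub_self] at h1
  refine mem_closure_of_tendsto h1 (Eventually.of_forall fun k => ⟨?_, ?_⟩)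
  · exact ⟨_, hmem _, _, hmem _, rfl⟩
  · simp only [mem_singleton_iff, sub_eq_zero]
    intro h
    have := hφ.injective (hinj h)
    omega

/-- the torsion-free case: the orbit closure contains long arithmetic progressions -/
lemma torsion_free_case {μ : Measure UnitAddCircle} [IsFiniteMeasure μ] {p q : ℕ}
    (hp : 2 ≤ p) (hq : 2 ≤ q) (h : Irrational (Real.log p / Real.log q))
    (hμ : MeasurePreserving (fun x : UnitAddCircle => p • x) μ μ)
    {τ : UnitAddCircle} {u : ℕ} (hu : u ≠ 0) (hpτ : p ^ u • τ = τ) (hqτ : q ^ u • τ = τ) :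
    ∀ᵐ x ∂μ, (∀ y ∈ O q x, ∀ n : ℕ, 0 < n → n • y ≠ 0) → ∀ i, (X q τ i x).Nonempty := by
  have hP2 : 2 ≤ p ^ u := hp.trans (Nat.le_self_pow hu p)
  have hQ2 : 2 ≤ q ^ u := hq.trans (Nat.le_self_pow hu q)
  have hph : ∀ i : ℕ, ∀ᵐ x ∂μ, (0 : UnitAddCircle) ∈ closure (D q τ i x \ {0}) →
      D q τ i x = univ := by
    intro i
    refine phase (Z := D q τ i) (rcs_D q τ i) hP2 hQ2 (irr_pow h hu) ?_ ?_ (mp_pow hμ u)
    · rintro x _ ⟨y, hy, y', hy', rfl⟩
      exact ⟨_, X_Q hqτ i x y hy, _, X_Q hqτ i x y' hy', by rw [smul_sub]⟩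
    · rintro x _ ⟨y, hy, y', hy', rfl⟩
      exact ⟨_, X_P hpτ i x y hy, _, X_P hpτ i x y' hy', by rw [smul_sub]⟩
  filter_upwards [ae_all_iff.2 hph] with x hx ht i
  induction i with
  | zero => exact X_zero q τ x
  | succ i ih =>
    have hD := hx i (D_acc hQ2 hqτ ih ht)
    have hτD : τ ∈ D q τ i x := by rw [hD]; trivial
    obtain ⟨y', hy', y, hy, hyy⟩ := hτD
    refine ⟨y, fun l hl => ?_⟩
    rcases Nat.lt_or_ge l (i + 1) with hl' | hl'
    · exact hy l (by omega)
    · obtain rfl : l = i + 1 := by omega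
      have h1 := hy' i le_rfl
      have h2 : y' = y + τ := by rw [hyy]; abel
      rw [h2] at h1
      convert h1 using 1
      rw [add_smul, one_smul]
      abel

lemma tau_fixed {t n : ℕ} (ht : 0 < t) (hn : n ≡ 1 [MOD t]) (hn1 : 1 ≤ n) :
    n • (((1 / (t : ℝ) : ℝ)) : UnitAddCircle) = ((1 / (t : ℝ) : ℝ) : UnitAddCircle) := by
  obtain ⟨k, hk⟩ := (Nat.modEq_iff_dvd' hn1).1 hn.symm
  have hn' : n = 1 + k * t := by rw [mul_comm]; omega
  have h0 : t • (((1 / (t : ℝ) : ℝ)) : UnitAddCircle) = 0 := by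
    rw [← AddCircle.coe_nsmul, nsmul_eq_mul, mul_one_div_cancel (by positivity)]
    exact AddCircle.coe_period 1
  rw [hn', add_smul, one_smul, mul_smul, h0, smul_zero, add_zero]

/-- arithmetic progressions with difference `1/t` are `1/t`-dense -/
lemma dense_progression {t : ℕ} (ht : 0 < t) (y z : UnitAddCircle) :
    ∃ l : ℕ, l ≤ t - 1 ∧ dist z (y + l • (((1 / (t : ℝ) : ℝ)) : UnitAddCircle)) ≤ 1 / t := by
  obtain ⟨r, hr⟩ := QuotientAddGroup.mk_surjective (z - y)
  have hrz : ((Int.fract r : ℝ) : UnitAddCircle) = z - y := by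
    rw [← hr, Int.fract, AddCircle.coe_sub, sub_eq_self]
    exact (AddCircle.coe_eq_zero_iff 1).2 ⟨⌊r⌋, by simp⟩
  have htr : (0 : ℝ) < t := by exact_mod_cast ht
  set l : ℕ := ⌊Int.fract r * t⌋₊ with hl
  have h0 : 0 ≤ Int.fract r * t := mul_nonneg (Int.fract_nonneg r) htr.le
  have h1 : (l : ℝ) ≤ Int.fract r * t := Nat.floor_le h0
  have h2 : Int.fract r * t < l + 1 := Nat.lt_floor_add_one _
  have h3 : (l : ℝ) < t := by
    refine h1.trans_lt ?_
    have := Int.fract_lt_one r
    nlinarith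
  have h3' : l < t := by exact_mod_cast h3
  refine ⟨l, by omega, ?_⟩
  rw [dist_eq_norm]
  have h4 : z - (y + l • (((1 / (t : ℝ) : ℝ)) : UnitAddCircle)) =
      ((Int.fract r - l / t : ℝ) : UnitAddCircle) := by
    rw [AddCircle.coe_sub, hrz, ← AddCircle.coe_nsmul, nsmul_eq_mul, mul_one_div]
    abel
  rw [h4, UnitAddCircle.norm_eq]
  refine (round_le _ 0).trans ?_
  rw [Int.cast_zero, sub_zero, abs_le]
  constructor
  · rw [le_sub_iff_add_le, ← sub_eq_neg_add, ← sub_div, div_le_iff₀ htr]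
    linarith
  · rw [sub_le_iff_le_add, ← add_div, le_div_iff₀ htr]
    linarith

/-- **Main theorem.** If `μ` is an atomless finite measure on the circle invariant under
multiplication by `p`, and `q` is multiplicatively independent of `p`, then `μ`-almost every
point has a dense orbit under multiplication by `q`. -/
theorem ae_dense_orbit {μ : Measure UnitAddCircle} [IsFiniteMeasure μ] [NullSingletonClass μ]
    {p q : ℕ} (hp : 2 ≤ p) (hq : 2 ≤ q) (h : Irrational (Real.log p / Real.log q))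
    (hμ : MeasurePreserving (fun x : UnitAddCircle => p • x) μ μ) :
    ∀ᵐ x ∂μ, Dense (range fun n : ℕ => q ^ n • x) := by
  -- torsion points
  have hcount : {r : UnitAddCircle | ∃ b : ℕ, 0 < b ∧ b • r = 0}.Countable := by
    have : {r : UnitAddCircle | ∃ b : ℕ, 0 < b ∧ b • r = 0} =
        ⋃ b : ℕ, ⋃ _ : 0 < b, {r : UnitAddCircle | b • r = 0} := by
      ext r; simp
    rw [this]
    exact countable_iUnion fun b => countable_iUnion fun hb =>
      (AddCircle.finite_torsion 1 hb).countable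
  have h1 : ∀ᵐ x ∂μ, ∀ r ∈ {r : UnitAddCircle | ∃ b : ℕ, 0 < b ∧ b • r = 0},
      r ∈ O q x → O q x = univ := by
    rw [ae_ball_iff hcount]
    rintro r ⟨b, hb, hr⟩
    exact torsion_case hp hq h hμ hb hr
  -- progressions
  have h2 : ∀ᵐ x ∂μ, ∀ k : ℕ, (∀ y ∈ O q x, ∀ n : ℕ, 0 < n → n • y ≠ 0) →
      ∀ i, (X q (((1 / ((p * q * (k + 1) + 1 : ℕ) : ℝ) : ℝ)) : UnitAddCircle) i x).Nonempty := by
    rw [ae_all_iff]
    intro k
    set t : ℕ := p * q * (k + 1) + 1 with ht
    have htpos : 0 < t := by omega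
    have hcp : Nat.Coprime p t := by
      rw [ht, mul_assoc]
      exact (Nat.coprime_mul_left_add_right p 1 (q * (k + 1))).2 (Nat.coprime_one_right p)
    have hcq : Nat.Coprime q t := by
      rw [ht, mul_comm p q, mul_assoc]
      exact (Nat.coprime_mul_left_add_right q 1 (p * (k + 1))).2 (Nat.coprime_one_right q)
    have hu : Nat.totient t ≠ 0 := (Nat.totient_pos.2 htpos).ne'
    refine torsion_free_case hp hq h hμ hu ?_ ?_
    · exact tau_fixed htpos (Nat.ModEq.pow_totient hcp) (Nat.one_le_pow _ _ (by omega))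
    · exact tau_fixed htpos (Nat.ModEq.pow_totient hcq) (Nat.one_le_pow _ _ (by omega))
  filter_upwards [h1, h2] with x hx1 hx2
  have key : O q x = univ := by
    by_cases ht : ∀ y ∈ O q x, ∀ n : ℕ, 0 < n → n • y ≠ 0
    · -- torsion free: dense
      have hd : Dense (O q x) := by
        intro z
        rw [Metric.mem_closure_iff]
        intro ε hε
        obtain ⟨k, hk⟩ := exists_nat_one_div_lt hε
        set t : ℕ := p * q * (k + 1) + 1 with htdef
        have htpos : 0 < t := by omega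
        obtain ⟨y, hy⟩ := hx2 k ht (t - 1)
        obtain ⟨l, hl, hdist⟩ := dense_progression htpos y z
        refine ⟨_, hy l hl, hdist.trans_lt (lt_of_le_of_lt ?_ hk)⟩
        have hpq : 1 ≤ p * q := Nat.one_le_iff_ne_zero.2 (by positivity)
        refine one_div_le_one_div_of_le (by positivity) ?_
        have : k + 1 ≤ t := by nlinarith
        exact_mod_cast this
      exact (isClosed_O q x).closure_eq ▸ hd.closure_eq
    · push Not at ht
      obtain ⟨y, hy, n, hn, hny⟩ := ht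
      exact hx1 y ⟨n, hn, hny⟩ hy
  rw [dense_iff_closure_eq]
  exact key

end Pool.Agent.H.MP_96e181_an
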