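import Mathlib

set_option autoImplicit false

namespace Pool.Agent.H.MP_96e181_an

open Finset

/-- `ee x = exp(2 π i x)`. -/
noncomputable def ee (x : ℝ) : ℂ := Complex.exp ((2 * Real.pi * x : ℝ) * Complex.I)

theorem norm_ee (x : ℝ) : ‖ee x‖ = 1 := Complex.norm_exp_ofReal_mul_I _

theorem ee_add (x y : ℝ) : ee (x + y) = ee x * ee y := by
  rw [ee, ee, ee, ← Complex.exp_add]
  congr 1
  push_cast
  ring

theorem ee_neg (x : ℝ) : ee (-x) = (ee x)⁻¹ := by
  rw [ee, ee, ← Complex.exp_neg]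
  congr 1
  push_cast
  ring

theorem ee_zero : ee 0 = 1 := by simp [ee]

theorem conj_ee (x : ℝ) : (starRingEnd ℂ) (ee x) = ee (-x) := by
  rw [ee, ee, ← Complex.exp_conj, map_mul, Complex.conj_I, Complex.conj_ofReal]
  congr 1
  push_cast
  ring

theorem ee_int (n : ℤ) : ee n = 1 := by
  rw [ee, Complex.exp_eq_one_iff]
  refine ⟨n, ?_⟩
  push_cast
  ring

theorem ee_eq_one_iff (x : ℝ) : ee x = 1 ↔ ∃ n : ℤ, x = n := by
  constructor
  · intro h
    rw [ee, Complex.exp_eq_one_iff] at h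
    obtain ⟨n, hn⟩ := h
    refine ⟨n, ?_⟩
    have h1 : ((2 * Real.pi * x : ℝ) : ℂ) * Complex.I = ((2 * Real.pi * n : ℝ) : ℂ) * Complex.I := by
      rw [hn]; push_cast; ring
    have h2 := mul_right_cancel₀ Complex.I_ne_zero h1
    have h3 : 2 * Real.pi * x = 2 * Real.pi * n := by exact_mod_cast h2
    exact mul_left_cancel₀ (by positivity) h3
  · rintro ⟨n, rfl⟩
    exact ee_int n

theorem norm_ee_sub_ee (x y : ℝ) : ‖ee x - ee y‖ ≤ 2 * Real.pi * |x - y| := by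
  have h : ee x - ee y = ee y * (ee (x - y) - 1) := by
    rw [mul_sub, ← ee_add]; ring_nf
  rw [h, norm_mul, norm_ee, one_mul]
  have h2 := Real.norm_exp_I_mul_ofReal_sub_one_le (x := 2 * Real.pi * (x - y))
  rw [ee, mul_comm _ Complex.I]
  refine h2.trans ?_
  rw [Real.norm_eq_abs, abs_mul, abs_of_pos (by positivity : (0:ℝ) < 2 * Real.pi)]

theorem ee_nat_mul (b : ℕ) (x : ℝ) : ee (b * x) = ee x ^ b := by
  rw [ee, ee, ← Complex.exp_nat_mul]
  congr 1
  push_cast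
  ring

/-- Character sum over a full period. -/
theorem sum_ee_range (L : ℕ) (hL : 0 < L) (v : ℤ) :
    ∑ b ∈ range L, ee ((v : ℝ) * b / L) = if (L : ℤ) ∣ v then (L : ℂ) else 0 := by
  have hL' : (L : ℝ) ≠ 0 := by positivity
  have hterm : ∀ b : ℕ, ee ((v : ℝ) * b / L) = ee ((v : ℝ) / L) ^ b := by
    intro b
    rw [← ee_nat_mul]
    congr 1
    ring
  simp only [hterm]
  split_ifs with h
  · obtain ⟨w, rfl⟩ := h
    have : ee (((L * w : ℤ) : ℝ) / L) = 1 := by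
      rw [ee_eq_one_iff]
      refine ⟨w, ?_⟩
      push_cast
      field_simp
    rw [this]; simp
  · have hne : ee ((v : ℝ) / L) ≠ 1 := by
      intro h1
      rw [ee_eq_one_iff] at h1
      obtain ⟨n, hn⟩ := h1
      apply h
      refine ⟨n, ?_⟩
      rw [div_eq_iff hL'] at hn
      have : (v : ℝ) = ((L * n : ℤ) : ℝ) := by push_cast; linarith
      exact_mod_cast this
    rw [geom_sum_eq hne]
    have : ee ((v : ℝ) / L) ^ L = 1 := by
      rw [← ee_nat_mul, ee_eq_one_iff]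
      exact ⟨v, by field_simp⟩
    rw [this]; simp

/-- Orthogonality estimate. -/
theorem orth (L : ℕ) (hL : 0 < L) (K : ℕ) (u : ℕ → ℤ) (φ : ℕ → ℂ) (hφ : ∀ i, ‖φ i‖ ≤ 1) :
    ∑ b ∈ range L, ‖∑ i ∈ range K, φ i * ee ((u i : ℝ) * b / L)‖ ^ 2 ≤
      L * (((range K) ×ˢ (range K)).filter (fun t => (L : ℤ) ∣ u t.1 - u t.2)).card := by
  have key : (∑ b ∈ range L, (‖∑ i ∈ range K, φ i * ee ((u i : ℝ) * b / L)‖ ^ 2 : ℝ) : ℝ) =
      (∑ t ∈ (range K) ×ˢ (range K), φ t.1 * (starRingEnd ℂ) (φ t.2) *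
        (if (L : ℤ) ∣ u t.1 - u t.2 then (L : ℂ) else 0)).re := by
    have h1 : ∀ b ∈ range L, (‖∑ i ∈ range K, φ i * ee ((u i : ℝ) * b / L)‖ ^ 2 : ℝ) =
        (∑ t ∈ (range K) ×ˢ (range K), φ t.1 * (starRingEnd ℂ) (φ t.2) *
          ee (((u t.1 - u t.2 : ℤ) : ℝ) * b / L)).re := by
      intro b _
      rw [← Complex.normSq_eq_norm_sq, ← Complex.ofReal_re (Complex.normSq _),
        ← Complex.mul_conj, map_sum, Finset.sum_mul_sum, ← Finset.sum_product']
      congr 1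
      refine Finset.sum_congr rfl (fun t _ => ?_)
      rw [map_mul, conj_ee]
      have : ee (((u t.1 - u t.2 : ℤ) : ℝ) * b / L) =
          ee ((u t.1 : ℝ) * b / L) * ee (-((u t.2 : ℝ) * b / L)) := by
        rw [← ee_add]; congr 1; push_cast; ring
      rw [this]; ring
    rw [Finset.sum_congr rfl h1, ← Complex.re_sum, Finset.sum_comm]
    congr 1
    refine Finset.sum_congr rfl (fun t _ => ?_)
    rw [← Finset.mul_sum, sum_ee_range L hL]
  rw [key]
  refine (Complex.re_le_norm _).trans ((norm_sum_le _ _).trans ?_)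
  have h2 : ∀ t ∈ (range K) ×ˢ (range K), ‖φ t.1 * (starRingEnd ℂ) (φ t.2) *
        (if (L : ℤ) ∣ u t.1 - u t.2 then (L : ℂ) else 0)‖ ≤
        (if (L : ℤ) ∣ u t.1 - u t.2 then (L : ℝ) else 0) := by
    intro t _
    rw [norm_mul, norm_mul, RCLike.norm_conj]
    have h3 : ‖φ t.1‖ * ‖φ t.2‖ ≤ 1 := mul_le_one₀ (hφ _) (norm_nonneg _) (hφ _)
    split_ifs
    · rw [Complex.norm_natCast]
      nlinarith [(Nat.cast_nonneg L : (0:ℝ) ≤ L)]
    · simp
  refine (Finset.sum_le_sum h2).trans ?_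
  rw [← Finset.sum_filter, Finset.sum_const, nsmul_eq_mul]
  linarith

end Pool.Agent.H.MP_96e181_an
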