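import Mathlib
import Pool.Agent.H.MP_96e181_an.Orth

set_option autoImplicit false

namespace Pool.Agent.H.MP_96e181_an

open MeasureTheory Filter Topology Set
open scoped ENNReal NNReal

/-- The representative of a point of `ℝ/ℤ` in `[0, 1)`. -/
noncomputable def rep (x : UnitAddCircle) : ℝ := (AddCircle.equivIco (1:ℝ) 0 x : ℝ)

/-- `⌊D x⌋` for `x ∈ [0,1)`. -/
noncomputable def dig (D : ℕ) (x : UnitAddCircle) : ℕ := ⌊(D : ℝ) * rep x⌋₊

/-- The interval of rank `k` in base `p` containing `x`. -/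
def cyl (p k : ℕ) (x : UnitAddCircle) : Set UnitAddCircle := {y | dig (p ^ k) y = dig (p ^ k) x}

theorem rep_nonneg (x : UnitAddCircle) : 0 ≤ rep x := (AddCircle.equivIco (1:ℝ) 0 x).2.1

theorem rep_lt_one (x : UnitAddCircle) : rep x < 1 := by
  have := (AddCircle.equivIco (1:ℝ) 0 x).2.2
  simpa [rep] using this

theorem coe_rep (x : UnitAddCircle) : ((rep x : ℝ) : UnitAddCircle) = x :=
  AddCircle.coe_equivIco

theorem measurable_rep : Measurable rep :=
  measurable_subtype_coe.comp (AddCircle.measurableEquivIco (1:ℝ) 0).measurable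

theorem measurable_dig (D : ℕ) : Measurable (dig D) :=
  Nat.measurable_floor.comp (measurable_rep.const_mul _)

theorem dig_lt {D : ℕ} (hD : 0 < D) (x : UnitAddCircle) : dig D x < D := by
  rw [dig, Nat.floor_lt (mul_nonneg (Nat.cast_nonneg _) (rep_nonneg x))]
  have : (0:ℝ) < D := by exact_mod_cast hD
  nlinarith [rep_lt_one x]

theorem dig_mul_div (D m : ℕ) (hm : 0 < m) (x : UnitAddCircle) : dig (D * m) x / m = dig D x := by
  have hm' : (m : ℝ) ≠ 0 := by positivity
  rw [dig, dig, ← Nat.floor_div_natCast]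
  congr 1
  push_cast
  field_simp

theorem dig_spec {D : ℕ} (hD : 0 < D) (x : UnitAddCircle) :
    (dig D x : ℝ) / D ≤ rep x ∧ rep x < (dig D x : ℝ) / D + 1 / D := by
  have hD' : (0:ℝ) < D := by exact_mod_cast hD
  constructor
  · rw [div_le_iff₀ hD', mul_comm]
    exact Nat.floor_le (mul_nonneg hD'.le (rep_nonneg x))
  · rw [← add_div, lt_div_iff₀ hD', mul_comm]
    exact Nat.lt_floor_add_one _

theorem measurableSet_cyl (p k : ℕ) (x : UnitAddCircle) : MeasurableSet (cyl p k x) :=
  (measurable_dig _) (measurableSet_singleton _)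

theorem fourier_nsmul (a : ℤ) (s : ℕ) (x : UnitAddCircle) :
    (fourier a (s • x) : ℂ) = ee (a * (s * rep x)) := by
  conv_lhs => rw [← coe_rep x]
  have h : (s • ((rep x : ℝ) : UnitAddCircle)) = (((s : ℝ) * rep x : ℝ) : UnitAddCircle) := by
    rw [← nsmul_eq_mul]; rfl
  rw [h]
  erw [fourier_coe_apply]
  rw [ee]
  congr 1
  push_cast
  ring

end Pool.Agent.H.MP_96e181_an
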