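import Mathlib
import Pool.Agent.H.MP_96e181_an.FourierLower
import Pool.Agent.H.MP_96e181_an.Average

set_option autoImplicit false

namespace Pool.Agent.H.MP_96e181_an

open MeasureTheory Filter Topology Set
open scoped ENNReal NNReal

instance instProbVol : IsProbabilityMeasure (volume : Measure UnitAddCircle) := ⟨volume_univ_eq⟩

theorem ergodic_volume {p : ℕ} (hp : 2 ≤ p) :
    Ergodic (fun x : UnitAddCircle => p • x) (volume : Measure UnitAddCircle) :=
  AddCircle.ergodic_nsmul (T := (1:ℝ)) (by omega)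

/-- The upper limit of the preimages of `A` under the semigroup. -/
def limSet (p q : ℕ) (A : Set UnitAddCircle) : Set UnitAddCircle :=
  {x | ∀ m : ℕ, ∃ i, m ≤ i ∧ ∃ j, m ≤ j ∧ (p ^ i * q ^ j) • x ∈ A}

theorem limSet_p (p q : ℕ) (A : Set UnitAddCircle) :
    (fun x : UnitAddCircle => p • x) ⁻¹' (limSet p q A) = limSet p q A := by
  have key : ∀ (i j : ℕ) (x : UnitAddCircle),
      (p ^ i * q ^ j) • (p • x) = (p ^ (i + 1) * q ^ j) • x := by
    intro i j x
    rw [← mul_smul]; congr 1; ring
  ext x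
  simp only [limSet, Set.mem_preimage, Set.mem_ofPred_eq]
  constructor
  · intro h m
    obtain ⟨i, hi, j, hj, hij⟩ := h m
    rw [key] at hij
    exact ⟨i + 1, by omega, j, hj, hij⟩
  · intro h m
    obtain ⟨i, hi, j, hj, hij⟩ := h (m + 1)
    refine ⟨i - 1, by omega, j, by omega, ?_⟩
    rw [key]
    have : i - 1 + 1 = i := by omega
    rwa [this]

theorem limSet_q (p q : ℕ) (A : Set UnitAddCircle) :
    (fun x : UnitAddCircle => q • x) ⁻¹' (limSet p q A) = limSet p q A := by
  have key : ∀ (i j : ℕ) (x : UnitAddCircle),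
      (p ^ i * q ^ j) • (q • x) = (p ^ i * q ^ (j + 1)) • x := by
    intro i j x
    rw [← mul_smul]; congr 1; ring
  ext x
  simp only [limSet, Set.mem_preimage, Set.mem_ofPred_eq]
  constructor
  · intro h m
    obtain ⟨i, hi, j, hj, hij⟩ := h m
    rw [key] at hij
    exact ⟨i, by omega, j + 1, by omega, hij⟩
  · intro h m
    obtain ⟨i, hi, j, hj, hij⟩ := h (m + 1)
    refine ⟨i, by omega, j - 1, by omega, ?_⟩
    rw [key]
    have : j - 1 + 1 = j := by omega
    rwa [this]

/-- The tail unions. -/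
def tailSet (p q : ℕ) (A : Set UnitAddCircle) (m : ℕ) : Set UnitAddCircle :=
  ⋃ i : ℕ, ⋃ j : ℕ, ⋃ (_ : m ≤ i ∧ m ≤ j), (fun x : UnitAddCircle => (p ^ i * q ^ j) • x) ⁻¹' A

theorem limSet_eq (p q : ℕ) (A : Set UnitAddCircle) : limSet p q A = ⋂ m, tailSet p q A m := by
  ext x
  simp only [limSet, tailSet, Set.mem_ofPred_eq, Set.mem_iInter, Set.mem_iUnion, Set.mem_preimage,
    exists_prop]
  constructor
  · intro h m
    obtain ⟨i, hi, j, hj, hij⟩ := h m
    exact ⟨i, j, ⟨hi, hj⟩, hij⟩
  · intro h m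
    obtain ⟨i, j, ⟨hi, hj⟩, hij⟩ := h m
    exact ⟨i, hi, j, hj, hij⟩

theorem measurableSet_tailSet (p q : ℕ) {A : Set UnitAddCircle} (hA : MeasurableSet A) (m : ℕ) :
    MeasurableSet (tailSet p q A m) := by
  refine MeasurableSet.iUnion (fun i => MeasurableSet.iUnion (fun j => MeasurableSet.iUnion
    (fun _ => ?_)))
  exact (continuous_nsmul_circle _).measurable hA

theorem measurableSet_limSet (p q : ℕ) {A : Set UnitAddCircle} (hA : MeasurableSet A) :
    MeasurableSet (limSet p q A) := by
  rw [limSet_eq]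
  exact MeasurableSet.iInter (fun m => measurableSet_tailSet p q hA m)

theorem mp_sg {μ : Measure UnitAddCircle} {p q : ℕ}
    (hp : MeasurePreserving (fun x : UnitAddCircle => p • x) μ μ)
    (hq : MeasurePreserving (fun x : UnitAddCircle => q • x) μ μ) (i j : ℕ) :
    MeasurePreserving (fun x : UnitAddCircle => (p ^ i * q ^ j) • x) μ μ :=
  mp_mul (mp_pow hp i) (mp_pow hq j)

theorem measure_limSet_ge {μ : Measure UnitAddCircle} [IsFiniteMeasure μ] {p q : ℕ}
    (hp : MeasurePreserving (fun x : UnitAddCircle => p • x) μ μ)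
    (hq : MeasurePreserving (fun x : UnitAddCircle => q • x) μ μ)
    {A : Set UnitAddCircle} (hA : MeasurableSet A) :
    μ A ≤ μ (limSet p q A) := by
  rw [limSet_eq]
  have hanti : Antitone (tailSet p q A) := by
    intro m n hmn x hx
    simp only [tailSet, Set.mem_iUnion, Set.mem_preimage, exists_prop] at hx ⊢
    obtain ⟨i, j, ⟨hi, hj⟩, hij⟩ := hx
    exact ⟨i, j, ⟨by omega, by omega⟩, hij⟩
  have ht := tendsto_measure_iInter_atTop (μ := μ)
    (fun m => (measurableSet_tailSet p q hA m).nullMeasurableSet) hanti ⟨0, measure_ne_top _ _⟩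
  refine ge_of_tendsto' ht (fun m => ?_)
  have hmp := mp_sg hp hq m m
  rw [← hmp.measure_preimage hA.nullMeasurableSet]
  apply measure_mono
  intro x hx
  simp only [tailSet, Set.mem_iUnion, exists_prop]
  exact ⟨m, m, ⟨le_rfl, le_rfl⟩, hx⟩

theorem measure_limSet_zero {μ : Measure UnitAddCircle} {p q : ℕ}
    (hp : MeasurePreserving (fun x : UnitAddCircle => p • x) μ μ)
    (hq : MeasurePreserving (fun x : UnitAddCircle => q • x) μ μ)
    {A : Set UnitAddCircle} (hA : MeasurableSet A) (h0 : μ A = 0) :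
    μ (limSet p q A) = 0 := by
  rw [limSet_eq]
  refine measure_mono_null (Set.iInter_subset _ 0) ?_
  rw [tailSet]
  simp only [measure_iUnion_null_iff]
  intro i j _
  have hmp := mp_sg hp hq i j
  rw [hmp.measure_preimage hA.nullMeasurableSet, h0]

/-- A jointly ergodic measure dominating a positive multiple of Lebesgue is Lebesgue. -/
theorem eq_volume_of_ergodic {μ : Measure UnitAddCircle} [IsProbabilityMeasure μ] {p q : ℕ}
    (hp2 : 2 ≤ p) (hq2 : 2 ≤ q)
    (hp : MeasurePreserving (fun x : UnitAddCircle => p • x) μ μ)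
    (hq : MeasurePreserving (fun x : UnitAddCircle => q • x) μ μ)
    (herg : ∀ A : Set UnitAddCircle, MeasurableSet A →
      (fun x : UnitAddCircle => p • x) ⁻¹' A = A → (fun x : UnitAddCircle => q • x) ⁻¹' A = A →
      μ A = 0 ∨ μ Aᶜ = 0) {c : ℝ≥0∞} (hc : 0 < c)
    (hle : c • (volume : Measure UnitAddCircle) ≤ μ) : μ = volume := by
  have hms : μ.singularPart volume ⟂ₘ volume := Measure.mutuallySingular_singularPart μ volume
  obtain ⟨S, hS, hS1, hS2⟩ := hms
  -- `S` has zero singular mass, `Sᶜ` has zero volume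
  have hvol : (volume : Measure UnitAddCircle) (limSet p q Sᶜ) = 0 :=
    measure_limSet_zero (ergodic_volume hp2).toMeasurePreserving
      (ergodic_volume hq2).toMeasurePreserving hS.compl hS2
  have hμS : μ Sᶜ = 0 := by
    by_contra hne
    have h1 := measure_limSet_ge hp hq hS.compl
    have hmeas := measurableSet_limSet p q hS.compl
    rcases herg _ hmeas (limSet_p p q _) (limSet_q p q _) with h2 | h2
    · rw [h2] at h1
      exact hne (le_antisymm h1 zero_le)
    · have h3 := hle (limSet p q Sᶜ)ᶜ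
      rw [h2, Measure.smul_apply, smul_eq_mul, prob_compl_eq_one_sub hmeas, hvol] at h3
      simp at h3
      exact hc.ne' h3
  have hsing : μ.singularPart volume = 0 := by
    rw [← Measure.measure_univ_eq_zero]
    have h1 : μ.singularPart volume Sᶜ = 0 :=
      le_antisymm ((Measure.singularPart_le μ volume Sᶜ).trans hμS.le) zero_le
    have h2 : (univ : Set UnitAddCircle) = S ∪ Sᶜ := (Set.union_compl_self S).symm
    rw [h2]
    exact measure_union_null hS1 h1
  have hac : μ ≪ volume := (Measure.singularPart_eq_zero μ volume).1 hsing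
  exact (ergodic_volume hp2).eq_of_absolutelyContinuous hp hac

end Pool.Agent.H.MP_96e181_an
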