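import Mathlib
import Pool.Agent.H.MP_96e181_an.Count

set_option autoImplicit false

namespace Pool.Agent.H.MP_96e181_an

theorem lte_bound {ℓ q k m : ℕ} (hℓ : ℓ.Prime) (hq : 2 ≤ q) (hℓq : ¬ ℓ ∣ q) (hk : 0 < k)
    (hkeven : Even k) (hdvd : ℓ ∣ q ^ k - 1) (hm : 0 < m) :
    padicValNat ℓ (q ^ m - 1) ≤ padicValNat ℓ (q ^ k - 1) + padicValNat ℓ m := by
  have : Fact ℓ.Prime := ⟨hℓ⟩
  have hq0 : 0 < q := by omega
  have hpow : ∀ r, 0 < r → 1 < q ^ r := fun r hr => Nat.one_lt_pow (by omega) (by omega)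
  have h1 : q ^ m - 1 ∣ q ^ (k * m) - 1 := by
    have := Nat.sub_dvd_pow_sub_pow (q ^ m) 1 k
    rw [one_pow, ← pow_mul, mul_comm m k] at this
    exact this
  have hkm : 0 < k * m := Nat.mul_pos hk hm
  have hne : q ^ (k * m) - 1 ≠ 0 := by have := hpow _ hkm; omega
  have h2 : padicValNat ℓ (q ^ m - 1) ≤ padicValNat ℓ (q ^ (k * m) - 1) := by
    exact padicValNat_dvd_iff_le hne |>.1 (dvd_trans pow_padicValNat_dvd h1)
  refine h2.trans (le_of_eq ?_)
  rcases hℓ.eq_two_or_odd' with rfl | hodd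
  · have hq1 : 2 ∣ q - 1 := by
      have : q % 2 = 1 := by omega
      omega
    have e1 := padicValNat.pow_two_sub_pow (x := q) (y := 1) (by omega) (by simpa using hq1) hℓq
      (n := k * m) (by omega) (hkeven.mul_right m)
    have e2 := padicValNat.pow_two_sub_pow (x := q) (y := 1) (by omega) (by simpa using hq1) hℓq
      (n := k) (by omega) hkeven
    rw [one_pow] at e1 e2
    rw [padicValNat.mul (by omega) (by omega)] at e1
    omega
  · have h3 : ¬ ℓ ∣ q ^ k := fun h => hℓq (hℓ.dvd_of_dvd_pow h)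
    have e1 := padicValNat.pow_sub_pow (p := ℓ) (x := q ^ k) (y := 1) hodd (hpow k hk) hdvd h3
      (n := m) (by omega)
    rw [one_pow, ← pow_mul] at e1
    exact e1

theorem order_bound {p q : ℕ} (hp : 2 ≤ p) (hq : 2 ≤ q) (hcop : Nat.Coprime p q) :
    ∃ C : ℕ, 0 < C ∧ ∀ n m a : ℕ, 0 < m → 0 < a → p ^ n ∣ a * (q ^ m - 1) → p ^ n ∣ C * a * m := by
  have hφ : 0 < Nat.totient p := Nat.totient_pos.2 (by omega)
  set k : ℕ := 2 * Nat.totient p with hk
  have hkpos : 0 < k := by omega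
  have hpow : ∀ r, 0 < r → 1 < q ^ r := fun r hr => Nat.one_lt_pow (by omega) (by omega)
  refine ⟨q ^ k - 1, by have := hpow k hkpos; omega, fun n m a hm ha hdvd => ?_⟩
  have hC : q ^ k - 1 ≠ 0 := by have := hpow k hkpos; omega
  have hQ : q ^ m - 1 ≠ 0 := by have := hpow m hm; omega
  have hpn : p ^ n ≠ 0 := by positivity
  rw [← Nat.factorization_prime_le_iff_dvd hpn (by positivity)]
  intro ℓ hℓ
  by_cases hℓp : ℓ ∣ p
  · have hℓq : ¬ ℓ ∣ q := by
      intro h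
      have := Nat.dvd_gcd hℓp h
      rw [hcop] at this
      exact hℓ.one_lt.ne' (Nat.dvd_one.1 this)
    have h1 : (p ^ n).factorization ℓ ≤ (a * (q ^ m - 1)).factorization ℓ :=
      (Nat.factorization_prime_le_iff_dvd hpn (by positivity)).2 hdvd ℓ hℓ
    refine h1.trans ?_
    have hdk : ℓ ∣ q ^ k - 1 := by
      have h3 : q ^ Nat.totient p ≡ 1 [MOD p] := Nat.ModEq.pow_totient hcop.symm
      have h4 : q ^ k ≡ 1 [MOD p] := by
        have := h3.pow 2
        rwa [one_pow, ← pow_mul, mul_comm] at this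
      have h5 : p ∣ q ^ k - 1 := (Nat.modEq_iff_dvd' (hpow k hkpos).le).1 h4.symm
      exact hℓp.trans h5
    have h2 := lte_bound hℓ hq hℓq hkpos (even_two_mul _) hdk hm
    rw [Nat.factorization_mul ha.ne' hQ, Nat.factorization_mul (by positivity) hm.ne',
      Nat.factorization_mul hC ha.ne']
    simp only [Finsupp.coe_add, Pi.add_apply, Nat.factorization_def _ hℓ]
    omega
  · have : (p ^ n).factorization ℓ = 0 := by
      rw [Nat.factorization_pow]
      simp [Nat.factorization_eq_zero_of_not_dvd hℓp]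
    rw [this]; exact Nat.zero_le _

/-- Number of collisions among `a * q ^ i` modulo `p ^ n`. -/
theorem count_pow {p q : ℕ} (hp : 2 ≤ p) (hq : 2 ≤ q) (hcop : Nat.Coprime p q) :
    ∃ C : ℕ, 0 < C ∧ ∀ (n : ℕ) (a : ℤ), a ≠ 0 →
      (((Finset.range (p ^ n)) ×ˢ (Finset.range (p ^ n))).filter
        (fun t => ((p ^ n : ℕ) : ℤ) ∣ a * (q : ℤ) ^ t.1 - a * (q : ℤ) ^ t.2)).card ≤
        p ^ n * (2 * (C * a.natAbs)) := by
  obtain ⟨C, hC, H⟩ := order_bound hp hq hcop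
  refine ⟨C, hC, fun n a ha => ?_⟩
  have hpn : 0 < p ^ n := by positivity
  have hCa : (C : ℤ) * a ≠ 0 := mul_ne_zero (by exact_mod_cast hC.ne') ha
  have hcount := count_mul (p ^ n) hpn ((C : ℤ) * a) hCa
  rw [Int.natAbs_mul, Int.natAbs_natCast] at hcount
  refine le_trans (Finset.card_le_card ?_) hcount
  -- key divisibility
  have key : ∀ i j : ℕ, j < i → ((p ^ n : ℕ) : ℤ) ∣ a * (q : ℤ) ^ i - a * (q : ℤ) ^ j →
      ((p ^ n : ℕ) : ℤ) ∣ (C : ℤ) * a * (i : ℤ) - (C : ℤ) * a * (j : ℤ) := by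
    intro i j hij hd
    obtain ⟨m, rfl⟩ : ∃ m, i = j + m := ⟨i - j, by omega⟩
    have hm : 0 < m := by omega
    have e1 : a * (q : ℤ) ^ (j + m) - a * (q : ℤ) ^ j = (q : ℤ) ^ j * (a * ((q : ℤ) ^ m - 1)) := by
      rw [pow_add]; ring
    rw [e1] at hd
    have hcop2 : IsCoprime ((p ^ n : ℕ) : ℤ) ((q : ℤ) ^ j) := by
      have : Nat.Coprime (p ^ n) (q ^ j) := Nat.Coprime.pow _ _ hcop
      exact_mod_cast Nat.isCoprime_iff_coprime.2 this
    have hd2 := hcop2.dvd_of_dvd_mul_left hd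
    have hd3 : p ^ n ∣ a.natAbs * (q ^ m - 1) := by
      have h1 := Int.natAbs_dvd_natAbs.2 hd2
      rw [Int.natAbs_natCast, Int.natAbs_mul] at h1
      have h2 : ((q : ℤ) ^ m - 1).natAbs = q ^ m - 1 := by
        have h3 : (1 : ℕ) ≤ q ^ m := Nat.one_le_pow _ _ (by omega)
        have h4 : ((q : ℤ) ^ m - 1) = ((q ^ m - 1 : ℕ) : ℤ) := by
          rw [Nat.cast_sub h3]; push_cast; ring
        rw [h4, Int.natAbs_natCast]
      rwa [h2] at h1
    have hd4 := H n m a.natAbs hm (Int.natAbs_pos.2 ha) hd3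
    have e2 : (C : ℤ) * a * ((j + m : ℕ) : ℤ) - (C : ℤ) * a * (j : ℤ) = (C : ℤ) * a * m := by
      push_cast; ring
    rw [e2, ← Int.natAbs_dvd_natAbs, Int.natAbs_natCast, Int.natAbs_mul, Int.natAbs_mul,
      Int.natAbs_natCast, Int.natAbs_natCast]
    exact hd4
  intro t ht
  rw [Finset.mem_filter] at ht ⊢
  refine ⟨ht.1, ?_⟩
  rcases lt_trichotomy t.1 t.2 with h | h | h
  · have h1 : ((p ^ n : ℕ) : ℤ) ∣ a * (q : ℤ) ^ t.2 - a * (q : ℤ) ^ t.1 := by
      rw [← dvd_neg]; convert! ht.2 using 1; ring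
    have h2 := key _ _ h h1
    rw [← dvd_neg]
    convert! h2 using 1; ring
  · rw [h]; simp
  · exact key _ _ h ht.2

end Pool.Agent.H.MP_96e181_an
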