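import Mathlib
import Pool.Agent.H.MP_96e181_an.Digits
import Pool.Agent.H.MP_96e181_an.Core
import Pool.Agent.H.MP_96e181_an.Order

set_option autoImplicit false

namespace Pool.Agent.H.MP_96e181_an

open MeasureTheory Filter Topology Set Finset
open scoped ENNReal NNReal

theorem rep_coe (u : ℝ) : rep (u : UnitAddCircle) = Int.fract u := by
  have h := AddCircle.coe_equivIco_mk_apply (p := (1:ℝ)) u
  rw [rep]
  refine h.trans ?_
  simp

theorem rep_nsmul (D : ℕ) (x : UnitAddCircle) :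
    rep (D • x) = D * rep x - dig D x := by
  have h : D • x = (((D : ℝ) * rep x : ℝ) : UnitAddCircle) := by
    conv_lhs => rw [← coe_rep x]
    rw [← nsmul_eq_mul]; rfl
  rw [h, rep_coe, dig]
  have h0 : 0 ≤ (D : ℝ) * rep x := mul_nonneg (Nat.cast_nonneg _) (rep_nonneg x)
  have e : ((⌊(D : ℝ) * rep x⌋₊ : ℕ) : ℝ) = ((⌊(D : ℝ) * rep x⌋ : ℤ) : ℝ) := by
    exact_mod_cast natCast_floor_eq_intCast_floor h0
  rw [e, Int.fract]

/-- The fundamental estimate (`p`-adic window). -/
theorem pwindow_est {p q C : ℕ} (hp : 2 ≤ p) (hq : 2 ≤ q)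
    (hC : ∀ (n : ℕ) (a : ℤ), a ≠ 0 →
      (((Finset.range (p ^ n)) ×ˢ (Finset.range (p ^ n))).filter
        (fun t => ((p ^ n : ℕ) : ℤ) ∣ a * (q : ℤ) ^ t.1 - a * (q : ℤ) ^ t.2)).card ≤
        p ^ n * (2 * (C * a.natAbs)))
    {n R L : ℕ} (hR : 0 < R) (hL : 0 < L) (hqR : (q : ℝ) ^ (p ^ n) ≤ R * (p ^ n : ℕ))
    (μ : Measure UnitAddCircle) [IsProbabilityMeasure μ] {E : Set UnitAddCircle}
    (hE : MeasurableSet E) {η : ℝ} (hη : 0 ≤ η)
    {W : ℕ → ℝ} (hW0 : ∀ i, 0 ≤ W i) {C₁ : ℝ}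
    (hW : ∑ i ∈ Finset.range R, W i ≤ C₁)
    (hEη : ∀ x ∈ E, μ.real {y | dig R ((p ^ n) • y) = dig R ((p ^ n) • x) ∧
      dig (p ^ n) y = dig (p ^ n) x} ≤ η * W (dig R ((p ^ n) • x)))
    {a : ℤ} (ha : a ≠ 0) :
    ‖∫ x in E, ((p ^ n : ℕ) : ℂ)⁻¹ * ∑ i ∈ Finset.range (p ^ n),
      (fourier a (q ^ i • x) : ℂ) ∂μ‖ ≤
      2 * Real.pi * |(a : ℝ)| * (1 / L) + √(η * (2 * (C * |(a : ℝ)|)) * L * C₁) := by
  have hp0 : 0 < p := by omega
  set K : ℕ := p ^ n with hK
  have hKpos : 0 < K := pow_pos hp0 n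
  have hKR : (0:ℝ) < K := by exact_mod_cast hKpos
  have hLR : (0:ℝ) < L := by exact_mod_cast hL
  have hRR : (0:ℝ) < R := by exact_mod_cast hR
  have hqR1 : (1:ℝ) ≤ q := by exact_mod_cast (by omega : 1 ≤ q)
  set kf : UnitAddCircle → ℕ := fun x => dig R (K • x) with hkf
  set bf : UnitAddCircle → ℕ := fun x => dig K x with hbf
  set rf : UnitAddCircle → ℕ := fun x => dig (R * L) (K • x) % L with hrf
  have hmeasK : Measurable (fun x : UnitAddCircle => K • x) := (continuous_nsmul K).measurable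
  set B : ℕ → ℕ → ℕ → ℂ := fun k b r => (K : ℂ)⁻¹ * ∑ i ∈ Finset.range K,
    ee (a * (q ^ i * (b / K + (k + r / L) / (R * K)))) with hBdef
  have hcontint : Integrable (fun x : UnitAddCircle => (K : ℂ)⁻¹ * ∑ i ∈ Finset.range K,
      (fourier a (q ^ i • x) : ℂ)) μ := by
    apply Continuous.integrable_of_hasCompactSupport
    · refine continuous_const.mul (continuous_finsetSum _ (fun i _ => ?_))
      exact (fourier a).continuous.comp (continuous_nsmul (q ^ i))
    · exact HasCompactSupport.of_compactSpace _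
  refine core μ hE (k := kf) (b := bf) (r := rf) ((measurable_dig R).comp hmeasK)
    (measurable_dig K)
    ((measurable_from_nat (f := fun j => j % L)).comp ((measurable_dig (R * L)).comp hmeasK))
    (K₁ := R) (K₂ := K) (K₃ := L)
    (fun x => dig_lt hR _) (fun x => dig_lt hKpos x) (fun x => Nat.mod_lt _ hL)
    hcontint (B := B) (e := 2 * Real.pi * |(a : ℝ)| * (1 / L)) (by positivity)
    ?_ (C := 2 * (C * |(a : ℝ)|)) (by positivity) ?_ hη hW0 hW hEη
  · -- approximation
    intro x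
    simp only [hBdef]
    rw [← mul_sub, ← Finset.sum_sub_distrib, norm_mul, norm_inv, Complex.norm_natCast]
    have hterm : ∀ i ∈ Finset.range K, ‖(fourier a (q ^ i • x) : ℂ) -
        ee (a * (q ^ i * ((bf x : ℝ) / K + ((kf x : ℝ) + (rf x : ℝ) / L) / (R * K))))‖ ≤
        2 * Real.pi * |(a : ℝ)| * (1 / L) := by
      intro i hi
      have hiK : i < K := Finset.mem_range.1 hi
      rw [fourier_nsmul]
      refine (norm_ee_sub_ee _ _).trans ?_
      rw [← mul_sub, abs_mul, ← mul_assoc]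
      refine mul_le_mul_of_nonneg_left ?_ (by positivity)
      -- digits
      have hd3 := dig_spec (D := R * L) (by positivity) (K • x)
      have e3 : dig (R * L) (K • x) = kf x * L + rf x := by
        have h1 := Nat.div_add_mod (dig (R * L) (K • x)) L
        have h2 := dig_mul_div R L hL (K • x)
        simp only [hkf, hrf]
        rw [h2] at h1
        linarith
      have hrepK := rep_nsmul K x
      set θ : ℝ := rep (K • x) - (dig (R * L) (K • x) : ℝ) / ((R * L : ℕ) : ℝ) with hθ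
      have hθ0 : 0 ≤ θ := by rw [hθ]; linarith [hd3.1]
      have hθ1 : θ * (R * L) ≤ 1 := by
        have := hd3.2
        have h6 : θ ≤ 1 / ((R * L : ℕ) : ℝ) := by rw [hθ]; linarith
        rw [le_div_iff₀ (by positivity)] at h6
        push_cast at h6
        exact h6
      have hrep : rep x = (bf x : ℝ) / K + ((kf x : ℝ) + (rf x : ℝ) / L) / (R * K) + θ / K := by
        have h7 : rep (K • x) = ((kf x : ℝ) + (rf x : ℝ) / L) / R + θ := by
          rw [hθ, e3]
          push_cast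
          field_simp
          ring
        have h8 : rep x = (rep (K • x) + bf x) / K := by
          rw [hrepK]
          simp only [hbf]
          field_simp
          ring
        rw [h8, h7]
        field_simp
        ring
      have hcast : ((q ^ i : ℕ) : ℝ) = (q : ℝ) ^ i := by push_cast; rfl
      rw [hcast]
      have hdiff : (q : ℝ) ^ i * rep x -
          ((q : ℝ) ^ i * ((bf x : ℝ) / K + ((kf x : ℝ) + (rf x : ℝ) / L) / (R * K))) =
          (q : ℝ) ^ i * (θ / K) := by
        rw [hrep]; ring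
      rw [hdiff, abs_of_nonneg (by positivity), le_div_iff₀ hLR]
      have h9 : (q : ℝ) ^ i ≤ R * K := by
        refine le_trans ?_ hqR
        exact pow_le_pow_right₀ hqR1 hiK.le
      calc (q : ℝ) ^ i * (θ / K) * L ≤ (R * K) * (θ / K) * L := by gcongr
        _ = θ * (R * L) := by field_simp
        _ ≤ 1 := hθ1
    calc (K : ℝ)⁻¹ * ‖∑ i ∈ Finset.range K, ((fourier a (q ^ i • x) : ℂ) -
        ee (a * (q ^ i * ((bf x : ℝ) / K + ((kf x : ℝ) + (rf x : ℝ) / L) / (R * K)))))‖
        ≤ (K : ℝ)⁻¹ * ∑ i ∈ Finset.range K, 2 * Real.pi * |(a : ℝ)| * (1 / L) := by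
          refine mul_le_mul_of_nonneg_left ?_ (by positivity)
          exact (norm_sum_le _ _).trans (Finset.sum_le_sum hterm)
      _ = 2 * Real.pi * |(a : ℝ)| * (1 / L) := by
          rw [Finset.sum_const, Finset.card_range, nsmul_eq_mul]
          field_simp
  · -- orthogonality
    intro i j _ _
    have hφ : ∀ c : ℕ, B i c j = (K : ℂ)⁻¹ * ∑ t ∈ Finset.range K,
        ee (a * (q ^ t * (((i : ℝ) + j / L) / (R * K)))) *
          ee (((a * (q : ℤ) ^ t : ℤ) : ℝ) * c / K) := by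
      intro c
      simp only [hBdef]
      congr 1
      refine Finset.sum_congr rfl (fun t _ => ?_)
      rw [← ee_add]
      congr 1
      push_cast
      ring
    have h1 : ∀ c ∈ Finset.range K, ‖B i c j‖ ^ 2 = ((K:ℝ)⁻¹) ^ 2 * ‖∑ t ∈ Finset.range K,
        ee (a * (q ^ t * (((i : ℝ) + j / L) / (R * K)))) *
          ee (((a * (q : ℤ) ^ t : ℤ) : ℝ) * c / K)‖ ^ 2 := by
      intro c _
      rw [hφ, norm_mul, norm_inv, Complex.norm_natCast, mul_pow]
    rw [Finset.sum_congr rfl h1, ← Finset.mul_sum]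
    have h2 := orth K hKpos K (fun t => a * (q : ℤ) ^ t)
      (fun t => ee (a * (q ^ t * (((i : ℝ) + j / L) / (R * K)))))
      (fun t => (norm_ee _).le)
    have h3 := hC n a ha
    have h4 : ((((Finset.range K) ×ˢ (Finset.range K)).filter
      (fun t => (K : ℤ) ∣ a * (q : ℤ) ^ t.1 - a * (q : ℤ) ^ t.2)).card : ℝ) ≤
        K * (2 * (C * |(a:ℝ)|)) := by
      have h5 : |(a:ℝ)| = (a.natAbs : ℝ) := by
        rw [Nat.cast_natAbs, Int.cast_abs]
      rw [h5]
      exact_mod_cast h3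
    calc ((K:ℝ)⁻¹) ^ 2 * _ ≤ ((K:ℝ)⁻¹) ^ 2 * (K * (K * (2 * (C * |(a:ℝ)|)))) := by
          refine mul_le_mul_of_nonneg_left ?_ (by positivity)
          refine h2.trans ?_
          exact mul_le_mul_of_nonneg_left h4 (by positivity)
      _ = 2 * (C * |(a:ℝ)|) := by field_simp

end Pool.Agent.H.MP_96e181_an
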