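import Mathlib

set_option autoImplicit false

namespace Pool.Agent.H.MP_96e181_an

open Real

/-- Real form of non-lacunarity: two positive reals with irrational ratio, the sums `i*a + j*b`
have gaps tending to zero. -/
theorem small_pos_comb {a b : ℝ} (ha : 0 < a) (hb : 0 < b) (h : Irrational (a / b)) {ε : ℝ}
    (hε : 0 < ε) : ∃ m n : ℕ, 0 < (m : ℝ) * a - n * b ∧ (m : ℝ) * a - n * b < ε := by
  have hdense : Dense (AddSubgroup.closure {a, b} : Set ℝ) := dense_addSubgroupClosure_pair_iff.2 h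
  set δ : ℝ := min ε (min a b) with hδ
  have hδpos : 0 < δ := lt_min hε (lt_min ha hb)
  obtain ⟨x, hx, hx0, hxδ⟩ := hdense.exists_between hδpos
  have hx' : x ∈ AddSubgroup.closure ({a, b} : Set ℝ) := hx
  rw [AddSubgroup.mem_closure_pair] at hx'
  obtain ⟨m, n, hmn⟩ := hx'
  simp only [zsmul_eq_mul] at hmn
  have hxa : x < a := lt_of_lt_of_le hxδ (le_trans (min_le_right _ _) (min_le_left _ _))
  have hxb : x < b := lt_of_lt_of_le hxδ (le_trans (min_le_right _ _) (min_le_right _ _))
  have hxε : x < ε := lt_of_lt_of_le hxδ (min_le_left _ _)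
  have hne : ∀ i j : ℤ, (i : ℝ) * a = j * b → i = 0 := by
    intro i j hij
    by_contra hi
    have hi' : (i : ℝ) ≠ 0 := by exact_mod_cast hi
    apply h
    refine ⟨(j : ℚ) / i, ?_⟩
    push_cast
    field_simp
    linarith
  rcases le_or_gt n 0 with hn | hn
  · -- n ≤ 0, hence m > 0
    refine ⟨m.toNat, (-n).toNat, ?_⟩
    have hm : 0 ≤ m := by
      by_contra hm
      push Not at hm
      have h1 : (m : ℝ) ≤ 0 := by exact_mod_cast hm.le
      have h2 : (n : ℝ) ≤ 0 := by exact_mod_cast hn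
      nlinarith [mul_nonneg (neg_nonneg.2 h1) ha.le, mul_nonneg (neg_nonneg.2 h2) hb.le]
    have e1 : ((m.toNat : ℕ) : ℝ) = m := by exact_mod_cast Int.toNat_of_nonneg hm
    have e2 : (((-n).toNat : ℕ) : ℝ) = -n := by
      exact_mod_cast Int.toNat_of_nonneg (by omega : 0 ≤ -n)
    rw [e1, e2]
    constructor <;> nlinarith
  · -- n > 0: then m < 0
    have hm : m < 0 := by
      by_contra hm
      push Not at hm
      have h1 : (0 : ℝ) ≤ m := by exact_mod_cast hm
      have h2 : (1 : ℝ) ≤ n := by exact_mod_cast hn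
      nlinarith [mul_nonneg h1 ha.le]
    -- k = floor (a / x)
    set k : ℕ := ⌊a / x⌋₊ with hk
    have hk1 : (k : ℝ) * x ≤ a := by
      have := Nat.floor_le (div_nonneg ha.le hx0.le)
      rw [← hk, le_div_iff₀ hx0] at this
      exact this
    have hk2 : a < (k + 1) * x := by
      have := Nat.lt_floor_add_one (a / x)
      rw [← hk, div_lt_iff₀ hx0] at this
      exact this
    have hval : a - k * x = ((1 + k * (-m) : ℤ) : ℝ) * a - ((k * n : ℤ) : ℝ) * b := by
      push_cast
      rw [← hmn]; ring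
    have hkm : 0 ≤ (k : ℤ) * (-m) := mul_nonneg (Int.natCast_nonneg k) (by omega)
    have hpos1 : 0 ≤ (1 + k * (-m) : ℤ) := by omega
    have hpos2 : 0 ≤ (k * n : ℤ) := by positivity
    refine ⟨(1 + k * (-m) : ℤ).toNat, (k * n : ℤ).toNat, ?_⟩
    have e1 : (((1 + k * (-m) : ℤ).toNat : ℕ) : ℝ) = ((1 + k * (-m) : ℤ) : ℝ) := by
      exact_mod_cast Int.toNat_of_nonneg hpos1
    have e2 : (((k * n : ℤ).toNat : ℕ) : ℝ) = ((k * n : ℤ) : ℝ) := by
      exact_mod_cast Int.toNat_of_nonneg hpos2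
    rw [e1, e2, ← hval]
    constructor
    · rcases (sub_nonneg.2 hk1).lt_or_eq with h' | h'
      · exact h'
      · exfalso
        have h0 : ((1 + k * (-m) : ℤ) : ℝ) * a = ((k * n : ℤ) : ℝ) * b := by linarith
        have h1 := hne _ _ h0
        omega
    · linarith

theorem nonlac_add {a b : ℝ} (ha : 0 < a) (hb : 0 < b) (h : Irrational (a / b)) {ε : ℝ}
    (hε : 0 < ε) : ∃ Z : ℝ, ∀ z : ℝ, Z ≤ z → ∃ i j : ℕ, z ≤ i * a + j * b ∧
      (i : ℝ) * a + j * b ≤ z + ε := by
  obtain ⟨m, n, h0, h1⟩ := small_pos_comb ha hb h hε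
  have h' : Irrational (b / a) := by
    rw [← inv_div]; exact h.inv
  obtain ⟨m', n', h0', h1'⟩ := small_pos_comb hb ha h' hε
  -- value ≥ n' * a + n * b guarantees `n' ≤ i` or `n ≤ j`
  refine ⟨n' * a + n * b + a, fun z hz => ?_⟩
  -- the finite set of pairs with value < z
  have hz0 : 0 < z := by
    have : (0:ℝ) ≤ n' * a + n * b := by positivity
    linarith
  obtain ⟨I, hI⟩ := exists_nat_gt (z / a)
  obtain ⟨J, hJ⟩ := exists_nat_gt (z / b)
  set S : Finset (ℕ × ℕ) := ((Finset.range I) ×ˢ (Finset.range J)).filter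
    (fun t => (t.1 : ℝ) * a + t.2 * b < z) with hS
  have hmem : ∀ i j : ℕ, (i : ℝ) * a + j * b < z → (i, j) ∈ S := by
    intro i j hij
    rw [hS, Finset.mem_filter, Finset.mem_product, Finset.mem_range, Finset.mem_range]
    refine ⟨⟨?_, ?_⟩, hij⟩
    · have h2 : (i : ℝ) < z / a := by
        rw [lt_div_iff₀ ha]
        have : (0:ℝ) ≤ j * b := by positivity
        linarith
      exact_mod_cast h2.trans hI
    · have h2 : (j : ℝ) < z / b := by
        rw [lt_div_iff₀ hb]
        have : (0:ℝ) ≤ i * a := by positivity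
        linarith
      exact_mod_cast h2.trans hJ
  have hne : S.Nonempty := ⟨(0, 0), hmem 0 0 (by simpa using hz0)⟩
  obtain ⟨⟨i, j⟩, hij, hmax⟩ := S.exists_max_image (fun t => (t.1 : ℝ) * a + t.2 * b) hne
  have hijz : (i : ℝ) * a + j * b < z := by
    have := (Finset.mem_filter.1 hij).2
    simpa using this
  -- the max is at least z - a
  have hbig : z - a ≤ (i : ℝ) * a + j * b := by
    by_contra hlt
    push Not at hlt
    have h2 : ((i + 1 : ℕ) : ℝ) * a + j * b < z := by push_cast; linarith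
    have h3 := hmax _ (hmem _ _ h2)
    simp only at h3
    push_cast at h3
    linarith
  rcases le_or_gt n j with hnj | hnj
  · refine ⟨i + m, j - n, ?_, ?_⟩
    · by_contra hlt
      push Not at hlt
      have h3 := hmax _ (hmem _ _ hlt)
      simp only at h3
      push_cast [Nat.cast_sub hnj] at h3
      linarith
    · push_cast [Nat.cast_sub hnj]
      linarith
  · rcases le_or_gt n' i with hni | hni
    · refine ⟨i - n', j + m', ?_, ?_⟩
      · by_contra hlt
        push Not at hlt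
        have h3 := hmax _ (hmem _ _ hlt)
        simp only at h3
        push_cast [Nat.cast_sub hni] at h3
        linarith
      · push_cast [Nat.cast_sub hni]
        linarith
    · exfalso
      have e1 : (i : ℝ) ≤ n' := by exact_mod_cast hni.le
      have e2 : (j : ℝ) + 1 ≤ n := by exact_mod_cast hnj
      nlinarith [mul_le_mul_of_nonneg_right e1 ha.le, mul_le_mul_of_nonneg_right e2 hb.le]

/-- Non-lacunarity of the semigroup generated by `p` and `q`. -/
theorem nonlac {p q : ℕ} (hp : 2 ≤ p) (hq : 2 ≤ q)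
    (h : Irrational (Real.log (p : ℝ) / Real.log (q : ℝ))) {ε : ℝ} (hε : 0 < ε) :
    ∃ Y : ℝ, 1 ≤ Y ∧ ∀ y : ℝ, Y ≤ y → ∃ i j : ℕ, y ≤ ((p ^ i * q ^ j : ℕ) : ℝ) ∧
      ((p ^ i * q ^ j : ℕ) : ℝ) ≤ (1 + ε) * y := by
  have hp' : (1 : ℝ) < p := by exact_mod_cast hp
  have hq' : (1 : ℝ) < q := by exact_mod_cast hq
  have hlp : 0 < Real.log p := Real.log_pos hp'
  have hlq : 0 < Real.log q := Real.log_pos hq'
  obtain ⟨Z, hZ⟩ := nonlac_add hlp hlq h (Real.log_pos (by linarith : (1:ℝ) < 1 + ε))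
  refine ⟨Real.exp (max Z 0), ?_, fun y hy => ?_⟩
  · exact Real.one_le_exp (le_max_right _ _)
  have hy0 : 0 < y := lt_of_lt_of_le (Real.exp_pos _) hy
  have hlogy : Z ≤ Real.log y := by
    have := (Real.le_log_iff_exp_le hy0).2 hy
    exact le_trans (le_max_left _ _) this
  obtain ⟨i, j, h1, h2⟩ := hZ _ hlogy
  refine ⟨i, j, ?_, ?_⟩
  · have e : ((p ^ i * q ^ j : ℕ) : ℝ) = Real.exp (i * Real.log p + j * Real.log q) := by
      push_cast
      rw [Real.exp_add, mul_comm (i : ℝ), mul_comm (j : ℝ), Real.exp_mul, Real.exp_mul,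
        Real.exp_log (by linarith), Real.exp_log (by linarith)]
      simp
    rw [e]
    calc y = Real.exp (Real.log y) := (Real.exp_log hy0).symm
      _ ≤ _ := Real.exp_le_exp.2 h1
  · have e : ((p ^ i * q ^ j : ℕ) : ℝ) = Real.exp (i * Real.log p + j * Real.log q) := by
      push_cast
      rw [Real.exp_add, mul_comm (i : ℝ), mul_comm (j : ℝ), Real.exp_mul, Real.exp_mul,
        Real.exp_log (by linarith), Real.exp_log (by linarith)]
      simp
    rw [e]
    calc Real.exp (i * Real.log p + j * Real.log q)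
        ≤ Real.exp (Real.log y + Real.log (1 + ε)) := Real.exp_le_exp.2 h2
      _ = (1 + ε) * y := by
        rw [Real.exp_add, Real.exp_log hy0, Real.exp_log (by linarith)]; ring

end Pool.Agent.H.MP_96e181_an
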