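import Mathlib
import Pool.Agent.H.MP_96e181_an.Digits
import Pool.Agent.H.MP_96e181_an.Count
import Pool.Agent.H.MP_96e181_an.Core

set_option autoImplicit false

namespace Pool.Agent.H.MP_96e181_an

open MeasureTheory Filter Topology Set Finset
open scoped ENNReal NNReal

theorem dig_eq_iff {D K : ℕ} (hK : 0 < K) (x y : UnitAddCircle) :
    dig (D * K) y = dig (D * K) x ↔
      (dig D y = dig D x ∧ dig (D * K) y % K = dig (D * K) x % K) := by
  constructor
  · intro h
    refine ⟨?_, by rw [h]⟩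
    rw [← dig_mul_div D K hK, ← dig_mul_div D K hK, h]
  · rintro ⟨h1, h2⟩
    rw [← Nat.div_add_mod (dig (D * K) y) K, ← Nat.div_add_mod (dig (D * K) x) K,
      dig_mul_div D K hK, dig_mul_div D K hK, h1, h2]

/-- The fundamental estimate (archimedean window). -/
theorem window_est {D K L : ℕ} (hD : 0 < D) (hKpos : 0 < K) (hLpos : 0 < L)
    (μ : Measure UnitAddCircle)
    [IsProbabilityMeasure μ] {E : Set UnitAddCircle} (hE : MeasurableSet E) {η : ℝ} (hη : 0 ≤ η)
    {W : ℕ → ℝ} (hW0 : ∀ i, 0 ≤ W i) {C₁ : ℝ}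
    (hW : ∑ i ∈ Finset.range D, W i ≤ C₁)
    (hEη : ∀ x ∈ E, μ.real {y | dig (D * K) y = dig (D * K) x} ≤ η * W (dig D x))
    (s : ℕ → ℕ) (hs : ∀ i < K, |(s i : ℝ) / (D * K) - (1 + i / K)| ≤
      1 / (K : ℝ) ^ 2) {a : ℤ} (ha : a ≠ 0) :
    ‖∫ x in E, (K : ℂ)⁻¹ * ∑ i ∈ Finset.range K, (fourier a (s i • x) : ℂ) ∂μ‖ ≤
      2 * Real.pi * |(a : ℝ)| * (1 / K + 3 / L) +
        √(η * (2 * |(a : ℝ)|) * L * C₁) := by
  have hKR : (0:ℝ) < K := by exact_mod_cast hKpos
  have hLR : (0:ℝ) < L := by exact_mod_cast hLpos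
  have hDR : (0:ℝ) < D := by exact_mod_cast hD
  set kf : UnitAddCircle → ℕ := fun x => dig D x with hkf
  set bf : UnitAddCircle → ℕ := fun x => dig (D * K) x % K with hbf
  set rf : UnitAddCircle → ℕ := fun x => dig (D * K * L) x % L with hrf
  have hcyl : ∀ x, {y | dig (D * K) y = dig (D * K) x} = {y | kf y = kf x ∧ bf y = bf x} := by
    intro x
    ext y
    exact dig_eq_iff hKpos x y
  set B : ℕ → ℕ → ℕ → ℂ := fun k b r => (K : ℂ)⁻¹ * ∑ i ∈ Finset.range K,
    ee (a * (s i * (k / D) + (1 + i / K) * (b + r / L))) with hBdef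
  have hcontint : Integrable (fun x : UnitAddCircle => (K : ℂ)⁻¹ * ∑ i ∈ Finset.range K,
      (fourier a (s i • x) : ℂ)) μ := by
    apply Continuous.integrable_of_hasCompactSupport
    · refine continuous_const.mul (continuous_finsetSum _ (fun i _ => ?_))
      exact (fourier a).continuous.comp (continuous_nsmul (s i))
    · exact HasCompactSupport.of_compactSpace _
  refine core μ hE (k := kf) (b := bf) (r := rf) (measurable_dig _)
    ((measurable_from_nat (f := fun j => j % K)).comp (measurable_dig (D * K)))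
    ((measurable_from_nat (f := fun j => j % L)).comp (measurable_dig (D * K * L)))
    (K₁ := D) (K₂ := K) (K₃ := L)
    (fun x => dig_lt hD x) (fun x => Nat.mod_lt _ hKpos) (fun x => Nat.mod_lt _ hLpos)
    hcontint (B := B) (e := 2 * Real.pi * |(a : ℝ)| * (1 / K + 3 / L)) (by positivity)
    ?_ (C := 2 * |(a : ℝ)|) (by positivity) ?_ hη hW0 hW ?_
  · -- approximation
    intro x
    simp only [hBdef]
    rw [← mul_sub, ← Finset.sum_sub_distrib, norm_mul, norm_inv, Complex.norm_natCast]
    have hterm : ∀ i ∈ Finset.range K, ‖(fourier a (s i • x) : ℂ) -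
        ee (a * (s i * ((kf x : ℝ) / D) + (1 + i / K) * ((bf x : ℝ) + (rf x : ℝ) / L)))‖ ≤
        2 * Real.pi * |(a : ℝ)| * (1 / K + 3 / L) := by
      intro i hi
      have hiK : i < K := Finset.mem_range.1 hi
      rw [fourier_nsmul]
      refine (norm_ee_sub_ee _ _).trans ?_
      rw [← mul_sub, abs_mul, ← mul_assoc]
      refine mul_le_mul_of_nonneg_left ?_ (by positivity)
      -- digits
      have hd3 := dig_spec (D := D * K * L) (by positivity) x
      have e3 : dig (D * K * L) x = (kf x * K + bf x) * L + rf x := by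
        have h1 := Nat.div_add_mod (dig (D * K * L) x) L
        have h2 := dig_mul_div (D * K) L hLpos x
        have h3 := Nat.div_add_mod (dig (D * K) x) K
        have h4 := dig_mul_div D K hKpos x
        have h5 : dig (D * K) x = kf x * K + bf x := by
          simp only [hkf, hbf]
          rw [h4] at h3
          linarith
        rw [← h5]
        rw [h2] at h1
        simp only [hrf]
        linarith
      set θ : ℝ := rep x - (dig (D * K * L) x : ℝ) / ((D * K * L : ℕ) : ℝ) with hθ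
      have hθ0 : 0 ≤ θ := by rw [hθ]; linarith [hd3.1]
      have hθ1 : θ * (D * K * L) ≤ 1 := by
        have := hd3.2
        have h6 : θ ≤ 1 / ((D * K * L : ℕ) : ℝ) := by rw [hθ]; linarith
        rw [le_div_iff₀ (by positivity)] at h6
        push_cast at h6
        exact h6
      have hrep : rep x = (kf x : ℝ) / D + ((bf x : ℝ) + (rf x : ℝ) / L) / (D * K) + θ := by
        rw [hθ, e3]
        push_cast
        field_simp
        ring
      have hbr : ((bf x : ℝ) + (rf x : ℝ) / L) ≤ K := by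
        have h7 : (bf x : ℝ) + 1 ≤ K := by
          have : bf x < K := Nat.mod_lt _ hKpos
          exact_mod_cast this
        have h8 : (rf x : ℝ) / L ≤ 1 := by
          rw [div_le_one hLR]
          have : rf x < L := Nat.mod_lt _ hLpos
          exact_mod_cast this.le
        linarith
      have hbr0 : 0 ≤ ((bf x : ℝ) + (rf x : ℝ) / L) := by positivity
      set u : ℝ := ((bf x : ℝ) + (rf x : ℝ) / L) with hu
      have hsi := hs i hiK
      set σ : ℝ := (s i : ℝ) / (D * K) with hσ
      have hsσ : (s i : ℝ) = σ * (D * K) := by rw [hσ]; field_simp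
      have hKge : (1:ℝ) ≤ K := by exact_mod_cast hKpos
      have hK2 : 1 / (K : ℝ) ^ 2 ≤ 1 := by
        rw [div_le_one (by positivity)]; nlinarith
      have hi1 : (i : ℝ) / K ≤ 1 := by
        rw [div_le_one hKR]; exact_mod_cast hiK.le
      have hσ3 : σ ≤ 3 := by
        have := (abs_le.1 hsi).2
        linarith
      have hσ0 : 0 ≤ σ := by positivity
      have hdiff : (s i : ℝ) * rep x - ((s i : ℝ) * ((kf x : ℝ) / D) + (1 + i / K) * u) =
          (σ - (1 + i / K)) * u + σ * (D * K) * θ := by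
        rw [hrep, hsσ]
        field_simp
        ring
      rw [hdiff]
      have h9 : |(σ - (1 + (i:ℝ) / K)) * u| ≤ 1 / K := by
        rw [abs_mul, abs_of_nonneg hbr0]
        calc |σ - (1 + (i:ℝ) / K)| * u ≤ (1 / (K:ℝ) ^ 2) * K :=
              mul_le_mul hsi hbr hbr0 (by positivity)
          _ = 1 / K := by field_simp
      have h10 : |σ * (D * K) * θ| ≤ 3 / L := by
        rw [abs_of_nonneg (by positivity), le_div_iff₀ hLR]
        calc σ * (D * K) * θ * L = σ * (θ * (D * K * L)) := by ring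
          _ ≤ 3 * 1 := mul_le_mul hσ3 hθ1 (by positivity) (by norm_num)
          _ = 3 := by norm_num
      exact (abs_add_le _ _).trans (add_le_add h9 h10)
    calc (K : ℝ)⁻¹ * ‖∑ i ∈ Finset.range K, ((fourier a (s i • x) : ℂ) -
        ee (a * (s i * ((kf x : ℝ) / D) + (1 + i / K) * ((bf x : ℝ) + (rf x : ℝ) / L))))‖
        ≤ (K : ℝ)⁻¹ * ∑ i ∈ Finset.range K, 2 * Real.pi * |(a : ℝ)| * (1 / K + 3 / L) := by
          refine mul_le_mul_of_nonneg_left ?_ (by positivity)
          exact (norm_sum_le _ _).trans (Finset.sum_le_sum hterm)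
      _ = 2 * Real.pi * |(a : ℝ)| * (1 / K + 3 / L) := by
          rw [Finset.sum_const, Finset.card_range, nsmul_eq_mul]
          field_simp
  · -- orthogonality
    intro i j _ _
    have hφ : ∀ c : ℕ, B i c j = (K : ℂ)⁻¹ * ∑ t ∈ Finset.range K,
        ee (a * (s t * ((i : ℝ) / D)) + a * ((1 + t / K) * (j / L))) *
          ee (((a * (t : ℤ) : ℤ) : ℝ) * c / K) := by
      intro c
      simp only [hBdef]
      congr 1
      refine Finset.sum_congr rfl (fun t _ => ?_)
      rw [← ee_add]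
      have : (a : ℝ) * ((s t : ℝ) * ((i:ℝ) / D) + (1 + (t:ℝ) / K) * ((c:ℝ) + (j:ℝ) / L)) =
          ((a : ℝ) * ((s t : ℝ) * ((i : ℝ) / D)) + a * ((1 + t / K) * (j / L)) +
            ((a * (t : ℤ) : ℤ) : ℝ) * c / K) + ((a * c : ℤ) : ℝ) := by
        push_cast
        field_simp
        ring
      rw [this, ee_add _ (((a * c : ℤ) : ℝ)), ee_int, mul_one]
    have h1 : ∀ c ∈ Finset.range K, ‖B i c j‖ ^ 2 = ((K:ℝ)⁻¹) ^ 2 * ‖∑ t ∈ Finset.range K,
        ee (a * (s t * ((i : ℝ) / D)) + a * ((1 + t / K) * (j / L))) *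
          ee (((a * (t : ℤ) : ℤ) : ℝ) * c / K)‖ ^ 2 := by
      intro c _
      rw [hφ, norm_mul, norm_inv, Complex.norm_natCast, mul_pow]
    rw [Finset.sum_congr rfl h1, ← Finset.mul_sum]
    have h2 := orth K hKpos K (fun t => a * (t : ℤ))
      (fun t => ee (a * (s t * ((i : ℝ) / D)) + a * ((1 + t / K) * (j / L))))
      (fun t => (norm_ee _).le)
    have h3 := count_mul K hKpos a ha
    have h4 : ((((Finset.range K) ×ˢ (Finset.range K)).filter
      (fun t => (K : ℤ) ∣ a * (t.1 : ℤ) - a * (t.2 : ℤ))).card : ℝ) ≤ K * (2 * |(a:ℝ)|) := by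
      have h5 : |(a:ℝ)| = (a.natAbs : ℝ) := by
        rw [Nat.cast_natAbs, Int.cast_abs]
      rw [h5]
      exact_mod_cast h3
    calc ((K:ℝ)⁻¹) ^ 2 * _ ≤ ((K:ℝ)⁻¹) ^ 2 * (K * (K * (2 * |(a:ℝ)|))) := by
          refine mul_le_mul_of_nonneg_left ?_ (by positivity)
          refine h2.trans ?_
          exact mul_le_mul_of_nonneg_left h4 (by positivity)
      _ = 2 * |(a:ℝ)| := by field_simp
  · intro x hx
    have := hEη x hx
    rwa [hcyl] at this

end Pool.Agent.H.MP_96e181_an
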