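import Mathlib
import Pool.Agent.H.MP_96e181_an.NonLac
import Pool.Agent.H.MP_96e181_an.FourierLower
import Pool.Agent.H.MP_96e181_an.Window
import Pool.Agent.H.MP_96e181_an.Average

set_option autoImplicit false

namespace Pool.Agent.H.MP_96e181_an

open MeasureTheory Filter Topology Set Finset
open scoped ENNReal NNReal

/-- Choice of the multipliers. -/
theorem exists_multipliers {p q : ℕ} (hp : 2 ≤ p) (hq : 2 ≤ q)
    (h : Irrational (Real.log (p : ℝ) / Real.log (q : ℝ))) (K : ℕ) (hKpos : 0 < K) :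
    ∃ M : ℕ, ∀ D, M ≤ D → ∃ s : ℕ → ℕ, (∀ i, ∃ a b : ℕ, s i = p ^ a * q ^ b) ∧
      ∀ i < K, |(s i : ℝ) / (D * K) - (1 + i / K)| ≤ 1 / (K : ℝ) ^ 2 := by
  have hKR : (0:ℝ) < K := by exact_mod_cast hKpos
  have hK1 : (1:ℝ) ≤ K := by exact_mod_cast hKpos
  obtain ⟨Y, hY1, hY⟩ := nonlac hp hq h (ε := 1 / (2 * (K:ℝ) ^ 2)) (by positivity)
  refine ⟨⌈Y⌉₊, fun D hD => ?_⟩
  have hYD : Y ≤ (D : ℝ) := (Nat.le_ceil Y).trans (by exact_mod_cast hD)
  have hD0 : (0:ℝ) < D := by linarith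
  have hPpos : (0:ℝ) < D * K := by positivity
  have hpow : Y ≤ (D : ℝ) * K := by nlinarith
  have hex : ∀ i : ℕ, ∃ s : ℕ, (∃ a b : ℕ, s = p ^ a * q ^ b) ∧
      (D * K : ℝ) * (1 + i / K) ≤ s ∧
      (s : ℝ) ≤ (1 + 1 / (2 * (K:ℝ) ^ 2)) * ((D * K : ℝ) * (1 + i / K)) := by
    intro i
    have hy : Y ≤ (D * K : ℝ) * (1 + i / K) := by
      have : (0:ℝ) ≤ i / K := by positivity
      nlinarith
    obtain ⟨a, b, h1, h2⟩ := hY _ hy
    exact ⟨p ^ a * q ^ b, ⟨a, b, rfl⟩, h1, h2⟩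
  choose s hs1 hs2 hs3 using hex
  refine ⟨s, hs1, fun i hi => ?_⟩
  have hi' : (i : ℝ) / K ≤ 1 := by
    rw [div_le_one hKR]; exact_mod_cast hi.le
  have hi0 : (0:ℝ) ≤ (i:ℝ) / K := by positivity
  have h1 : (1 + (i:ℝ) / K) ≤ (s i : ℝ) / (D * K) := by
    rw [le_div_iff₀ hPpos, mul_comm]; exact hs2 i
  have h2 : (s i : ℝ) / (D * K) ≤ (1 + 1 / (2 * (K:ℝ) ^ 2)) * (1 + i / K) := by
    rw [div_le_iff₀ hPpos]
    calc (s i : ℝ) ≤ _ := hs3 i
      _ = _ := by ring
  rw [abs_of_nonneg (by linarith)]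
  have h3 : 1 / (2 * (K:ℝ) ^ 2) * (1 + i / K) ≤ 1 / (2 * (K:ℝ) ^ 2) * 2 :=
    mul_le_mul_of_nonneg_left (by linarith) (by positivity)
  have h4 : 1 / (2 * (K:ℝ) ^ 2) * 2 = 1 / (K:ℝ) ^ 2 := by field_simp
  linarith

/-! ### Balls and cells -/

/-- Cyclic successor and predecessor of a cell index. -/
def nxt (D i : ℕ) : ℕ := if i + 1 = D then 0 else i + 1

def prv (D i : ℕ) : ℕ := if i = 0 then D - 1 else i - 1

theorem nxt_injOn (D : ℕ) : Set.InjOn (nxt D) (Finset.range D : Set ℕ) := by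
  intro i hi j hj hij
  simp only [Finset.coe_range, Set.mem_Iio] at hi hj
  simp only [nxt] at hij
  split_ifs at hij <;> omega

theorem prv_injOn (D : ℕ) : Set.InjOn (prv D) (Finset.range D : Set ℕ) := by
  intro i hi j hj hij
  simp only [Finset.coe_range, Set.mem_Iio] at hi hj
  simp only [prv] at hij
  split_ifs at hij <;> omega

/-- Weight of a cell: mass of the cell and its two neighbours. -/
noncomputable def wt (μ : Measure UnitAddCircle) (D i : ℕ) : ℝ :=
  μ.real {y | dig D y = i} + μ.real {y | dig D y = nxt D i} + μ.real {y | dig D y = prv D i}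

theorem wt_nonneg (μ : Measure UnitAddCircle) (D i : ℕ) : 0 ≤ wt μ D i := by
  unfold wt; positivity

theorem sum_wt (μ : Measure UnitAddCircle) [IsProbabilityMeasure μ] (D : ℕ) :
    ∑ i ∈ Finset.range D, wt μ D i ≤ 3 := by
  unfold wt
  rw [Finset.sum_add_distrib, Finset.sum_add_distrib]
  have h1 := sum_fibre_le_one μ (measurable_dig D) D (fun i => i) (fun _ _ _ _ h => h)
  have h2 := sum_fibre_le_one μ (measurable_dig D) D (nxt D) (nxt_injOn D)
  have h3 := sum_fibre_le_one μ (measurable_dig D) D (prv D) (prv_injOn D)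
  linarith

theorem dist_le_rep (x y : UnitAddCircle) : dist y x ≤ |rep y - rep x| := by
  have h : y - x = (((rep y - rep x : ℝ)) : UnitAddCircle) := by
    rw [AddCircle.coe_sub, coe_rep, coe_rep]
  rw [dist_eq_norm, h]
  refine UnitAddCircle.norm_eq.le.trans ?_
  simpa using round_le (rep y - rep x) 0

theorem exists_int_dist (x y : UnitAddCircle) :
    ∃ m : ℤ, |rep y - rep x - m| = dist y x := by
  have h : y - x = (((rep y - rep x : ℝ)) : UnitAddCircle) := by
    rw [AddCircle.coe_sub, coe_rep, coe_rep]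
  refine ⟨round (rep y - rep x), ?_⟩
  rw [dist_eq_norm, h]
  exact (UnitAddCircle.norm_eq).symm

theorem cell_subset_ball {D K : ℕ} (hD : 0 < D) (hK : 0 < K) {r : ℝ}
    (hr : 1 / ((D * K : ℕ) : ℝ) ≤ r) (x : UnitAddCircle) :
    {y | dig (D * K) y = dig (D * K) x} ⊆ Metric.ball x r := by
  intro y hy
  rw [Set.mem_ofPred_eq] at hy
  rw [Metric.mem_ball]
  refine (dist_le_rep x y).trans_lt (lt_of_lt_of_le ?_ hr)
  have h1 := dig_spec (D := D * K) (by positivity) x
  have h2 := dig_spec (D := D * K) (by positivity) y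
  rw [hy] at h2
  rw [abs_lt]
  constructor <;> linarith [h1.1, h1.2, h2.1, h2.2]

theorem ball_subset_cells {D : ℕ} (hD : 0 < D) {r : ℝ} (hr : r ≤ 1 / (D : ℝ))
    (x : UnitAddCircle) :
    Metric.closedBall x r ⊆ {y | dig D y = dig D x} ∪ {y | dig D y = nxt D (dig D x)} ∪
      {y | dig D y = prv D (dig D x)} := by
  intro y hy
  rw [Metric.mem_closedBall] at hy
  have hDR : (0:ℝ) < D := by exact_mod_cast hD
  obtain ⟨m, hm⟩ := exists_int_dist x y
  have hx := dig_spec hD x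
  have hyy := dig_spec hD y
  have hxl := dig_lt hD x
  have hyl := dig_lt hD y
  set i := dig D x with hi
  set j := dig D y with hj
  have habs : |rep y - rep x - m| ≤ 1 / D := by rw [hm]; linarith
  have hm1 : m < 2 := by
    have : (m : ℝ) < 2 := by
      have h1 := (abs_le.1 habs).1
      have h2 : 1 / (D:ℝ) ≤ 1 := by
        rw [div_le_one hDR]; exact_mod_cast hD
      linarith [rep_lt_one y, rep_nonneg x]
    exact_mod_cast this
  have hm2 : -2 < m := by
    have : (-2 : ℝ) < m := by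
      have h1 := (abs_le.1 habs).2
      have h2 : 1 / (D:ℝ) ≤ 1 := by
        rw [div_le_one hDR]; exact_mod_cast hD
      linarith [rep_lt_one x, rep_nonneg y]
    exact_mod_cast this
  -- scaled inequalities
  have ex1 : (i : ℝ) ≤ D * rep x := by
    have := hx.1; rwa [div_le_iff₀ hDR, mul_comm] at this
  have ex2 : D * rep x < (i : ℝ) + 1 := by
    have := hx.2
    rw [← add_div, lt_div_iff₀ hDR, mul_comm] at this; exact this
  have ey1 : (j : ℝ) ≤ D * rep y := by
    have := hyy.1; rwa [div_le_iff₀ hDR, mul_comm] at this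
  have ey2 : D * rep y < (j : ℝ) + 1 := by
    have := hyy.2
    rw [← add_div, lt_div_iff₀ hDR, mul_comm] at this; exact this
  have ea : |D * rep y - D * rep x - D * m| ≤ 1 := by
    have : D * rep y - D * rep x - D * m = D * (rep y - rep x - m) := by ring
    rw [this, abs_mul, abs_of_pos hDR]
    calc (D:ℝ) * |rep y - rep x - m| ≤ D * (1 / D) := mul_le_mul_of_nonneg_left habs hDR.le
      _ = 1 := by field_simp
  have ea1 := (abs_le.1 ea).1
  have ea2 := (abs_le.1 ea).2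
  have h3 : (j : ℤ) < i + D * m + 2 := by
    have : (j : ℝ) < i + D * m + 2 := by linarith
    exact_mod_cast this
  have h4 : (i : ℤ) + D * m - 2 < j := by
    have : (i : ℝ) + D * m - 2 < j := by linarith
    exact_mod_cast this
  have hcase : m = -1 ∨ m = 0 ∨ m = 1 := by omega
  have hgoal : j = i ∨ j = nxt D i ∨ j = prv D i := by
    rcases hcase with rfl | rfl | rfl
    · unfold nxt prv
      split_ifs <;> omega
    · unfold nxt prv
      split_ifs <;> omega
    · unfold nxt prv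
      split_ifs <;> omega
  rcases hgoal with h | h | h
  · exact Or.inl (Or.inl h)
  · exact Or.inl (Or.inr h)
  · exact Or.inr h

/-- The hypothesis at scales `r`, `r/K`. -/
def ballSpread (μ : Measure UnitAddCircle) (r : ℝ) (K : ℕ) (η : ℝ≥0∞) : Set UnitAddCircle :=
  {x | μ (Metric.ball x (r / K)) ≤ η * μ (Metric.closedBall x r)}

/-- The measurable superset made of cells. -/
def cellSpread (μ : Measure UnitAddCircle) (D K : ℕ) (η : ℝ) : Set UnitAddCircle :=
  {x | μ.real {y | dig (D * K) y = dig (D * K) x} ≤ η * wt μ D (dig D x)}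

theorem measurableSet_cellSpread (μ : Measure UnitAddCircle) (D K : ℕ) (η : ℝ) :
    MeasurableSet (cellSpread μ D K η) := by
  apply measurableSet_le
  · exact (measurable_from_nat (f := fun j => μ.real {y | dig (D * K) y = j})).comp
      (measurable_dig (D * K))
  · exact ((measurable_from_nat (f := fun j => wt μ D j)).comp (measurable_dig D)).const_mul η

theorem ballSpread_subset {μ : Measure UnitAddCircle} [IsProbabilityMeasure μ] {D K : ℕ}
    (hD : 0 < D) (hK : 0 < K) {r : ℝ} (hr : r ≤ 1 / (D : ℝ))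
    (hr2 : 1 / (2 * D : ℝ) ≤ r) (η : ℝ≥0) :
    ballSpread μ r K η ⊆ cellSpread μ D (2 * K) η := by
  intro x hx
  have hDR : (0:ℝ) < D := by exact_mod_cast hD
  have hKR : (0:ℝ) < K := by exact_mod_cast hK
  have h1 : ((η : ℝ≥0∞) * μ (Metric.closedBall x r)) ≠ ∞ :=
    ENNReal.mul_ne_top ENNReal.coe_ne_top (measure_ne_top _ _)
  have h2 := ENNReal.toReal_mono h1 hx
  rw [ENNReal.toReal_mul, ENNReal.coe_toReal] at h2
  change μ.real {y | dig (D * (2 * K)) y = dig (D * (2 * K)) x} ≤ η * wt μ D (dig D x)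
  have h3 : μ.real {y | dig (D * (2 * K)) y = dig (D * (2 * K)) x} ≤
      μ.real (Metric.ball x (r / K)) := by
    refine measureReal_mono (cell_subset_ball hD (by positivity) ?_ x) (measure_ne_top _ _)
    push_cast
    rw [le_div_iff₀ hKR]
    calc 1 / ((D:ℝ) * (2 * K)) * K = 1 / (2 * D) := by field_simp
      _ ≤ r := hr2
  have h4 : μ.real (Metric.closedBall x r) ≤ wt μ D (dig D x) := by
    refine (measureReal_mono (ball_subset_cells hD hr x) (measure_ne_top _ _)).trans ?_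
    refine (measureReal_union_le _ _).trans ?_
    exact add_le_add_left (measureReal_union_le _ _) _
  exact h3.trans (h2.trans (mul_le_mul_of_nonneg_left h4 η.2))

/-- The set `cellSpread` has small mass unless `K` is large. -/
theorem cellSpread_mass {D K : ℕ} (hD : 0 < D) (hK : 0 < K) (μ : Measure UnitAddCircle)
    [IsProbabilityMeasure μ] {η : ℝ} (hη : 0 ≤ η) :
    μ.real (cellSpread μ D K η) ≤ η * 3 * K := by
  refine mass_le μ (k := fun x => dig D x) (b := fun x => dig (D * K) x % K)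
    (K₁ := D) (fun x => dig_lt hD x) (fun x => Nat.mod_lt _ hK) hη (wt_nonneg μ D)
    (sum_wt μ D) ?_
  intro x hx
  have h2 : {y | dig (D * K) y = dig (D * K) x} = {y | dig D y = dig D x ∧
      dig (D * K) y % K = dig (D * K) x % K} := by
    ext y
    exact dig_eq_iff hK x y
  have h1 : μ.real {y | dig (D * K) y = dig (D * K) x} ≤ η * wt μ D (dig D x) := hx
  rw [h2] at h1
  exact h1

/-- Main theorem, lower bound form. -/
theorem slow_entropy {p q : ℕ} (hp : 2 ≤ p) (hq : 2 ≤ q)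
    (h : Irrational (Real.log (p : ℝ) / Real.log (q : ℝ))) :
    ∃ ρ : ℕ → ℝ, (∀ K, 0 < ρ K) ∧ ∀ μ : Measure UnitAddCircle, IsProbabilityMeasure μ →
      MeasurePreserving (fun x : UnitAddCircle => p • x) μ μ →
      MeasurePreserving (fun x : UnitAddCircle => q • x) μ μ →
      ∀ c : ℝ≥0∞, (∀ η : ℝ≥0∞, 0 < η → ∃ K : ℕ, 0 < K ∧ ∃ r : ℝ, 0 < r ∧ r ≤ ρ K ∧
        c ≤ μ {x | μ (Metric.ball x (r / K)) ≤ η * μ (Metric.closedBall x r)}) →
      c • (volume : Measure UnitAddCircle) ≤ μ := by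
  have hM' : ∀ K : ℕ, ∃ M : ℕ, 0 < K → ∀ D, M ≤ D → ∃ s : ℕ → ℕ,
      (∀ i, ∃ a b : ℕ, s i = p ^ a * q ^ b) ∧
      ∀ i < K, |(s i : ℝ) / (D * K) - (1 + i / K)| ≤ 1 / (K : ℝ) ^ 2 := by
    intro K
    rcases Nat.eq_zero_or_pos K with rfl | hK
    · exact ⟨0, fun h => absurd h (by omega)⟩
    · obtain ⟨M, hM⟩ := exists_multipliers hp hq h K hK
      exact ⟨M, fun _ => hM⟩
  choose M hM using hM'
  refine ⟨fun K => 1 / ((M (2 * K) : ℝ) + 2), fun K => by positivity, fun μ hμ hμp hμq c hc => ?_⟩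
  rcases eq_or_ne c 0 with rfl | hc0
  · simp only [zero_smul]
    exact Measure.zero_le μ
  have hcfin : c ≠ ∞ := by
    obtain ⟨K, -, r, -, -, h2⟩ := hc 1 one_pos
    exact ne_top_of_le_ne_top (measure_ne_top _ _) h2
  lift c to ℝ≥0 using hcfin
  have hcpos : (0:ℝ) < c := by
    have : (c : ℝ≥0∞) ≠ 0 := hc0
    exact_mod_cast pos_iff_ne_zero.2 (by exact_mod_cast this)
  -- sequence of scales
  set ηs : ℕ → ℝ≥0 := fun k => ⟨1 / ((k : ℝ) + 1), by positivity⟩ with hηs
  have hηpos : ∀ k, (0 : ℝ≥0∞) < (ηs k : ℝ≥0∞) := by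
    intro k
    have : (0:ℝ) < ((ηs k : ℝ≥0) : ℝ) := by
      change (0:ℝ) < 1 / ((k : ℝ) + 1)
      positivity
    exact ENNReal.coe_pos.2 (NNReal.coe_pos.1 this)
  have hex : ∀ k : ℕ, ∃ D K : ℕ, 0 < D ∧ 0 < K ∧ M K ≤ D ∧
      (c : ℝ≥0∞) ≤ μ (cellSpread μ D K (ηs k)) := by
    intro k
    obtain ⟨K, hK, r, hr0, hrρ, hcr⟩ := hc _ (hηpos k)
    have hr1 : (M (2 * K) : ℝ) + 2 ≤ 1 / r := by
      rw [le_div_iff₀ hr0]
      rw [le_div_iff₀ (by positivity)] at hrρ
      linarith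
    have hrhalf : 2 ≤ 1 / r := by
      have : (0:ℝ) ≤ M (2 * K) := Nat.cast_nonneg _
      linarith
    have hr0' : 0 ≤ 1 / r := by positivity
    have hfl : M (2 * K) + 2 ≤ ⌊1 / r⌋₊ := by
      apply Nat.le_floor
      push_cast
      exact hr1
    have hDpos : 0 < ⌊1 / r⌋₊ := by omega
    have hDR : (0:ℝ) < ⌊1 / r⌋₊ := by exact_mod_cast hDpos
    have hfle : (⌊1 / r⌋₊ : ℝ) ≤ 1 / r := Nat.floor_le hr0'
    have hlt : 1 / r < (⌊1 / r⌋₊ : ℝ) + 1 := Nat.lt_floor_add_one _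
    refine ⟨⌊1 / r⌋₊, 2 * K, hDpos, by positivity, by omega, ?_⟩
    refine hcr.trans (measure_mono ?_)
    refine ballSpread_subset hDpos hK ?_ ?_ (ηs k)
    · rw [le_div_iff₀ hDR]
      rw [le_div_iff₀ hr0] at hfle
      linarith
    · rw [div_le_iff₀ (by positivity)]
      have h1 : 1 / r ≤ 2 * (⌊1 / r⌋₊ : ℝ) := by linarith
      rw [div_le_iff₀ hr0] at h1
      linarith
  choose D K hDpos hKpos hMD hcN using hex
  have hs := fun k => hM (K k) (hKpos k) (D k) (hMD k)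
  choose s hs1 hs2 using hs
  have hsmp : ∀ k i, MeasurePreserving (fun x : UnitAddCircle => s k i • x) μ μ := by
    intro k i
    obtain ⟨a, b, hab⟩ := hs1 k i
    rw [hab]
    exact mp_mul (mp_pow hμp a) (mp_pow hμq b)
  have hKlarge : ∀ k : ℕ, (c : ℝ) / 3 * (k + 1) ≤ K k := by
    intro k
    have h1 := cellSpread_mass (hDpos k) (hKpos k) μ (ηs k).2
    have h2 : (c : ℝ) ≤ μ.real (cellSpread μ (D k) (K k) (ηs k)) := by
      have := ENNReal.toReal_mono (measure_ne_top _ _) (hcN k)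
      simpa [Measure.real] using this
    have h3 : (c : ℝ) ≤ (1 / ((k : ℝ) + 1)) * 3 * K k := h2.trans h1
    have hk : (0:ℝ) < (k : ℝ) + 1 := by positivity
    calc (c : ℝ) / 3 * (k + 1) ≤ ((1 / ((k : ℝ) + 1)) * 3 * K k) / 3 * (k + 1) := by
          gcongr
      _ = K k := by field_simp
  refine smul_volume_le_of_fourier
    (fun k => avg μ (cellSpread μ (D k) (K k) (ηs k)) (K k) (s k))
    (fun k => avg_le _ (hKpos k) (hsmp k)) (fun k => ?_) ?_
  · rw [avg_univ _ (hKpos k)]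
    exact hcN k
  · intro a ha
    have hbound : ∀ k l : ℕ,
        ‖∫ x, (fourier a x : ℂ) ∂(avg μ (cellSpread μ (D k) (K k) (ηs k)) (K k) (s k))‖ ≤
        2 * Real.pi * |(a : ℝ)| * (1 / K k + 3 / (l + 1 : ℕ)) +
        √((1 / ((k : ℝ) + 1)) * (2 * |(a : ℝ)|) * (l + 1 : ℕ) * 3) := by
      intro k l
      rw [integral_avg]
      exact window_est (hDpos k) (hKpos k) (Nat.succ_pos l) μ (measurableSet_cellSpread _ _ _ _)
        (ηs k).2 (wt_nonneg μ (D k)) (sum_wt μ (D k)) (fun x hx => hx) (s k) (hs2 k) ha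
    rw [Metric.tendsto_atTop]
    intro ε hε
    have hA : 0 ≤ 2 * Real.pi * |(a : ℝ)| := by positivity
    -- choose l
    obtain ⟨l, hl⟩ : ∃ l : ℕ, 2 * Real.pi * |(a : ℝ)| * (3 / ((l + 1 : ℕ) : ℝ)) < ε / 3 := by
      have h1 : Tendsto (fun l : ℕ => 2 * Real.pi * |(a : ℝ)| * (3 * (1 / ((l : ℝ) + 1)))) atTop
          (𝓝 (2 * Real.pi * |(a : ℝ)| * (3 * 0))) :=
        (tendsto_one_div_add_atTop_nhds_zero_nat.const_mul _).const_mul _
      rw [mul_zero, mul_zero] at h1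
      obtain ⟨l, hl⟩ := ((tendsto_order.1 h1).2 (ε / 3) (by positivity)).exists
      refine ⟨l, ?_⟩
      push_cast
      rwa [mul_one_div] at hl
    have h2 : Tendsto (fun k : ℕ => √((1 / ((k : ℝ) + 1)) * (2 * |(a : ℝ)|) * (l + 1 : ℕ) * 3))
        atTop (𝓝 √(0 * (2 * |(a : ℝ)|) * (l + 1 : ℕ) * 3)) := by
      apply (Real.continuous_sqrt.tendsto _).comp
      exact ((tendsto_one_div_add_atTop_nhds_zero_nat.mul_const _).mul_const _).mul_const _
    rw [zero_mul, zero_mul, zero_mul, Real.sqrt_zero] at h2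
    have h3 : Tendsto (fun k : ℕ => 2 * Real.pi * |(a : ℝ)| * (1 / ((c : ℝ) / 3 * (k + 1)))) atTop
        (𝓝 0) := by
      have : Tendsto (fun k : ℕ => 2 * Real.pi * |(a : ℝ)| * (3 / (c : ℝ)) * (1 / ((k : ℝ) + 1)))
          atTop (𝓝 (2 * Real.pi * |(a : ℝ)| * (3 / (c : ℝ)) * 0)) :=
        tendsto_one_div_add_atTop_nhds_zero_nat.const_mul _
      rw [mul_zero] at this
      refine this.congr (fun k => ?_)
      field_simp
    have h4 := (tendsto_order.1 h2).2 (ε / 3) (by positivity)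
    have h5 := (tendsto_order.1 h3).2 (ε / 3) (by positivity)
    obtain ⟨k₀, hk₀⟩ := (h4.and h5).exists_forall_of_atTop
    refine ⟨k₀, fun k hk => ?_⟩
    rw [dist_zero_right]
    obtain ⟨h6, h7⟩ := hk₀ k hk
    have h8 : 2 * Real.pi * |(a : ℝ)| * (1 / (K k : ℝ)) ≤
        2 * Real.pi * |(a : ℝ)| * (1 / ((c : ℝ) / 3 * (k + 1))) := by
      refine mul_le_mul_of_nonneg_left ?_ hA
      exact one_div_le_one_div_of_le (by positivity) (hKlarge k)
    have h9 := hbound k l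
    rw [mul_add] at h9
    linarith

end Pool.Agent.H.MP_96e181_an
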