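import Mathlib
import Pool.Agent.H.MP_96e181_an.PWindow
import Pool.Agent.H.MP_96e181_an.SlowEntropy

set_option autoImplicit false

namespace Pool.Agent.H.MP_96e181_an

open MeasureTheory Filter Topology Set Finset
open scoped ENNReal NNReal

/-- Weight of a cell of the image point. -/
noncomputable def wtD (μ : Measure UnitAddCircle) (D R i : ℕ) : ℝ :=
  μ.real {y | dig R (D • y) = i} + μ.real {y | dig R (D • y) = nxt R i} +
    μ.real {y | dig R (D • y) = prv R i}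

theorem wtD_nonneg (μ : Measure UnitAddCircle) (D R i : ℕ) : 0 ≤ wtD μ D R i := by
  unfold wtD; positivity

theorem measurable_digD (D R : ℕ) : Measurable (fun y : UnitAddCircle => dig R (D • y)) :=
  (measurable_dig R).comp (continuous_nsmul D).measurable

theorem sum_wtD (μ : Measure UnitAddCircle) [IsProbabilityMeasure μ] (D R : ℕ) :
    ∑ i ∈ Finset.range R, wtD μ D R i ≤ 3 := by
  unfold wtD
  rw [Finset.sum_add_distrib, Finset.sum_add_distrib]
  have h1 := sum_fibre_le_one μ (measurable_digD D R) R (fun i => i) (fun _ _ _ _ h => h)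
  have h2 := sum_fibre_le_one μ (measurable_digD D R) R (nxt R) (nxt_injOn R)
  have h3 := sum_fibre_le_one μ (measurable_digD D R) R (prv R) (prv_injOn R)
  linarith

theorem sum_half (f : ℕ → ℝ) (R : ℕ) :
    ∑ k ∈ Finset.range (R * 2), f (k / 2) = 2 * ∑ i ∈ Finset.range R, f i := by
  induction R with
  | zero => simp
  | succ R ih =>
    rw [show (R + 1) * 2 = R * 2 + 1 + 1 by ring, Finset.sum_range_succ, Finset.sum_range_succ, ih,
      Finset.sum_range_succ]
    have h1 : R * 2 / 2 = R := by omega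
    have h2 : (R * 2 + 1) / 2 = R := by omega
    rw [h1, h2]; ring

/-- The hypothesis of the explicit theorem. -/
def branchSpread (μ : Measure UnitAddCircle) (D : ℕ) (ρ : ℝ) (η : ℝ≥0∞) : Set UnitAddCircle :=
  {x | μ (Metric.ball x ρ) ≤ η * μ {y | dist (D • y) (D • x) ≤ D * ρ}}

/-- The measurable superset made of cells. -/
def branchCell (μ : Measure UnitAddCircle) (D R : ℕ) (η : ℝ) : Set UnitAddCircle :=
  {x | μ.real {y | dig (R * 2) (D • y) = dig (R * 2) (D • x) ∧ dig D y = dig D x} ≤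
    η * wtD μ D R (dig (R * 2) (D • x) / 2)}

theorem measurableSet_branchCell (μ : Measure UnitAddCircle) (D R : ℕ) (η : ℝ) :
    MeasurableSet (branchCell μ D R η) := by
  apply measurableSet_le
  · exact (measurable_of_countable (fun t : ℕ × ℕ =>
      μ.real {y | dig (R * 2) (D • y) = t.1 ∧ dig D y = t.2})).comp
      ((measurable_digD D (R * 2)).prodMk (measurable_dig D))
  · exact ((measurable_from_nat (f := fun j => wtD μ D R (j / 2))).comp
      (measurable_digD D (R * 2))).const_mul η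

theorem cellD_subset_ball {D R : ℕ} (hD : 0 < D) (hR : 0 < R) {ρ : ℝ}
    (hρ : 1 / ((R * D : ℕ) : ℝ) ≤ ρ) (x : UnitAddCircle) :
    {y | dig R (D • y) = dig R (D • x) ∧ dig D y = dig D x} ⊆ Metric.ball x ρ := by
  rintro y ⟨hy1, hy2⟩
  rw [Metric.mem_ball]
  refine (dist_le_rep x y).trans_lt (lt_of_lt_of_le ?_ hρ)
  have hDR : (0:ℝ) < D := by exact_mod_cast hD
  have hRR : (0:ℝ) < R := by exact_mod_cast hR
  have h1 := dig_spec hR (D • x)
  have h2 := dig_spec hR (D • y)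
  rw [hy1] at h2
  have h3 := rep_nsmul D x
  have h4 := rep_nsmul D y
  rw [hy2] at h4
  have h5 : rep y - rep x = (rep (D • y) - rep (D • x)) / D := by
    rw [h3, h4]; field_simp; ring
  have h6 : |rep (D • y) - rep (D • x)| < 1 / R := by
    rw [abs_lt]
    constructor <;> linarith [h1.1, h1.2, h2.1, h2.2]
  rw [h5, abs_div, abs_of_pos hDR, div_lt_iff₀ hDR]
  calc |rep (D • y) - rep (D • x)| < 1 / R := h6
    _ = 1 / ((R * D : ℕ) : ℝ) * D := by push_cast; field_simp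

theorem branchSpread_subset {μ : Measure UnitAddCircle} [IsProbabilityMeasure μ] {D R : ℕ}
    (hD : 0 < D) (hR : 0 < R) {ρ : ℝ} (hρ : D * ρ ≤ 1 / (R : ℝ))
    (hρ2 : 1 / ((R * 2 * D : ℕ) : ℝ) ≤ ρ) (η : ℝ≥0) :
    branchSpread μ D ρ η ⊆ branchCell μ D R η := by
  intro x hx
  have h1 : ((η : ℝ≥0∞) * μ {y | dist (D • y) (D • x) ≤ D * ρ}) ≠ ∞ :=
    ENNReal.mul_ne_top ENNReal.coe_ne_top (measure_ne_top _ _)
  have h2 := ENNReal.toReal_mono h1 hx
  rw [ENNReal.toReal_mul, ENNReal.coe_toReal] at h2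
  change μ.real {y | dig (R * 2) (D • y) = dig (R * 2) (D • x) ∧ dig D y = dig D x} ≤
    η * wtD μ D R (dig (R * 2) (D • x) / 2)
  rw [dig_mul_div R 2 (by norm_num)]
  have h3 : μ.real {y | dig (R * 2) (D • y) = dig (R * 2) (D • x) ∧ dig D y = dig D x} ≤
      μ.real (Metric.ball x ρ) :=
    measureReal_mono (cellD_subset_ball hD (by positivity) hρ2 x) (measure_ne_top _ _)
  have h4 : μ.real {y | dist (D • y) (D • x) ≤ D * ρ} ≤ wtD μ D R (dig R (D • x)) := by
    have hsub : {y | dist (D • y) (D • x) ≤ D * ρ} ⊆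
        {y | dig R (D • y) = dig R (D • x)} ∪ {y | dig R (D • y) = nxt R (dig R (D • x))} ∪
        {y | dig R (D • y) = prv R (dig R (D • x))} := by
      intro y hy
      exact ball_subset_cells hR hρ (D • x) (Metric.mem_closedBall.2 hy)
    refine (measureReal_mono hsub (measure_ne_top _ _)).trans ?_
    refine (measureReal_union_le _ _).trans ?_
    exact add_le_add_left (measureReal_union_le _ _) _
  exact h3.trans (h2.trans (mul_le_mul_of_nonneg_left h4 η.2))

theorem branchCell_mass {D R : ℕ} (hD : 0 < D) (hR : 0 < R) (μ : Measure UnitAddCircle)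
    [IsProbabilityMeasure μ] {η : ℝ} (hη : 0 ≤ η) :
    μ.real (branchCell μ D R η) ≤ η * 6 * D := by
  refine mass_le μ (k := fun x => dig (R * 2) (D • x)) (b := fun x => dig D x)
    (K₁ := R * 2) (fun x => dig_lt (by positivity) _) (fun x => dig_lt hD x) hη
    (W := fun j => wtD μ D R (j / 2)) (fun j => wtD_nonneg μ D R (j / 2)) ?_ (fun x hx => hx)
  rw [sum_half]
  linarith [sum_wtD μ D R]

/-- Explicit-scale theorem for coprime `p`, `q`. -/
theorem explicit_scale {p q : ℕ} (hp : 2 ≤ p) (hq : 2 ≤ q) (hcop : Nat.Coprime p q)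
    (μ : Measure UnitAddCircle) [IsProbabilityMeasure μ]
    (hμq : MeasurePreserving (fun x : UnitAddCircle => q • x) μ μ)
    (c : ℝ≥0∞) (hc : ∀ η : ℝ≥0∞, 0 < η → ∃ n : ℕ, ∃ ρ : ℝ, 0 < ρ ∧
      ρ ≤ ((q : ℝ) ^ (p ^ n))⁻¹ ∧
      c ≤ μ {x | μ (Metric.ball x ρ) ≤
        η * μ {y | dist ((p ^ n) • y) ((p ^ n) • x) ≤ (p ^ n : ℕ) * ρ}}) :
    c • (volume : Measure UnitAddCircle) ≤ μ := by
  obtain ⟨C, hC0, hC⟩ := count_pow hp hq hcop
  rcases eq_or_ne c 0 with rfl | hc0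
  · simp only [zero_smul]
    exact Measure.zero_le μ
  have hp0 : 0 < p := by omega
  have hcfin : c ≠ ∞ := by
    obtain ⟨n, ρ, -, -, h2⟩ := hc 1 one_pos
    exact ne_top_of_le_ne_top (measure_ne_top _ _) h2
  lift c to ℝ≥0 using hcfin
  have hcpos : (0:ℝ) < c := by
    have : (c : ℝ≥0∞) ≠ 0 := hc0
    exact_mod_cast pos_iff_ne_zero.2 (by exact_mod_cast this)
  set ηs : ℕ → ℝ≥0 := fun k => ⟨1 / ((k : ℝ) + 1), by positivity⟩ with hηs
  have hηpos : ∀ k, (0 : ℝ≥0∞) < (ηs k : ℝ≥0∞) := by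
    intro k
    have : (0:ℝ) < ((ηs k : ℝ≥0) : ℝ) := by
      change (0:ℝ) < 1 / ((k : ℝ) + 1)
      positivity
    exact ENNReal.coe_pos.2 (NNReal.coe_pos.1 this)
  have hex : ∀ k : ℕ, ∃ n R : ℕ, 0 < R ∧ (q : ℝ) ^ (p ^ n) ≤ (R * 2 : ℕ) * (p ^ n : ℕ) ∧
      (c : ℝ≥0∞) ≤ μ (branchCell μ (p ^ n) R (ηs k)) := by
    intro k
    obtain ⟨n, ρ, hρ0, hρ1, hcr⟩ := hc _ (hηpos k)
    set D : ℕ := p ^ n with hD
    have hDpos : 0 < D := pow_pos hp0 n
    have hDR : (0:ℝ) < D := by exact_mod_cast hDpos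
    have hqD : (0:ℝ) < (q : ℝ) ^ D := by
      have : (0:ℝ) < q := by exact_mod_cast (by omega : 0 < q)
      positivity
    have hDq : (D : ℝ) ≤ (q : ℝ) ^ D := by
      exact_mod_cast (Nat.lt_pow_self (by omega : 1 < q)).le
    have hz1 : 1 ≤ 1 / (D * ρ) := by
      rw [le_div_iff₀ (by positivity), one_mul]
      calc D * ρ ≤ (q : ℝ) ^ D * ((q : ℝ) ^ D)⁻¹ := mul_le_mul hDq hρ1 hρ0.le hqD.le
        _ = 1 := by field_simp
    have hfl1 : 1 ≤ ⌊1 / (D * ρ)⌋₊ := by
      apply Nat.le_floor; simpa using hz1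
    have hfle : (⌊1 / (D * ρ)⌋₊ : ℝ) ≤ 1 / (D * ρ) := Nat.floor_le (by positivity)
    have hlt : 1 / (D * ρ) < (⌊1 / (D * ρ)⌋₊ : ℝ) + 1 := Nat.lt_floor_add_one _
    set R : ℕ := ⌊1 / (D * ρ)⌋₊ with hR
    have hRpos : 0 < R := by omega
    have hRR : (0:ℝ) < R := by exact_mod_cast hRpos
    have hR1 : (1:ℝ) ≤ R := by exact_mod_cast hfl1
    have h2R : 1 / (D * ρ) ≤ 2 * R := by linarith
    have h2R' : 1 / ρ ≤ 2 * R * D := by
      rw [div_le_iff₀ (by positivity)] at h2R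
      rw [div_le_iff₀ hρ0]
      linarith
    refine ⟨n, R, hRpos, ?_, ?_⟩
    · push_cast
      have h3 : (q : ℝ) ^ D ≤ 1 / ρ := by
        rw [le_div_iff₀ hρ0]
        calc (q : ℝ) ^ D * ρ ≤ (q : ℝ) ^ D * ((q : ℝ) ^ D)⁻¹ :=
              mul_le_mul_of_nonneg_left hρ1 hqD.le
          _ = 1 := by field_simp
      have h4 : ((p : ℝ) ^ n) = (D : ℝ) := by rw [hD]; push_cast; rfl
      rw [h4]
      linarith
    · refine hcr.trans (measure_mono ?_)
      refine branchSpread_subset hDpos hRpos ?_ ?_ (ηs k)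
      · rw [le_div_iff₀ hRR]
        rw [le_div_iff₀ (by positivity)] at hfle
        linarith
      · push_cast
        rw [div_le_iff₀ (by positivity)]
        rw [div_le_iff₀ hρ0] at h2R'
        linarith
  choose n R hRpos hqR hcN using hex
  have hKpos : ∀ k, 0 < p ^ (n k) := fun k => pow_pos hp0 _
  have hsmp : ∀ i, MeasurePreserving (fun x : UnitAddCircle => (q ^ i) • x) μ μ := mp_pow hμq
  have hW0 : ∀ k i, 0 ≤ wtD μ (p ^ (n k)) (R k) (i / 2) := fun k i => wtD_nonneg _ _ _ _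
  have hWsum : ∀ k, ∑ i ∈ Finset.range (R k * 2), wtD μ (p ^ (n k)) (R k) (i / 2) ≤ 6 := by
    intro k
    rw [sum_half]
    linarith [sum_wtD μ (p ^ (n k)) (R k)]
  refine smul_volume_le_of_fourier
    (fun k => avg μ (branchCell μ (p ^ (n k)) (R k) (ηs k)) (p ^ (n k)) (fun i => q ^ i))
    (fun k => avg_le _ (hKpos k) hsmp) (fun k => ?_) ?_
  · rw [avg_univ _ (hKpos k)]
    exact hcN k
  · intro a ha
    have hbound : ∀ k l : ℕ,
        ‖∫ x, (fourier a x : ℂ) ∂(avg μ (branchCell μ (p ^ (n k)) (R k) (ηs k)) (p ^ (n k))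
          (fun i => q ^ i))‖ ≤
        2 * Real.pi * |(a : ℝ)| * (1 / (l + 1 : ℕ)) +
        √((1 / ((k : ℝ) + 1)) * (2 * (C * |(a : ℝ)|)) * (l + 1 : ℕ) * 6) := by
      intro k l
      rw [integral_avg]
      exact pwindow_est hp hq hC (by have := hRpos k; positivity) (Nat.succ_pos l) (hqR k) μ
        (measurableSet_branchCell _ _ _ _) (ηs k).2 (hW0 k) (hWsum k) (fun x hx => hx) ha
    rw [Metric.tendsto_atTop]
    intro ε hε
    obtain ⟨l, hl⟩ : ∃ l : ℕ, 2 * Real.pi * |(a : ℝ)| * (1 / ((l + 1 : ℕ) : ℝ)) < ε / 2 := by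
      have h1 : Tendsto (fun l : ℕ => 2 * Real.pi * |(a : ℝ)| * (1 / ((l : ℝ) + 1))) atTop
          (𝓝 (2 * Real.pi * |(a : ℝ)| * 0)) :=
        tendsto_one_div_add_atTop_nhds_zero_nat.const_mul _
      rw [mul_zero] at h1
      obtain ⟨l, hl⟩ := ((tendsto_order.1 h1).2 (ε / 2) (by positivity)).exists
      exact ⟨l, by push_cast; exact hl⟩
    have h2 : Tendsto (fun k : ℕ =>
        √((1 / ((k : ℝ) + 1)) * (2 * (C * |(a : ℝ)|)) * (l + 1 : ℕ) * 6))
        atTop (𝓝 √(0 * (2 * (C * |(a : ℝ)|)) * (l + 1 : ℕ) * 6)) := by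
      apply (Real.continuous_sqrt.tendsto _).comp
      exact ((tendsto_one_div_add_atTop_nhds_zero_nat.mul_const _).mul_const _).mul_const _
    rw [zero_mul, zero_mul, zero_mul, Real.sqrt_zero] at h2
    obtain ⟨k₀, hk₀⟩ := ((tendsto_order.1 h2).2 (ε / 2) (by positivity)).exists_forall_of_atTop
    refine ⟨k₀, fun k hk => ?_⟩
    rw [dist_zero_right]
    have h6 := hk₀ k hk
    have h9 := hbound k l
    linarith

end Pool.Agent.H.MP_96e181_an
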