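import Mathlib
import Pool.Agent.H.MP_96e181_an.NonLac
import Pool.Agent.H.MP_96e181_an.Digits

set_option autoImplicit false

namespace Pool.Agent.H.MP_96e181_an

open Filter Topology Set

/-- Closed sets mapped into themselves by multiplication by `p` and by `q`. -/
structure ClInv (p q : ℕ) (A : Set UnitAddCircle) : Prop where
  closed : IsClosed A
  mp : ∀ x ∈ A, p • x ∈ A
  mq : ∀ x ∈ A, q • x ∈ A

theorem ClInv.pow_p {p q : ℕ} {A : Set UnitAddCircle} (h : ClInv p q A) (k : ℕ) :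
    ∀ x ∈ A, p ^ k • x ∈ A := by
  induction k with
  | zero => intro x hx; simpa using hx
  | succ k ih => intro x hx; rw [pow_succ, mul_smul]; exact ih _ (h.mp x hx)

theorem ClInv.pow_q {p q : ℕ} {A : Set UnitAddCircle} (h : ClInv p q A) (k : ℕ) :
    ∀ x ∈ A, q ^ k • x ∈ A := by
  induction k with
  | zero => intro x hx; simpa using hx
  | succ k ih => intro x hx; rw [pow_succ, mul_smul]; exact ih _ (h.mq x hx)

theorem ClInv.sg {p q : ℕ} {A : Set UnitAddCircle} (h : ClInv p q A) (i j : ℕ) :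
    ∀ x ∈ A, (p ^ i * q ^ j) • x ∈ A := by
  intro x hx
  rw [mul_smul]
  exact h.pow_p i _ (h.pow_q j x hx)

theorem coe_nsmul_real (s : ℕ) (u : ℝ) :
    s • ((u : ℝ) : UnitAddCircle) = (((s : ℝ) * u : ℝ) : UnitAddCircle) := by
  rw [← nsmul_eq_mul]; rfl

theorem dist_coe_le (u v : ℝ) : dist (u : UnitAddCircle) (v : UnitAddCircle) ≤ |u - v| := by
  rw [dist_eq_norm, ← AddCircle.coe_sub]
  refine UnitAddCircle.norm_eq.le.trans ?_
  simpa using round_le (u - v) 0

/-- A real lift of absolute value equal to the norm. -/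
theorem exists_lift (x : UnitAddCircle) : ∃ u : ℝ, (u : UnitAddCircle) = x ∧ |u| = ‖x‖ := by
  refine ⟨rep x - round (rep x), ?_, ?_⟩
  · rw [AddCircle.coe_sub, coe_rep]
    have : (((round (rep x) : ℤ) : ℝ) : UnitAddCircle) = 0 := by
      rw [AddCircle.coe_eq_zero_iff]
      exact ⟨round (rep x), by simp⟩
    rw [this, sub_zero]
  · conv_rhs => rw [← coe_rep x]
    exact UnitAddCircle.norm_eq.symm

theorem norm_nsmul_of_small {n : ℕ} {x : UnitAddCircle} (h : (n : ℝ) * ‖x‖ ≤ 1 / 2) :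
    ‖n • x‖ = n * ‖x‖ := by
  obtain ⟨u, hu, hux⟩ := exists_lift x
  rw [← hux, ← hu, coe_nsmul_real]
  have h1 : |(n : ℝ) * u| ≤ |(1:ℝ)| / 2 := by
    rw [abs_mul, Nat.abs_cast, hux, abs_one]; exact h
  rw [(AddCircle.norm_coe_eq_abs_iff (1:ℝ) one_ne_zero).2 h1, abs_mul, Nat.abs_cast]

/-- Step 1. -/
theorem eq_univ_of_acc_zero {p q : ℕ} (hp : 2 ≤ p) (hq : 2 ≤ q)
    (h : Irrational (Real.log (p : ℝ) / Real.log (q : ℝ))) {A : Set UnitAddCircle}
    (hA : ClInv p q A) (hacc : ∀ ε > 0, ∃ x ∈ A, x ≠ 0 ∧ ‖x‖ < ε) : A = univ := by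
  rw [← hA.closed.closure_eq]
  rw [← dense_iff_closure_eq, Metric.dense_iff]
  intro y ε hε
  obtain ⟨Y, hY1, hY⟩ := nonlac hp hq h (ε := ε / 4) (by positivity)
  have hY0 : 0 < Y := by linarith
  obtain ⟨x, hxA, hx0, hxs⟩ := hacc (1 / Y) (by positivity)
  obtain ⟨u, hu, hux⟩ := exists_lift x
  have hu0 : u ≠ 0 := by
    rintro rfl
    apply hx0
    rw [← hu]; simp
  have habs : 0 < |u| := abs_pos.2 hu0
  have huY : |u| < 1 / Y := by rw [hux]; exact hxs
  -- target
  obtain ⟨t, ht1, ht2, hty, htu⟩ : ∃ t : ℝ, 1 ≤ |t| ∧ |t| ≤ 2 ∧ (t : UnitAddCircle) = y ∧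
      0 < t / u := by
    rcases lt_or_gt_of_ne hu0 with hneg | hpos
    · refine ⟨rep y - 2, ?_, ?_, ?_, ?_⟩
      · rw [abs_of_neg (by linarith [rep_lt_one y])]; linarith [rep_lt_one y]
      · rw [abs_of_neg (by linarith [rep_lt_one y])]; linarith [rep_nonneg y]
      · rw [AddCircle.coe_sub, coe_rep]
        have : ((2 : ℝ) : UnitAddCircle) = 0 := by
          rw [AddCircle.coe_eq_zero_iff]
          exact ⟨2, by simp⟩
        rw [this, sub_zero]
      · exact div_pos_of_neg_of_neg (by linarith [rep_lt_one y]) hneg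
    · refine ⟨rep y + 1, ?_, ?_, ?_, ?_⟩
      · rw [abs_of_pos (by linarith [rep_nonneg y])]; linarith [rep_nonneg y]
      · rw [abs_of_pos (by linarith [rep_nonneg y])]; linarith [rep_lt_one y]
      · rw [AddCircle.coe_add, coe_rep]
        have : ((1 : ℝ) : UnitAddCircle) = 0 := by
          rw [AddCircle.coe_eq_zero_iff]
          exact ⟨1, by simp⟩
        rw [this, add_zero]
      · exact div_pos (by linarith [rep_nonneg y]) hpos
  have htuabs : t / u = |t| / |u| := by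
    rw [← abs_div, abs_of_pos htu]
  have hbig : Y ≤ t / u := by
    rw [htuabs, le_div_iff₀ habs]
    rw [lt_div_iff₀ hY0] at huY
    linarith
  obtain ⟨i, j, h1, h2⟩ := hY _ hbig
  refine ⟨(p ^ i * q ^ j) • x, ?_, hA.sg i j x hxA⟩
  rw [Metric.mem_ball, ← hty, ← hu, coe_nsmul_real]
  refine (dist_coe_le _ _).trans_lt ?_
  set s : ℝ := ((p ^ i * q ^ j : ℕ) : ℝ) with hs
  have h3 : s * u - t = (s - t / u) * u := by field_simp
  rw [h3, abs_mul, abs_of_nonneg (by linarith)]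
  have h4 : (s - t / u) * |u| ≤ (ε / 4 * (t / u)) * |u| :=
    mul_le_mul_of_nonneg_right (by linarith) habs.le
  have h5 : (ε / 4 * (t / u)) * |u| = ε / 4 * |t| := by
    rw [htuabs]; field_simp
  have h6 : ε / 4 * |t| ≤ ε / 4 * 2 := mul_le_mul_of_nonneg_left ht2 (by positivity)
  linarith

/-- A point with distinct multiples. -/
theorem infinite_of_not_torsion {p q : ℕ} (hp : 2 ≤ p) {B : Set UnitAddCircle}
    (hB : ClInv p q B) (hne : B.Nonempty) (ht : ∀ x ∈ B, ¬ IsOfFinAddOrder x) : B.Infinite := by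
  obtain ⟨x, hx⟩ := hne
  have hinj : Function.Injective (fun k : ℕ => p ^ k • x) := by
    intro k l hkl
    have h1 : Function.Injective (fun n : ℕ => n • x) :=
      injective_nsmul_iff_not_isOfFinAddOrder.2 (ht x hx)
    exact Nat.pow_right_injective hp (h1 hkl)
  exact Set.infinite_of_injective_forall_mem hinj (fun k => hB.pow_p k x hx)

/-- Two distinct nearby points in an infinite closed set. -/
theorem exists_close {B : Set UnitAddCircle} (hcl : IsClosed B) (hinf : B.Infinite) {ε : ℝ}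
    (hε : 0 < ε) : ∃ x ∈ B, ∃ y ∈ B, x ≠ y ∧ dist x y < ε := by
  obtain ⟨z, hz⟩ := hinf.exists_accPt_principal
  have hzB : z ∈ B := hcl.closure_subset_iff.2 (subset_refl B) (mem_closure_iff_clusterPt.2 hz.clusterPt)
  rw [accPt_iff_nhds] at hz
  obtain ⟨y, ⟨hy1, hy2⟩, hyz⟩ := hz (Metric.ball z ε) (Metric.ball_mem_nhds z hε)
  exact ⟨y, hy2, z, hzB, hyz, Metric.mem_ball.1 hy1⟩

/-- The difference set of an invariant closed set without torsion is everything. -/
theorem diff_all {p q : ℕ} (hp : 2 ≤ p) (hq : 2 ≤ q)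
    (h : Irrational (Real.log (p : ℝ) / Real.log (q : ℝ))) {B : Set UnitAddCircle}
    (hB : ClInv p q B) (hne : B.Nonempty) (ht : ∀ x ∈ B, ¬ IsOfFinAddOrder x)
    (t : UnitAddCircle) : ∃ x ∈ B, x + t ∈ B := by
  set D : Set UnitAddCircle := (fun z : UnitAddCircle × UnitAddCircle => z.2 - z.1) '' (B ×ˢ B)
    with hD
  have hDinv : ClInv p q D := by
    refine ⟨?_, ?_, ?_⟩
    · have hc : IsCompact (B ×ˢ B) := (hB.closed.isCompact).prod (hB.closed.isCompact)
      exact (hc.image (by fun_prop)).isClosed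
    · rintro _ ⟨⟨x, y⟩, ⟨hx, hy⟩, rfl⟩
      exact ⟨(p • x, p • y), ⟨hB.mp x hx, hB.mp y hy⟩, by simp [smul_sub]⟩
    · rintro _ ⟨⟨x, y⟩, ⟨hx, hy⟩, rfl⟩
      exact ⟨(q • x, q • y), ⟨hB.mq x hx, hB.mq y hy⟩, by simp [smul_sub]⟩
  have hacc : ∀ ε > 0, ∃ x ∈ D, x ≠ 0 ∧ ‖x‖ < ε := by
    intro ε hε
    obtain ⟨x, hx, y, hy, hxy, hd⟩ := exists_close hB.closed
      (infinite_of_not_torsion hp hB hne ht) hε
    refine ⟨x - y, ⟨(y, x), ⟨hy, hx⟩, rfl⟩, sub_ne_zero.2 hxy, ?_⟩
    rwa [← dist_eq_norm]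
  have hDu := eq_univ_of_acc_zero hp hq h hDinv hacc
  have : t ∈ D := by rw [hDu]; trivial
  obtain ⟨⟨x, y⟩, ⟨hx, hy⟩, hxy⟩ := this
  refine ⟨x, hx, ?_⟩
  have : x + t = y := by rw [← hxy]; simp
  rwa [this]

theorem iter_all {p q : ℕ} (hp : 2 ≤ p) (hq : 2 ≤ q)
    (h : Irrational (Real.log (p : ℝ) / Real.log (q : ℝ))) {B : Set UnitAddCircle}
    (hB : ClInv p q B) (hne : B.Nonempty) (ht : ∀ x ∈ B, ¬ IsOfFinAddOrder x)
    {t : UnitAddCircle} (htp : p • t = t) (htq : q • t = t) (n : ℕ) :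
    ∃ C : Set UnitAddCircle, ClInv p q C ∧ C.Nonempty ∧ C ⊆ B ∧
      ∀ x ∈ C, ∀ i ≤ n, x + i • t ∈ B := by
  induction n with
  | zero =>
    refine ⟨B, hB, hne, subset_refl B, fun x hx i hi => ?_⟩
    have : i = 0 := by omega
    subst this; simpa using hx
  | succ n ih =>
    obtain ⟨C, hC, hCne, hCB, hCi⟩ := ih
    obtain ⟨x, hx, hxt⟩ := diff_all hp hq h hC hCne (fun x hx => ht x (hCB hx)) t
    refine ⟨C ∩ {x | x + t ∈ C}, ⟨?_, ?_, ?_⟩, ⟨x, hx, hxt⟩, fun x hx => hCB hx.1, ?_⟩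
    · exact hC.closed.inter (hC.closed.preimage (by fun_prop : Continuous (fun x => x + t)))
    · rintro x ⟨hx, hxt⟩
      refine ⟨hC.mp x hx, ?_⟩
      have := hC.mp _ hxt
      rwa [smul_add, htp] at this
    · rintro x ⟨hx, hxt⟩
      refine ⟨hC.mq x hx, ?_⟩
      have := hC.mq _ hxt
      rwa [smul_add, htq] at this
    · rintro x ⟨hx, hxt⟩ i hi
      rcases Nat.eq_zero_or_pos i with rfl | hi0
      · simpa using hCB hx
      · have := hCi (x + t) hxt (i - 1) (by omega)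
        have e : x + t + (i - 1) • t = x + i • t := by
          conv_rhs => rw [show i = 1 + (i - 1) by omega, add_smul, one_smul]
          abel
        rwa [e] at this

theorem log_pow_ratio {p q : ℕ} (h : Irrational (Real.log (p : ℝ) / Real.log (q : ℝ))) {k : ℕ}
    (hk : 0 < k) : Irrational (Real.log ((p ^ k : ℕ) : ℝ) / Real.log ((q ^ k : ℕ) : ℝ)) := by
  have hk' : (k : ℝ) ≠ 0 := by positivity
  push_cast
  rw [Real.log_pow, Real.log_pow, mul_div_mul_left _ _ hk']
  exact h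

theorem nsmul_inv_of_modEq {P N : ℕ} (hN : 0 < N) (hP : P ≡ 1 [MOD N]) :
    P • ((1 / N : ℝ) : UnitAddCircle) = ((1 / N : ℝ) : UnitAddCircle) := by
  have hN' : (N : ℝ) ≠ 0 := by positivity
  rw [coe_nsmul_real, ← sub_eq_zero, ← AddCircle.coe_sub, AddCircle.coe_eq_zero_iff]
  obtain ⟨c, hc⟩ := (Nat.modEq_iff_dvd.1 hP.symm)
  refine ⟨c, ?_⟩
  have hc' : (P : ℝ) - 1 = N * c := by exact_mod_cast hc
  simp only [zsmul_eq_mul, mul_one]
  field_simp
  linarith

/-- Every nonempty closed invariant set contains a torsion point. -/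
theorem exists_torsion {p q : ℕ} (hp : 2 ≤ p) (hq : 2 ≤ q)
    (h : Irrational (Real.log (p : ℝ) / Real.log (q : ℝ))) {A : Set UnitAddCircle}
    (hA : ClInv p q A) (hne : A.Nonempty) : ∃ x ∈ A, IsOfFinAddOrder x := by
  by_contra hcon
  push Not at hcon
  have h0 : (0 : UnitAddCircle) ∉ A := fun h0 => hcon 0 h0 IsOfFinAddOrder.zero
  obtain ⟨ε, hε, hball⟩ := Metric.isOpen_iff.1 hA.closed.isOpen_compl 0 h0
  obtain ⟨m, hm⟩ := exists_nat_gt (1 / ε)
  set N : ℕ := (m + 1) * (p * q) + 1 with hN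
  have hNpos : 0 < N := by omega
  have hNR : (0:ℝ) < N := by exact_mod_cast hNpos
  have hpN : Nat.Coprime p N := by
    rw [hN, show (m + 1) * (p * q) + 1 = p * ((m + 1) * q) + 1 by ring]
    simp
  have hqN : Nat.Coprime q N := by
    rw [hN, show (m + 1) * (p * q) + 1 = q * ((m + 1) * p) + 1 by ring]
    simp
  set k : ℕ := Nat.totient N with hk
  have hkpos : 0 < k := Nat.totient_pos.2 hNpos
  have hP1 : p ^ k ≡ 1 [MOD N] := Nat.ModEq.pow_totient hpN
  have hQ1 : q ^ k ≡ 1 [MOD N] := Nat.ModEq.pow_totient hqN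
  have hP2 : 2 ≤ p ^ k := le_trans hp (Nat.le_self_pow (by omega) p)
  have hQ2 : 2 ≤ q ^ k := le_trans hq (Nat.le_self_pow (by omega) q)
  have hA' : ClInv (p ^ k) (q ^ k) A := ⟨hA.closed, hA.pow_p k, hA.pow_q k⟩
  obtain ⟨C, hC, ⟨x, hx⟩, hCA, hCi⟩ := iter_all hP2 hQ2 (log_pow_ratio h hkpos) hA' hne hcon
    (nsmul_inv_of_modEq hNpos hP1) (nsmul_inv_of_modEq hNpos hQ1) N
  -- choose the right multiple
  set i : ℕ := ⌈(N : ℝ) * (1 - rep x)⌉₊ with hi
  have hi0 : 0 ≤ (N : ℝ) * (1 - rep x) := mul_nonneg hNR.le (by linarith [rep_lt_one x])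
  have hi1 : (N : ℝ) * (1 - rep x) ≤ i := Nat.le_ceil _
  have hi2 : (i : ℝ) < (N : ℝ) * (1 - rep x) + 1 := Nat.ceil_lt_add_one hi0
  have hiN : i ≤ N := by
    rw [hi, Nat.ceil_le]
    nlinarith [rep_nonneg x]
  have hmem := hCi x hx i hiN
  have hdist : dist (x + i • ((1 / N : ℝ) : UnitAddCircle)) 0 < ε := by
    rw [coe_nsmul_real]
    nth_rewrite 1 [← coe_rep x]
    rw [← AddCircle.coe_add]
    have e0 : (0 : UnitAddCircle) = ((1 : ℝ) : UnitAddCircle) := by
      symm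
      rw [AddCircle.coe_eq_zero_iff]
      exact ⟨1, by simp⟩
    rw [e0]
    refine (dist_coe_le _ _).trans_lt ?_
    have e1 : rep x + (i : ℝ) * (1 / N) - 1 = (i - N * (1 - rep x)) / N := by
      field_simp
      ring
    rw [e1, abs_of_nonneg (div_nonneg (by linarith) hNR.le), div_lt_iff₀ hNR]
    have e2 : 1 < ε * N := by
      have h3 : (m : ℝ) < N := by
        have : m < N := by
          rw [hN]
          have : 1 ≤ p * q := Nat.mul_pos (by omega) (by omega)
          nlinarith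
        exact_mod_cast this
      rw [div_lt_iff₀ hε] at hm
      nlinarith
    linarith
  exact hball (Metric.mem_ball.2 hdist) hmem

/-- Furstenberg's theorem: an infinite closed invariant set is the whole circle. -/
theorem furstenberg {p q : ℕ} (hp : 2 ≤ p) (hq : 2 ≤ q)
    (h : Irrational (Real.log (p : ℝ) / Real.log (q : ℝ))) {A : Set UnitAddCircle}
    (hA : ClInv p q A) (hinf : A.Infinite) : A = univ := by
  -- derived set
  set A' : Set UnitAddCircle := {z | ∀ ε > 0, ∃ x ∈ A, x ≠ z ∧ dist x z < ε} with hA'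
  have hmul : ∀ n : ℕ, 0 < n → (∀ x ∈ A, n • x ∈ A) → ∀ z ∈ A', n • z ∈ A' := by
    intro n hn hnA z hz ε hε
    have hnR : (0:ℝ) < n := by exact_mod_cast hn
    obtain ⟨x, hx, hxz, hd⟩ := hz (min (ε / n) (1 / (2 * n))) (by positivity)
    refine ⟨n • x, hnA x hx, ?_, ?_⟩
    · intro heq
      have h1 : n • (x - z) = 0 := by rw [smul_sub, heq, sub_self]
      have h2 : ‖n • (x - z)‖ = n * ‖x - z‖ := by
        apply norm_nsmul_of_small
        rw [dist_eq_norm] at hd
        have h3 : ‖x - z‖ < 1 / (2 * n) := lt_of_lt_of_le hd (min_le_right _ _)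
        rw [lt_div_iff₀ (by positivity)] at h3
        linarith
      rw [h1, norm_zero] at h2
      have h3 : ‖x - z‖ = 0 := by
        rcases mul_eq_zero.1 h2.symm with h4 | h4
        · exact absurd h4 hnR.ne'
        · exact h4
      exact hxz (sub_eq_zero.1 (norm_eq_zero.1 h3))
    · rw [dist_eq_norm, ← smul_sub]
      refine (norm_nsmul_le).trans_lt ?_
      rw [dist_eq_norm] at hd
      have h3 : ‖x - z‖ < ε / n := lt_of_lt_of_le hd (min_le_left _ _)
      rw [lt_div_iff₀ hnR] at h3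
      linarith
  have hA'inv : ClInv p q A' := by
    refine ⟨?_, hmul p (by omega) hA.mp, hmul q (by omega) hA.mq⟩
    rw [← closure_subset_iff_isClosed]
    intro z hz ε hε
    rw [Metric.mem_closure_iff] at hz
    obtain ⟨w, hw, hwz⟩ := hz (ε / 2) (by positivity)
    by_cases hzw : w = z
    · subst hzw
      exact hw ε hε
    · have hpos : 0 < dist z w := dist_pos.2 (fun h => hzw h.symm)
      obtain ⟨x, hx, hxw, hd⟩ := hw (min (ε / 2) (dist z w)) (by positivity)
      refine ⟨x, hx, ?_, ?_⟩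
      · rintro rfl
        exact absurd (lt_of_lt_of_le hd (min_le_right _ _)) (lt_irrefl _)
      · calc dist x z ≤ dist x w + dist w z := dist_triangle _ _ _
          _ < ε / 2 + ε / 2 := by
            rw [dist_comm w z]
            exact add_lt_add (lt_of_lt_of_le hd (min_le_left _ _)) hwz
          _ = ε := by ring
  have hA'ne : A'.Nonempty := by
    obtain ⟨z, hz⟩ := hinf.exists_accPt_principal
    refine ⟨z, fun ε hε => ?_⟩
    rw [accPt_iff_nhds] at hz
    obtain ⟨y, ⟨hy1, hy2⟩, hyz⟩ := hz (Metric.ball z ε) (Metric.ball_mem_nhds z hε)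
    exact ⟨y, hy2, hyz, Metric.mem_ball.1 hy1⟩
  obtain ⟨r, hr, hrt⟩ := exists_torsion hp hq h hA'inv hA'ne
  obtain ⟨n, hn, hnr⟩ := isOfFinAddOrder_iff_nsmul_eq_zero.1 hrt
  have hnR : (0:ℝ) < n := by exact_mod_cast hn
  -- n • A is everything
  set C : Set UnitAddCircle := (fun x : UnitAddCircle => n • x) '' A with hC
  have hCinv : ClInv p q C := by
    refine ⟨(hA.closed.isCompact.image (continuous_nsmul n)).isClosed, ?_, ?_⟩
    · rintro _ ⟨x, hx, rfl⟩
      exact ⟨p • x, hA.mp x hx, by simp only [← mul_smul, mul_comm]⟩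
    · rintro _ ⟨x, hx, rfl⟩
      exact ⟨q • x, hA.mq x hx, by simp only [← mul_smul, mul_comm]⟩
  have hCu : C = univ := by
    apply eq_univ_of_acc_zero hp hq h hCinv
    intro ε hε
    obtain ⟨x, hx, hxz, hd⟩ := hr (min (ε / n) (1 / (2 * n))) (by positivity)
    have e : n • x = n • (x - r) := by rw [smul_sub, hnr, sub_zero]
    rw [dist_eq_norm] at hd
    have h2 : ‖n • (x - r)‖ = n * ‖x - r‖ := by
      apply norm_nsmul_of_small
      have h3 : ‖x - r‖ < 1 / (2 * n) := lt_of_lt_of_le hd (min_le_right _ _)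
      rw [lt_div_iff₀ (by positivity)] at h3
      linarith
    refine ⟨n • x, ⟨x, hx, rfl⟩, ?_, ?_⟩
    · intro h0
      rw [← e, h0, norm_zero] at h2
      rcases mul_eq_zero.1 h2.symm with h4 | h4
      · exact absurd h4 hnR.ne'
      · exact hxz (sub_eq_zero.1 (norm_eq_zero.1 h4))
    · rw [e, h2]
      have h3 : ‖x - r‖ < ε / n := lt_of_lt_of_le hd (min_le_left _ _)
      rw [lt_div_iff₀ hnR] at h3
      linarith
  -- Baire
  have hfin : {w : UnitAddCircle | n • w = 0}.Finite := AddCircle.finite_torsion (1:ℝ) hn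
  have hcount : Countable {w : UnitAddCircle | n • w = 0} := hfin.countable.to_subtype
  have hcover : (⋃ w : {w : UnitAddCircle | n • w = 0}, (fun x => x - w.1) ⁻¹' A) = univ := by
    rw [eq_univ_iff_forall]
    intro z
    have hz : n • z ∈ C := by rw [hCu]; trivial
    obtain ⟨x, hx, hxz⟩ := hz
    rw [mem_iUnion]
    refine ⟨⟨z - x, ?_⟩, ?_⟩
    · change n • (z - x) = 0
      rw [smul_sub]
      exact sub_eq_zero.2 hxz.symm
    · change z - (z - x) ∈ A
      rwa [sub_sub_cancel]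
  obtain ⟨w, y, hy⟩ := nonempty_interior_of_iUnion_of_closed
    (fun w : {w : UnitAddCircle | n • w = 0} =>
      hA.closed.preimage (by fun_prop : Continuous (fun x => x - w.1))) hcover
  rw [mem_interior_iff_mem_nhds, Metric.mem_nhds_iff] at hy
  obtain ⟨ε, hε, hball⟩ := hy
  set x₀ : UnitAddCircle := y - w.1 with hx₀
  have hballA : Metric.ball x₀ ε ⊆ A := by
    intro z hz
    have h1 : z + w.1 ∈ Metric.ball y ε := by
      rw [Metric.mem_ball, dist_eq_norm] at hz ⊢
      have : z + w.1 - y = z - x₀ := by rw [hx₀]; abel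
      rwa [this]
    have h2 := hball h1
    simpa using h2
  -- expand
  obtain ⟨k, hk⟩ := exists_nat_gt (1 / ε)
  have hpk : (1 / ε) < ((p ^ k : ℕ) : ℝ) := by
    refine hk.trans ?_
    exact_mod_cast Nat.lt_pow_self (by omega : 1 < p)
  rw [eq_univ_iff_forall]
  intro z
  -- find a preimage of z in the ball
  set P : ℕ := p ^ k with hPdef
  have hPpos : (0:ℝ) < P := lt_trans (by positivity) hpk
  obtain ⟨v, hv, -⟩ := exists_lift x₀
  obtain ⟨t, ht, -⟩ := exists_lift z
  -- m with |(t + m)/P - v| < ε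
  set m : ℤ := ⌈(P : ℝ) * v - t⌉ with hm
  have hm1 : (P : ℝ) * v - t ≤ m := Int.le_ceil _
  have hm2 : (m : ℝ) < (P : ℝ) * v - t + 1 := Int.ceil_lt_add_one _
  have hmem : (((t + m) / P : ℝ) : UnitAddCircle) ∈ A := by
    apply hballA
    rw [Metric.mem_ball, ← hv]
    refine (dist_coe_le _ _).trans_lt ?_
    have e1 : (t + m) / P - v = (m - (P * v - t)) / P := by
      field_simp
      ring
    rw [e1, abs_of_nonneg (div_nonneg (by linarith) hPpos.le), div_lt_iff₀ hPpos]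
    rw [div_lt_iff₀ hε] at hpk
    linarith
  have hfinal := hA.pow_p k _ hmem
  rw [← hPdef, coe_nsmul_real] at hfinal
  have e2 : (P : ℝ) * ((t + m) / P) = t + m := by field_simp
  rw [e2, AddCircle.coe_add, ht] at hfinal
  have e3 : (((m : ℤ) : ℝ) : UnitAddCircle) = 0 := by
    rw [AddCircle.coe_eq_zero_iff]
    exact ⟨m, by simp⟩
  rwa [e3, add_zero] at hfinal

end Pool.Agent.H.MP_96e181_an
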