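import Pool.Agent.H.MP_96e181_an.RandomFurstenberg

/-!
# Joint orbits of a typical point and a transitive point

Helper file for the problem MP_96e181_an.
-/

open MeasureTheory Filter Topology Set

namespace Pool.Agent.H.MP_96e181_an

variable {Y : Type*} [MetricSpace Y]

/-- closure of the joint orbit -/
def JO (q : ℕ) (S : Y → Y) (y : Y) (x : UnitAddCircle) : Set (UnitAddCircle × Y) :=
  closure (range fun n : ℕ => (q ^ n • x, S^[n] y))

lemma isClosed_JO (q : ℕ) (S : Y → Y) (y : Y) (x : UnitAddCircle) : IsClosed (JO q S y x) :=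
  isClosed_closure

lemma JO_step (q : ℕ) {S : Y → Y} (hS : Continuous S) (y : Y) (x : UnitAddCircle) :
    ∀ z ∈ JO q S y x, (q • z.1, S z.2) ∈ JO q S y x := by
  intro z hz
  have h : (fun z : UnitAddCircle × Y => (q • z.1, S z.2)) '' (JO q S y x) ⊆ JO q S y x := by
    refine (image_closure_subset_closure_image ?_).trans ?_
    · exact ((continuous_const_smul q).comp continuous_fst).prodMk (hS.comp continuous_snd)
    · refine closure_mono ?_
      rintro _ ⟨_, ⟨n, rfl⟩, rfl⟩
      refine ⟨n + 1, ?_⟩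
      simp only
      rw [pow_succ', mul_smul, Function.iterate_succ_apply']
  exact h ⟨z, hz, rfl⟩

lemma JO_iter (q : ℕ) {S : Y → Y} (hS : Continuous S) (y : Y) (x : UnitAddCircle) (u : ℕ) :
    ∀ z ∈ JO q S y x, (q ^ u • z.1, S^[u] z.2) ∈ JO q S y x := by
  induction u with
  | zero => intro z hz; simpa using hz
  | succ u ih =>
    intro z hz
    have := JO_step q hS y x _ (ih z hz)
    simp only at this
    rwa [← mul_smul, ← pow_succ', ← Function.iterate_succ_apply' S u z.2] at this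

lemma JO_smul (q P : ℕ) (S : Y → Y) (y : Y) (x : UnitAddCircle) :
    ∀ z ∈ JO q S y x, (P • z.1, z.2) ∈ JO q S y (P • x) := by
  intro z hz
  have h : (fun z : UnitAddCircle × Y => (P • z.1, z.2)) '' (JO q S y x) ⊆
      JO q S y (P • x) := by
    refine (image_closure_subset_closure_image ?_).trans ?_
    · exact ((continuous_const_smul P).comp continuous_fst).prodMk continuous_snd
    · refine closure_mono ?_
      rintro _ ⟨_, ⟨n, rfl⟩, rfl⟩
      refine ⟨n, ?_⟩
      simp only
      rw [← mul_smul, ← mul_smul, mul_comm]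
  exact h ⟨z, hz, rfl⟩

lemma mem_JO_of_tendsto {q : ℕ} {S : Y → Y} {y : Y} {x : UnitAddCircle}
    {w : ℕ → UnitAddCircle × Y} {ε : ℕ → ℝ} {w0 : UnitAddCircle × Y}
    (hε : Tendsto ε atTop (𝓝 0)) (hw : Tendsto w atTop (𝓝 w0))
    (h : ∀ k, ∃ n : ℕ, dist (q ^ n • x) (w k).1 < ε k ∧ dist (S^[n] y) (w k).2 < ε k) :
    w0 ∈ JO q S y x := by
  rw [JO, Metric.mem_closure_iff]
  intro δ hδ
  have h1 : ∀ᶠ k in atTop, dist (w k) w0 < δ / 2 := by
    have := (tendsto_iff_dist_tendsto_zero.1 hw)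
    exact this.eventually_lt_const (by positivity)
  have h2 : ∀ᶠ k in atTop, ε k < δ / 2 := hε.eventually_lt_const (by positivity)
  obtain ⟨k, hk1, hk2⟩ := (h1.and h2).exists
  obtain ⟨n, hn1, hn2⟩ := h k
  refine ⟨_, ⟨n, rfl⟩, ?_⟩
  simp only
  have h3 : dist (q ^ n • x, S^[n] y) (w k) < ε k := by
    rw [Prod.dist_eq]
    exact max_lt hn1 hn2
  calc dist w0 (q ^ n • x, S^[n] y) ≤ dist w0 (w k) + dist (w k) (q ^ n • x, S^[n] y) :=
        dist_triangle _ _ _
    _ = dist (w k) w0 + dist (q ^ n • x, S^[n] y) (w k) := by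
        rw [dist_comm w0, dist_comm (w k) (q ^ n • x, S^[n] y)]
    _ < δ := by linarith

/-- the fibre of the joint orbit closure over a point of `Y` -/
def Fib (q : ℕ) (S : Y → Y) (y r : Y) (x : UnitAddCircle) : Set UnitAddCircle :=
  {x' | (x', r) ∈ JO q S y x}

lemma rcs_Fib (q : ℕ) (S : Y → Y) (y r : Y) :
    RCS (Fib q S y r)
      (fun k => {z | ∃ n : ℕ, dist (q ^ n • z.1) z.2 < 1 / ((k : ℝ) + 1) ∧
        dist (S^[n] y) r < 1 / ((k : ℝ) + 1)}) where
  isOpen k := by
    have : {z : UnitAddCircle × UnitAddCircle | ∃ n : ℕ,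
        dist (q ^ n • z.1) z.2 < 1 / ((k : ℝ) + 1) ∧ dist (S^[n] y) r < 1 / ((k : ℝ) + 1)} =
        ⋃ n : ℕ, ⋃ _ : dist (S^[n] y) r < 1 / ((k : ℝ) + 1),
          {z | dist (q ^ n • z.1) z.2 < 1 / ((k : ℝ) + 1)} := by
      ext z
      simp only [mem_ofPred_eq, mem_iUnion, exists_prop]
      constructor
      · rintro ⟨n, h1, h2⟩; exact ⟨n, h2, h1⟩
      · rintro ⟨n, h1, h2⟩; exact ⟨n, h2, h1⟩
    rw [this]
    exact isOpen_iUnion fun n => isOpen_iUnion fun _ => isOpen_lt (by fun_prop) continuous_const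
  anti := by
    intro i j hij z hz
    have hle : 1 / ((j : ℝ) + 1) ≤ 1 / ((i : ℝ) + 1) :=
      one_div_le_one_div_of_le (by positivity) (by
        have : (i : ℝ) ≤ j := by exact_mod_cast hij
        linarith)
    obtain ⟨n, h1, h2⟩ := hz
    exact ⟨n, h1.trans_le hle, h2.trans_le hle⟩
  sub := by
    intro x x' k hx'
    have h : (x', r) ∈ JO q S y x := hx'
    rw [JO, Metric.mem_closure_iff] at h
    obtain ⟨_, ⟨n, rfl⟩, hn⟩ := h (1 / ((k : ℝ) + 1)) (by positivity)
    simp only at hn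
    rw [dist_comm, Prod.dist_eq] at hn
    exact ⟨n, (le_max_left _ _).trans_lt hn, (le_max_right _ _).trans_lt hn⟩
  lim := by
    intro x x' x0 h hlim
    show (x0, r) ∈ JO q S y x
    exact mem_JO_of_tendsto (w := fun k => (x' k, r)) tendsto_one_div_add_atTop_nhds_zero_nat
      (hlim.prodMk_nhds tendsto_const_nhds) h

/-- the set of points of infinite order -/
def NT : Set UnitAddCircle := {x | ∀ n : ℕ, 0 < n → n • x ≠ 0}

lemma measurableSet_NT : MeasurableSet NT := by
  have : NT = ⋂ n : ℕ, ⋂ _ : 0 < n, {x : UnitAddCircle | n • x = 0}ᶜ := by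
    ext x; simp [NT]
  rw [this]
  refine MeasurableSet.iInter fun n => MeasurableSet.iInter fun hn => ?_
  exact (AddCircle.finite_torsion 1 hn).measurableSet.compl

/-- the fibre contains a point of infinite order -/
lemma Fib_nontorsion {μ : Measure UnitAddCircle} [IsFiniteMeasure μ] [NullSingletonClass μ]
    {q : ℕ} (hμq : MeasurePreserving (fun x : UnitAddCircle => q • x) μ μ)
    {S : Y → Y} {y r : Y} (hr : r ∈ closure (range fun n : ℕ => S^[n] y)) :
    ∀ᵐ x ∂μ, ∃ x' ∈ Fib q S y r x, ∀ n : ℕ, 0 < n → n • x' ≠ 0 := by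
  -- a sequence of times
  have hseq : ∀ k : ℕ, ∃ n : ℕ, dist (S^[n] y) r < 1 / ((k : ℝ) + 1) := by
    intro k
    obtain ⟨_, ⟨n, rfl⟩, hn⟩ := Metric.mem_closure_iff.1 hr (1 / ((k : ℝ) + 1)) (by positivity)
    exact ⟨n, by rw [dist_comm]; exact hn⟩
  choose n hn using hseq
  -- it suffices to show that the exceptional set is contained in sets of small measure
  have hNTfull : μ univ = μ NT := by
    refine le_antisymm ?_ (measure_mono (subset_univ _))
    refine measure_mono_ae ?_
    filter_upwards [ae_not_torsion (μ := μ)] with x hx _ using hx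
  have key : ∀ ε : ENNReal, ε ≠ 0 →
      μ {x | ¬ ∃ x' ∈ Fib q S y r x, ∀ n : ℕ, 0 < n → n • x' ≠ 0} ≤ ε := by
    intro ε hε
    obtain ⟨K, hKNT, hKc, hKμ⟩ := measurableSet_NT.exists_isCompact_lt_add (μ := μ)
      (measure_ne_top _ _) hε
    have hKm : MeasurableSet K := hKc.measurableSet
    set A : ℕ → Set UnitAddCircle := fun j => (fun x : UnitAddCircle => q ^ (n j) • x) ⁻¹' K
      with hA
    have hAm : ∀ j, MeasurableSet (A j) := fun j => (mp_pow hμq (n j)).measurable hKm
    have hAμ : ∀ j, μ (A j) = μ K := fun j =>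
      (mp_pow hμq (n j)).measure_preimage hKm.nullMeasurableSet
    set B : ℕ → Set UnitAddCircle := fun N => ⋃ j ≥ N, A j with hB
    have hBanti : Antitone B := by
      intro N M hNM x hx
      simp only [hB, mem_iUnion] at hx ⊢
      obtain ⟨j, hj, hx⟩ := hx
      exact ⟨j, hNM.trans hj, hx⟩
    have hBm : ∀ N, MeasurableSet (B N) := fun N =>
      MeasurableSet.iUnion fun j => MeasurableSet.iUnion fun _ => hAm j
    have hlim := tendsto_measure_iInter_atTop (μ := μ) (fun N => (hBm N).nullMeasurableSet) hBanti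
      ⟨0, measure_ne_top _ _⟩
    have h1 : μ K ≤ μ (⋂ N, B N) := by
      refine ge_of_tendsto' hlim fun N => ?_
      rw [← hAμ N]
      exact measure_mono (subset_biUnion_of_mem (u := fun j => A j) (show N ≥ N from le_rfl))
    -- on the intersection, the fibre contains a nontorsion point
    have h2 : ∀ x ∈ ⋂ N, B N, ∃ x' ∈ Fib q S y r x, ∀ n : ℕ, 0 < n → n • x' ≠ 0 := by
      intro x hx
      have hfreq : ∀ N, ∃ j, N ≤ j ∧ x ∈ A j := by
        intro N
        have := mem_iInter.1 hx N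
        simp only [hB, mem_iUnion] at this
        obtain ⟨j, hj, hxj⟩ := this
        exact ⟨j, hj, hxj⟩
      choose j hj hxj using hfreq
      obtain ⟨a, haK, φ, hφ, hlim'⟩ := hKc.tendsto_subseq
        (x := fun N => q ^ (n (j N)) • x) hxj
      refine ⟨a, ?_, hKNT haK⟩
      show (a, r) ∈ JO q S y x
      have hε : Tendsto (fun k => 1 / ((φ k : ℝ) + 1)) atTop (𝓝 0) :=
        tendsto_one_div_add_atTop_nhds_zero_nat.comp hφ.tendsto_atTop
      refine mem_JO_of_tendsto (w := fun k => (q ^ (n (j (φ k))) • x, r)) hε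
        (hlim'.prodMk_nhds tendsto_const_nhds) fun k => ⟨n (j (φ k)), ?_, ?_⟩
      · simp only [dist_self]
        positivity
      · refine (hn (j (φ k))).trans_le ?_
        refine one_div_le_one_div_of_le (by positivity) ?_
        have : (φ k : ℝ) ≤ j (φ k) := by exact_mod_cast hj (φ k)
        linarith
    have h3 : {x | ¬ ∃ x' ∈ Fib q S y r x, ∀ n : ℕ, 0 < n → n • x' ≠ 0} ⊆ (⋂ N, B N)ᶜ := by
      intro x hx hx'
      exact hx (h2 x hx')
    refine (measure_mono h3).trans ?_
    have hIm : MeasurableSet (⋂ N, B N) := MeasurableSet.iInter hBm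
    rw [measure_compl hIm (measure_ne_top _ _), hNTfull, tsub_le_iff_right]
    calc μ NT ≤ μ K + ε := hKμ.le
      _ ≤ μ (⋂ N, B N) + ε := by gcongr
      _ = ε + μ (⋂ N, B N) := add_comm _ _
  rw [ae_iff]
  by_contra hne
  have h4 := key (μ {x | ¬ ∃ x' ∈ Fib q S y r x, ∀ n : ℕ, 0 < n → n • x' ≠ 0} / 2)
    (by simpa using hne)
  have h5 : μ {x | ¬ ∃ x' ∈ Fib q S y r x, ∀ n : ℕ, 0 < n → n • x' ≠ 0} ≠ ⊤ :=
    measure_ne_top _ _
  exact absurd h4 (not_le.2 (ENNReal.half_lt_self hne h5))

/-- **Joint orbits.** Let `S` be a continuous self-map of a separable metric space with dense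
periodic points and let `y` have dense orbit. If `μ` is an atomless measure invariant under `p`
and `q`, then for `μ`-almost every `x` the joint orbit of `(x, y)` is dense. -/
theorem joint_orbit [TopologicalSpace.SeparableSpace Y] {μ : Measure UnitAddCircle}
    [IsFiniteMeasure μ] [NullSingletonClass μ] {p q : ℕ} (hp : 2 ≤ p) (hq : 2 ≤ q)
    (h : Irrational (Real.log p / Real.log q))
    (hμp : MeasurePreserving (fun x : UnitAddCircle => p • x) μ μ)
    (hμq : MeasurePreserving (fun x : UnitAddCircle => q • x) μ μ)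
    {S : Y → Y} (hS : Continuous S) (hper : Dense (Function.periodicPts S))
    {y : Y} (hy : Dense (range fun n : ℕ => S^[n] y)) :
    ∀ᵐ x ∂μ, Dense (range fun n : ℕ => (q ^ n • x, S^[n] y)) := by
  have hsc : SecondCountableTopology Y := UniformSpace.secondCountable_of_separable Y
  obtain ⟨D, hDsub, hDc, hDd⟩ := hper.exists_countable_dense_subset
  have h1 : ∀ᵐ x ∂μ, ∀ r ∈ D, Fib q S y r x = univ := by
    rw [ae_ball_iff hDc]
    intro r hr
    obtain ⟨u, hu, hur⟩ := hDsub hr
    have hur' : S^[u] r = r := hur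
    have hP : ∀ n : ℕ, ∀ x, ∀ x' ∈ Fib q S y r x, p ^ n • x' ∈ Fib q S y r (p ^ n • x) :=
      fun n x x' hx' => JO_smul q (p ^ n) S y x (x', r) hx'
    have hQ : ∀ x, ∀ x' ∈ Fib q S y r x, q ^ u • x' ∈ Fib q S y r x := by
      intro x x' hx'
      have := JO_iter q hS y x u (x', r) hx'
      simp only [hur'] at this
      exact this
    have hrf := random_furstenberg (rcs_Fib q S y r) (hp.trans (Nat.le_self_pow hu.ne' p))
      (hq.trans (Nat.le_self_pow hu.ne' q)) (irr_pow h hu.ne') (mp_pow hμp u) hQ (hP u)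
    have hnt := Fib_nontorsion (μ := μ) hμq (y := y) (r := r) (S := S) (by
      rw [hy.closure_eq]; trivial)
    filter_upwards [hrf, hnt] with x hx1 hx2 using hx1 hx2
  filter_upwards [h1] with x hx
  have hsub : (univ : Set UnitAddCircle) ×ˢ D ⊆ JO q S y x := by
    rintro ⟨x', r⟩ ⟨-, hr⟩
    have : x' ∈ Fib q S y r x := by rw [hx r hr]; trivial
    exact this
  have hd : Dense ((univ : Set UnitAddCircle) ×ˢ D) := dense_univ.prod hDd
  have hd2 : Dense (JO q S y x) := hd.mono hsub
  have : JO q S y x = univ := (isClosed_JO q S y x).closure_eq ▸ hd2.closure_eq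
  rw [dense_iff_closure_eq]
  exact this

end Pool.Agent.H.MP_96e181_an
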