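import Pool.Agent.H.MP_96e181_an.JointOrbit

/-!
# Dense orbits for products

Helper file for the problem MP_96e181_an.
-/

open MeasureTheory Filter Topology Set

namespace Pool.Agent.H.MP_96e181_an

/-- coordinatewise multiplication -/
def SS {d : ℕ} (q : Fin d → ℕ) (y : Fin d → UnitAddCircle) : Fin d → UnitAddCircle :=
  fun i => q i • y i

lemma SS_iter {d : ℕ} (q : Fin d → ℕ) (n : ℕ) (y : Fin d → UnitAddCircle) :
    (SS q)^[n] y = fun i => q i ^ n • y i := by
  induction n with
  | zero => ext i; simp
  | succ n ih =>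
    rw [Function.iterate_succ_apply', ih]
    ext i
    simp only [SS]
    rw [pow_succ', mul_smul]

lemma continuous_SS {d : ℕ} (q : Fin d → ℕ) : Continuous (SS q) :=
  continuous_pi fun i => (continuous_const_smul (q i)).comp (continuous_apply i)

lemma dense_periodic {d : ℕ} {q : Fin d → ℕ} (hq : ∀ i, 2 ≤ q i) :
    Dense (Function.periodicPts (SS q)) := by
  intro y
  rw [Metric.mem_closure_iff]
  intro ε hε
  obtain ⟨k, hk⟩ := exists_nat_one_div_lt hε
  set t : ℕ := (∏ i, q i) * (k + 1) + 1 with ht
  have htpos : 0 < t := by omega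
  set τ : UnitAddCircle := ((1 / (t : ℝ) : ℝ) : UnitAddCircle) with hτ
  have hprod : 1 ≤ ∏ i, q i := Nat.one_le_iff_ne_zero.2
    (Finset.prod_ne_zero_iff.2 fun i _ => by have := hq i; omega)
  have hcop : ∀ i, Nat.Coprime (q i) t := by
    intro i
    obtain ⟨c, hc⟩ : q i ∣ ∏ i, q i := Finset.dvd_prod_of_mem q (Finset.mem_univ i)
    rw [ht, hc, mul_assoc]
    exact (Nat.coprime_mul_left_add_right (q i) 1 (c * (k + 1))).2 (Nat.coprime_one_right (q i))
  have hfix : ∀ i, q i ^ Nat.totient t • τ = τ := fun i =>
    tau_fixed htpos (Nat.ModEq.pow_totient (hcop i)) (Nat.one_le_pow _ _ (by have := hq i; omega))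
  have hex : ∀ i, ∃ l : ℕ, l ≤ t - 1 ∧ dist (y i) (0 + l • τ) ≤ 1 / t :=
    fun i => dense_progression htpos 0 (y i)
  choose l hl hdist using hex
  refine ⟨fun i => l i • τ, ?_, ?_⟩
  · refine ⟨Nat.totient t, Nat.totient_pos.2 htpos, ?_⟩
    show (SS q)^[Nat.totient t] _ = _
    rw [SS_iter]
    ext i
    rw [← mul_smul, mul_comm, mul_smul, hfix i]
  · refine (dist_pi_lt_iff hε).2 fun i => ?_
    have := hdist i
    rw [zero_add] at this
    refine this.trans_lt (lt_of_le_of_lt ?_ hk)
    refine one_div_le_one_div_of_le (by positivity) ?_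
    have : k + 1 ≤ t := by nlinarith
    exact_mod_cast this

/-- the event that the joint orbit is dense is measurable -/
lemma measurableSet_dense_orbit {X : Type*} [TopologicalSpace X] [SecondCountableTopology X]
    [MeasurableSpace X] [OpensMeasurableSpace X] {F : ℕ → X → X} (hF : ∀ n, Continuous (F n)) :
    MeasurableSet {x | Dense (range fun n : ℕ => F n x)} := by
  have hB := TopologicalSpace.isBasis_countableBasis X
  have : {x | Dense (range fun n : ℕ => F n x)} =
      ⋂ V ∈ TopologicalSpace.countableBasis X, ⋃ n : ℕ, (F n) ⁻¹' V := by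
    ext x
    simp only [mem_ofPred_eq, mem_iInter, mem_iUnion, mem_preimage]
    rw [hB.dense_iff]
    constructor
    · intro h V hV
      obtain ⟨_, hzV, ⟨n, rfl⟩⟩ := h V hV (TopologicalSpace.nonempty_of_mem_countableBasis hV)
      exact ⟨n, hzV⟩
    · intro h V hV _
      obtain ⟨n, hn⟩ := h V hV
      exact ⟨_, hn, ⟨n, rfl⟩⟩
  rw [this]
  refine MeasurableSet.biInter (TopologicalSpace.countable_countableBasis X) fun V hV => ?_
  exact (isOpen_iUnion fun n => (hB.isOpen hV).preimage (hF n)).measurableSet

/-- **Product theorem.** -/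
theorem product_orbit : ∀ (d : ℕ) (p q : Fin d → ℕ), (∀ i, 2 ≤ p i) → (∀ i, 2 ≤ q i) →
    (∀ i, Irrational (Real.log (p i : ℝ) / Real.log (q i : ℝ))) →
    ∀ μ : Fin d → Measure UnitAddCircle, (∀ i, IsProbabilityMeasure (μ i)) →
      (∀ i x, μ i {x} = 0) →
      (∀ i, MeasurePreserving (fun x : UnitAddCircle => p i • x) (μ i) (μ i)) →
      (∀ i, MeasurePreserving (fun x : UnitAddCircle => q i • x) (μ i) (μ i)) →
      ∀ᵐ x ∂(Measure.pi μ), Dense (range fun (n : ℕ) (i : Fin d) => q i ^ n • x i) := by
  intro d
  induction d with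
  | zero =>
    intro p q _ _ _ μ _ _ _ _
    refine Eventually.of_forall fun x => ?_
    have : (range fun (n : ℕ) (i : Fin 0) => q i ^ n • x i) = univ := by
      refine eq_univ_of_forall fun y => ⟨0, Subsingleton.elim _ _⟩
    rw [this]
    exact dense_univ
  | succ d ih =>
    intro p q hp hq hirr μ hμ hna hμp hμq
    have h0 : NullSingletonClass (μ 0) := ⟨hna 0⟩
    have ih' := ih (fun j => p ((0 : Fin (d + 1)).succAbove j))
      (fun j => q ((0 : Fin (d + 1)).succAbove j)) (fun j => hp _) (fun j => hq _)
      (fun j => hirr _) (fun j => μ ((0 : Fin (d + 1)).succAbove j)) (fun j => hμ _)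
      (fun j => hna _) (fun j => hμp _) (fun j => hμq _)
    set q' : Fin d → ℕ := fun j => q ((0 : Fin (d + 1)).succAbove j) with hq'
    set ν : Measure (Fin d → UnitAddCircle) :=
      Measure.pi (fun j => μ ((0 : Fin (d + 1)).succAbove j)) with hν
    -- the product statement
    have hprod : ∀ᵐ z ∂(ν.prod (μ 0)), Dense (range fun n : ℕ =>
        (((fun i => q' i ^ n • z.1 i) : Fin d → UnitAddCircle), q 0 ^ n • z.2)) := by
      rw [Measure.ae_prod_iff_ae_ae]
      · filter_upwards [ih'] with y hy
        have hjo := joint_orbit (μ := μ 0) (hp 0) (hq 0) (hirr 0) (hμp 0) (hμq 0)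
          (continuous_SS q') (dense_periodic (fun j => hq _)) (y := y) (by
            have : (range fun n : ℕ => (SS q')^[n] y) =
                range fun (n : ℕ) (i : Fin d) => q' i ^ n • y i := by
              congr 1
              ext n
              rw [SS_iter]
            rw [this]
            exact hy)
        filter_upwards [hjo] with x hx
        have hsw : DenseRange (Prod.swap : UnitAddCircle × (Fin d → UnitAddCircle) → _) :=
          Prod.swap_surjective.denseRange
        have := DenseRange.comp hsw hx continuous_swap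
        refine Dense.mono ?_ this
        rintro _ ⟨n, rfl⟩
        refine ⟨n, ?_⟩
        simp only [Function.comp, Prod.swap_prod_mk, SS_iter]
      · refine measurableSet_dense_orbit (F := fun n (z : (Fin d → UnitAddCircle) × UnitAddCircle) =>
          (((fun i => q' i ^ n • z.1 i) : Fin d → UnitAddCircle), q 0 ^ n • z.2)) fun n => ?_
        refine Continuous.prodMk ?_ ?_
        · refine continuous_pi fun i => ?_
          exact (continuous_const_smul _).comp ((continuous_apply i).comp continuous_fst)
        · exact (continuous_const_smul _).comp continuous_snd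
    have hprod' : ∀ᵐ z ∂((μ 0).prod ν), Dense (range fun n : ℕ =>
        (((fun i => q' i ^ n • z.2 i) : Fin d → UnitAddCircle), q 0 ^ n • z.1)) := by
      have hsw := Measure.measurePreserving_swap (μ := μ 0) (ν := ν)
      exact hsw.quasiMeasurePreserving.ae hprod
    have hpi := (measurePreserving_piFinSuccAbove μ 0).quasiMeasurePreserving.ae hprod'
    filter_upwards [hpi] with z hz
    have hz' : DenseRange fun n : ℕ =>
        (((fun i => q' i ^ n • z ((0 : Fin (d + 1)).succAbove i)) : Fin d → UnitAddCircle),
          q 0 ^ n • z 0) := hz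
    set g : (Fin d → UnitAddCircle) × UnitAddCircle → (Fin (d + 1) → UnitAddCircle) :=
      fun w => Fin.cons w.2 w.1 with hg
    have hgc : Continuous g := by
      refine continuous_pi fun i => ?_
      refine Fin.cases ?_ (fun j => ?_) i
      · simp only [hg, Fin.cons_zero]
        exact continuous_snd
      · simp only [hg, Fin.cons_succ]
        exact (continuous_apply j).comp continuous_fst
    have hgs : Function.Surjective g := by
      intro v
      refine ⟨(fun j => v j.succ, v 0), ?_⟩
      ext i
      refine Fin.cases ?_ (fun j => ?_) i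
      · simp [hg]
      · simp [hg]
    have := hgs.denseRange.comp hz' hgc
    refine Dense.mono ?_ this
    rintro _ ⟨n, rfl⟩
    refine ⟨n, ?_⟩
    ext i
    refine Fin.cases ?_ (fun j => ?_) i
    · simp [hg]
    · simp [hg, hq']

end Pool.Agent.H.MP_96e181_an
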