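import Mathlib

set_option autoImplicit false

namespace Pool.Agent.H.MP_96e181_an

open MeasureTheory
open scoped ENNReal

/-- Total variation distance of two probability measures on the circle: the supremum of
`α A - β A` over measurable sets `A`. -/
noncomputable def tvDist (α β : Measure UnitAddCircle) : ℝ≥0∞ :=
  ⨆ (A : Set UnitAddCircle) (_ : MeasurableSet A), (α A - β A)

end Pool.Agent.H.MP_96e181_an
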