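import Pool.Agent.H.MP_96e181_an.RandomFurstenberg

/-!
# Irrational translates of invariant measures

Helper file for the problem MP_96e181_an.
-/

open MeasureTheory Filter Topology Set

namespace Pool.Agent.H.MP_96e181_an

/-- Furstenberg's theorem: the orbit of a point of infinite order is dense. -/
lemma dense_semigroup_orbit {p q : ℕ} (hp : 2 ≤ p) (hq : 2 ≤ q)
    (h : Irrational (Real.log p / Real.log q)) {α : UnitAddCircle}
    (hα : ∀ n : ℕ, 0 < n → n • α ≠ 0) :
    Dense (range fun z : ℕ × ℕ => (p ^ z.1 * q ^ z.2) • α) := by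
  set C : Set UnitAddCircle := closure (range fun z : ℕ × ℕ => (p ^ z.1 * q ^ z.2) • α) with hC
  have hR : RCS (fun _ : UnitAddCircle => C)
      (fun k => {z | ∃ w : ℕ × ℕ, dist ((p ^ w.1 * q ^ w.2) • α) z.2 < 1 / ((k : ℝ) + 1)}) :=
    { isOpen := by
        intro k
        have : {z : UnitAddCircle × UnitAddCircle | ∃ w : ℕ × ℕ,
            dist ((p ^ w.1 * q ^ w.2) • α) z.2 < 1 / ((k : ℝ) + 1)} =
            ⋃ w : ℕ × ℕ, {z | dist ((p ^ w.1 * q ^ w.2) • α) z.2 < 1 / ((k : ℝ) + 1)} := by
          ext z; simp
        rw [this]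
        exact isOpen_iUnion fun n => isOpen_lt (by fun_prop) continuous_const
      anti := by
        intro i j hij z hz
        obtain ⟨n, hn⟩ := hz
        exact ⟨n, hn.trans_le (one_div_le_one_div_of_le (by positivity) (by
          have : (i : ℝ) ≤ j := by exact_mod_cast hij
          linarith))⟩
      sub := by
        intro x y k hy
        obtain ⟨_, ⟨n, rfl⟩, hn⟩ := Metric.mem_closure_iff.1 hy (1 / ((k : ℝ) + 1))
          (by positivity)
        exact ⟨n, by rw [dist_comm]; exact hn⟩
      lim := by
        intro x y y0 hy hlim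
        rw [hC, Metric.mem_closure_iff]
        intro δ hδ
        have h1 : ∀ᶠ k in atTop, dist (y k) y0 < δ / 2 := by
          have := (tendsto_iff_dist_tendsto_zero.1 hlim)
          exact this.eventually_lt_const (by positivity)
        have h2 : ∀ᶠ k : ℕ in atTop, 1 / ((k : ℝ) + 1) < δ / 2 :=
          tendsto_one_div_add_atTop_nhds_zero_nat.eventually_lt_const (by positivity)
        obtain ⟨k, hk1, hk2⟩ := (h1.and h2).exists
        obtain ⟨n, hn⟩ := hy k
        refine ⟨_, ⟨n, rfl⟩, ?_⟩
        simp only at hn ⊢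
        calc dist y0 ((p ^ n.1 * q ^ n.2) • α)
            ≤ dist y0 (y k) + dist (y k) ((p ^ n.1 * q ^ n.2) • α) := dist_triangle _ _ _
          _ = dist (y k) y0 + dist ((p ^ n.1 * q ^ n.2) • α) (y k) := by
              rw [dist_comm y0, dist_comm (y k) ((p ^ n.1 * q ^ n.2) • α)]
          _ < δ := by linarith }
  have hstab : ∀ r : ℕ, (∀ z : ℕ × ℕ, ∃ w : ℕ × ℕ, r * (p ^ z.1 * q ^ z.2) =
      p ^ w.1 * q ^ w.2) → ∀ y ∈ C, r • y ∈ C := by
    intro r hr y hy
    have hsub : (fun z : UnitAddCircle => r • z) '' C ⊆ C := by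
      refine (image_closure_subset_closure_image (continuous_const_smul r)).trans ?_
      refine closure_mono ?_
      rintro _ ⟨_, ⟨z, rfl⟩, rfl⟩
      obtain ⟨w, hw⟩ := hr z
      refine ⟨w, ?_⟩
      simp only
      rw [← hw, mul_smul]
    exact hsub ⟨y, hy, rfl⟩
  have hpC : ∀ y ∈ C, p • y ∈ C := hstab p fun z => ⟨(z.1 + 1, z.2), by ring⟩
  have hqC : ∀ y ∈ C, q • y ∈ C := hstab q fun z => ⟨(z.1, z.2 + 1), by ring⟩
  have hmp : MeasurePreserving (fun x : UnitAddCircle => p • x) (Measure.dirac 0)
      (Measure.dirac 0) := by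
    refine ⟨(continuous_const_smul p).measurable, ?_⟩
    rw [Measure.map_dirac, smul_zero]
  have hrf := random_furstenberg (μ := Measure.dirac (0 : UnitAddCircle)) hR hp hq h hmp
    (fun _ => hqC) (fun _ => hpC)
  obtain ⟨x, hx⟩ := hrf.exists
  have hmem : α ∈ C := subset_closure ⟨(0, 0), by simp⟩
  have hCu : C = univ := hx ⟨α, hmem, hα⟩
  rw [dense_iff_closure_eq]
  exact hCu

lemma mp_smul {μ : Measure UnitAddCircle} {p q : ℕ}
    (hp : MeasurePreserving (fun x : UnitAddCircle => p • x) μ μ)
    (hq : MeasurePreserving (fun x : UnitAddCircle => q • x) μ μ) (n m : ℕ) :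
    MeasurePreserving (fun x : UnitAddCircle => (p ^ n * q ^ m) • x) μ μ := by
  have h := (mp_pow hp n).comp (mp_pow hq m)
  convert h using 1
  ext x
  simp only [Function.comp, mul_smul]

/-- there is a point with dense orbit under multiplication by `p` -/
lemma exists_dense_orbit {p : ℕ} (hp : 2 ≤ p) :
    ∃ t : UnitAddCircle, Dense (range fun n : ℕ => p ^ n • t) := by
  have hB := TopologicalSpace.isBasis_countableBasis UnitAddCircle
  have h1 : ∀ᵐ x ∂(volume : Measure UnitAddCircle),
      ∀ V ∈ TopologicalSpace.countableBasis UnitAddCircle, ∃ m : ℕ, p ^ m • x ∈ V := by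
    rw [ae_ball_iff (TopologicalSpace.countable_countableBasis UnitAddCircle)]
    intro V hV
    exact circle_null hp (hB.isOpen hV) (TopologicalSpace.nonempty_of_mem_countableBasis hV)
  have hvol : IsProbabilityMeasure (volume : Measure UnitAddCircle) :=
    ⟨UnitAddCircle.measure_univ⟩
  obtain ⟨t, ht⟩ := h1.exists
  refine ⟨t, ?_⟩
  rw [hB.dense_iff]
  intro V hV _
  obtain ⟨m, hm⟩ := ht V hV
  exact ⟨_, hm, ⟨m, rfl⟩⟩

/-- The basic inequality: a measure dominated both by an irrational translate of the
`p`-invariant measure `μ` and by a multiple of the `p`- and `q`-invariant measure `ν` has small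
mass if `ν` and Lebesgue measure are nearly carried by disjoint sets. -/
lemma main_ineq {p q : ℕ} (hp : 2 ≤ p) (hq : 2 ≤ q)
    (h : Irrational (Real.log p / Real.log q)) {μ ν τ : Measure UnitAddCircle}
    [IsProbabilityMeasure μ] [IsProbabilityMeasure ν] [IsFiniteMeasure τ]
    (hμp : MeasurePreserving (fun x : UnitAddCircle => p • x) μ μ)
    (hνp : MeasurePreserving (fun x : UnitAddCircle => p • x) ν ν)
    (hνq : MeasurePreserving (fun x : UnitAddCircle => q • x) ν ν)
    {α : UnitAddCircle} (hα : ∀ n : ℕ, 0 < n → n • α ≠ 0)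
    (hτμ : τ ≤ μ.map (fun x => x + α)) {M : NNReal} (hτν : τ ≤ M • ν)
    {f : UnitAddCircle → ℝ} (hf : Continuous f) (hf0 : ∀ x, 0 ≤ f x) (hf1 : ∀ x, f x ≤ 1) :
    τ.real univ ≤ M * ∫ x, f x ∂ν + ∫ x, (1 - f x) ∂volume := by
  have hint : ∀ (ρ : Measure UnitAddCircle) [IsFiniteMeasure ρ] (u : UnitAddCircle → ℝ),
      Continuous u → (∀ x, 0 ≤ u x) → (∀ x, u x ≤ 1) → Integrable u ρ := by
    intro ρ _ u hu hu0 hu1
    refine (integrable_const (1 : ℝ)).mono' hu.aestronglyMeasurable (Eventually.of_forall ?_)
    intro x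
    rw [Real.norm_eq_abs, abs_of_nonneg (hu0 x)]
    exact hu1 x
  set F : UnitAddCircle → ℝ := fun x => 1 - f x with hF
  have hFc : Continuous F := continuous_const.sub hf
  have hF0 : ∀ x, 0 ≤ F x := fun x => by simp only [hF]; linarith [hf1 x]
  have hF1 : ∀ x, F x ≤ 1 := fun x => by simp only [hF]; linarith [hf0 x]
  refine le_of_forall_pos_le_add fun ε hε => ?_
  have hvol : IsProbabilityMeasure (volume : Measure UnitAddCircle) :=
    ⟨UnitAddCircle.measure_univ⟩
  -- uniform continuity
  obtain ⟨δ, hδ, hFδ⟩ := Metric.uniformContinuous_iff.1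
    (CompactSpace.uniformContinuous_of_continuous hFc) ε hε
  obtain ⟨t, ht⟩ := exists_dense_orbit hp
  -- finitely many times suffice
  obtain ⟨L, hL⟩ : ∃ L : Finset ℕ, ∀ z : UnitAddCircle, ∃ n ∈ L, dist z (p ^ n • t) < δ / 2 := by
    have hcov : (univ : Set UnitAddCircle) ⊆ ⋃ n : ℕ, Metric.ball (p ^ n • t) (δ / 2) := by
      intro z _
      obtain ⟨_, ⟨n, rfl⟩, hn⟩ := Metric.mem_closure_iff.1 (ht z) (δ / 2) (by positivity)
      exact mem_iUnion.2 ⟨n, hn⟩
    obtain ⟨L, hL⟩ := isCompact_univ.elim_finite_subcover
      (fun n : ℕ => Metric.ball (p ^ n • t) (δ / 2)) (fun n => Metric.isOpen_ball) hcov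
    refine ⟨L, fun z => ?_⟩
    have := hL (mem_univ z)
    simp only [mem_iUnion, exists_prop] at this
    exact this
  -- a semigroup element bringing `α` close to `t`
  obtain ⟨g, hg⟩ : ∃ g : ℕ × ℕ, ∀ n ∈ L,
      dist (p ^ n • ((p ^ g.1 * q ^ g.2) • α)) (p ^ n • t) < δ / 2 := by
    have hopen : IsOpen (⋂ n ∈ L, {s : UnitAddCircle | dist (p ^ n • s) (p ^ n • t) < δ / 2}) := by
      refine isOpen_biInter_finset fun n _ => isOpen_lt ?_ continuous_const
      exact (continuous_const_smul (p ^ n)).dist continuous_const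
    obtain ⟨_, ⟨g, rfl⟩, hgmem⟩ := (dense_semigroup_orbit hp hq h hα).exists_mem_open hopen
      ⟨t, by simp only [mem_iInter, mem_ofPred_eq, dist_self]; intro _ _; positivity⟩
    refine ⟨g, fun n hn => ?_⟩
    simp only [mem_iInter, mem_ofPred_eq] at hgmem
    exact hgmem n hn
  -- the auxiliary measure
  have hqc : Continuous fun x : UnitAddCircle => q ^ g.2 • x := continuous_const_smul _
  set μ' : Measure UnitAddCircle := μ.map (fun x => q ^ g.2 • x) with hμ'
  have hμ'prob : IsProbabilityMeasure μ' :=
    Measure.isProbabilityMeasure_map hqc.measurable.aemeasurable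
  have hμ'p : ∀ n : ℕ, MeasurePreserving (fun x : UnitAddCircle => p ^ n • x) μ' μ' := by
    intro n
    refine ⟨(continuous_const_smul _).measurable, ?_⟩
    rw [hμ', Measure.map_map (continuous_const_smul _).measurable hqc.measurable]
    have : ((fun x : UnitAddCircle => p ^ n • x) ∘ fun x => q ^ g.2 • x) =
        (fun x => q ^ g.2 • x) ∘ fun x : UnitAddCircle => p ^ n • x := by
      ext x
      simp only [Function.comp]
      rw [← mul_smul, ← mul_smul, mul_comm]
    rw [this, ← Measure.map_map hqc.measurable (continuous_const_smul _).measurable,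
      (mp_pow hμp n).map_eq]
  set H : UnitAddCircle → ℝ := fun β => ∫ x, F (x + β) ∂μ' with hH
  have hHint : ∫ β, H β ∂volume = ∫ x, F x ∂volume := by
    have hswap : ∫ β, ∫ x, F (x + β) ∂μ' ∂(volume : Measure UnitAddCircle) =
        ∫ x, ∫ β, F (x + β) ∂(volume : Measure UnitAddCircle) ∂μ' := by
      refine integral_integral_swap ?_
      refine (integrable_const (1 : ℝ)).mono' ?_ (Eventually.of_forall ?_)
      · exact (hFc.comp (continuous_snd.add continuous_fst)).aestronglyMeasurable
      · intro z
        rw [Real.norm_eq_abs]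
        simp only [Function.uncurry]
        rw [abs_of_nonneg (hF0 _)]
        exact hF1 _
    rw [hH, hswap]
    have : ∀ x : UnitAddCircle, ∫ β, F (x + β) ∂(volume : Measure UnitAddCircle) =
        ∫ y, F y ∂volume := fun x => integral_add_left_eq_self F x
    simp only [this]
    simp
  have hHδ : ∀ β β' : UnitAddCircle, dist β β' < δ → H β ≤ H β' + ε := by
    intro β β' hββ
    have hi : ∀ γ : UnitAddCircle, Integrable (fun x => F (x + γ)) μ' := fun γ =>
      hint μ' _ (hFc.comp (continuous_id.add continuous_const)) (fun _ => hF0 _) (fun _ => hF1 _)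
    have : H β' + ε = ∫ x, (F (x + β') + ε) ∂μ' := by
      rw [integral_add (hi β') (integrable_const _)]
      simp [hH]
    rw [this]
    refine integral_mono (hi β) ((hi β').add (integrable_const _)) fun x => ?_
    have hd : dist (x + β) (x + β') < δ := by rwa [dist_add_left]
    have := hFδ hd
    rw [Real.dist_eq] at this
    have := (abs_lt.1 this).2
    simp only
    linarith
  have hHint' : Integrable H volume := by
    have hHc : Continuous H := by
      refine continuous_of_dominated (bound := fun _ => 1) ?_ ?_ (integrable_const _) ?_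
      · intro β
        exact (hFc.comp (continuous_id.add continuous_const)).aestronglyMeasurable
      · intro β
        refine Eventually.of_forall fun x => ?_
        rw [Real.norm_eq_abs, abs_of_nonneg (hF0 _)]
        exact hF1 _
      · refine Eventually.of_forall fun x => ?_
        exact hFc.comp (continuous_const.add continuous_id)
    exact hHc.integrable_of_hasCompactSupport (HasCompactSupport.of_compactSpace H)
  obtain ⟨β₀, hβ₀⟩ := exists_le_integral (μ := (volume : Measure UnitAddCircle)) hHint'
  rw [hHint] at hβ₀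
  obtain ⟨n, hnL, hn⟩ := hL β₀
  set G : ℕ := p ^ (n + g.1) * q ^ g.2 with hG
  have hGα : G • α = p ^ n • ((p ^ g.1 * q ^ g.2) • α) := by
    rw [← mul_smul, hG, pow_add, mul_assoc]
  have hdist : dist (G • α) β₀ < δ := by
    rw [hGα]
    calc dist (p ^ n • ((p ^ g.1 * q ^ g.2) • α)) β₀
        ≤ dist (p ^ n • ((p ^ g.1 * q ^ g.2) • α)) (p ^ n • t) + dist (p ^ n • t) β₀ :=
          dist_triangle _ _ _
      _ < δ / 2 + δ / 2 := by
          refine add_lt_add (hg n hnL) ?_
          rw [dist_comm]; exact hn
      _ = δ := by ring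
  have hHG : H (G • α) ≤ (∫ x, F x ∂volume) + ε := (hHδ _ _ hdist).trans (by linarith)
  have hGν := mp_smul hνp hνq (n + g.1) g.2
  have hGc : Continuous fun y : UnitAddCircle => G • y := continuous_const_smul G
  have hfG : Continuous fun y : UnitAddCircle => f (G • y) := hf.comp hGc
  have hFG : Continuous fun y : UnitAddCircle => F (G • y) := hFc.comp hGc
  have h1 : τ.real univ = ∫ y, f (G • y) ∂τ + ∫ y, F (G • y) ∂τ := by
    rw [← integral_add (hint τ _ hfG (fun _ => hf0 _) (fun _ => hf1 _))
      (hint τ _ hFG (fun _ => hF0 _) (fun _ => hF1 _))]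
    simp [hF]
  have h2 : ∫ y, f (G • y) ∂τ ≤ M * ∫ x, f x ∂ν := by
    have e1 : ∫ y, f (G • y) ∂τ ≤ ∫ y, f (G • y) ∂(M • ν) :=
      integral_mono_measure hτν (Eventually.of_forall fun _ => hf0 _)
        (hint _ _ hfG (fun _ => hf0 _) (fun _ => hf1 _))
    have e2 : ∫ y, f (G • y) ∂ν = ∫ x, f x ∂ν := by
      conv_rhs => rw [← hGν.map_eq]
      rw [integral_map hGc.measurable.aemeasurable hf.aestronglyMeasurable]
    refine e1.trans (le_of_eq ?_)
    rw [integral_smul_nnreal_measure, e2]
    rfl
  have h3 : ∫ y, F (G • y) ∂τ ≤ H (G • α) := by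
    have hTc : Continuous fun x : UnitAddCircle => x + α := continuous_id.add continuous_const
    have e1 : ∫ y, F (G • y) ∂τ ≤ ∫ y, F (G • y) ∂(μ.map (fun x => x + α)) := by
      have : IsProbabilityMeasure (μ.map (fun x => x + α)) :=
        Measure.isProbabilityMeasure_map hTc.measurable.aemeasurable
      exact integral_mono_measure hτμ (Eventually.of_forall fun _ => hF0 _)
        (hint _ _ hFG (fun _ => hF0 _) (fun _ => hF1 _))
    refine e1.trans (le_of_eq ?_)
    rw [integral_map hTc.measurable.aemeasurable hFG.aestronglyMeasurable]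
    have hFT : Continuous fun y : UnitAddCircle => F (y + G • α) :=
      hFc.comp (continuous_id.add continuous_const)
    have e2 : H (G • α) = ∫ x, F (p ^ (n + g.1) • x + G • α) ∂μ' := by
      have := (hμ'p (n + g.1)).map_eq
      rw [hH]
      simp only
      conv_lhs => rw [← this]
      rw [integral_map (continuous_const_smul _).measurable.aemeasurable
        hFT.aestronglyMeasurable]
    have hFT2 : Continuous fun y : UnitAddCircle => F (p ^ (n + g.1) • y + G • α) :=
      hFc.comp ((continuous_const_smul _).add continuous_const)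
    rw [e2, hμ', integral_map hqc.measurable.aemeasurable hFT2.aestronglyMeasurable]
    refine integral_congr_ae (Eventually.of_forall fun x => ?_)
    simp only [hG, smul_add, mul_smul]
  linarith

lemma isProbabilityMeasure_volume : IsProbabilityMeasure (volume : Measure UnitAddCircle) :=
  ⟨UnitAddCircle.measure_univ⟩

/-- an invariant measure which is not singular to Lebesgue measure dominates it -/
lemma volume_ac_of_not_singular {p : ℕ} (hp : 2 ≤ p) {ν : Measure UnitAddCircle}
    [IsFiniteMeasure ν] (hνp : MeasurePreserving (fun x : UnitAddCircle => p • x) ν ν)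
    (hν : ¬ (ν ⟂ₘ (volume : Measure UnitAddCircle))) :
    (volume : Measure UnitAddCircle) ≪ ν := by
  have hvol := isProbabilityMeasure_volume
  have herg : Ergodic (fun y : UnitAddCircle => p • y) volume :=
    AddCircle.ergodic_nsmul (T := 1) (by omega)
  set νa : Measure UnitAddCircle := (volume : Measure UnitAddCircle).withDensity
    (ν.rnDeriv volume) with hνa
  have hinv : MeasurePreserving (fun y : UnitAddCircle => p • y) νa νa :=
    hνp.withDensity_rnDeriv herg.toMeasurePreserving
  have hfin : IsFiniteMeasure νa := by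
    rw [hνa]
    exact isFiniteMeasure_of_le ν (Measure.withDensity_rnDeriv_le ν volume)
  obtain ⟨c, hc⟩ := herg.eq_smul_of_absolutelyContinuous hinv
    (withDensity_absolutelyContinuous _ _)
  have hle : νa ≤ ν := Measure.withDensity_rnDeriv_le ν volume
  have hc0 : c ≠ 0 := by
    rintro rfl
    apply hν
    have h0 : νa = 0 := by rw [hc]; simp
    have hdec := Measure.haveLebesgueDecomposition_add ν (volume : Measure UnitAddCircle)
    rw [← hνa, h0, add_zero] at hdec
    rw [hdec]
    exact Measure.mutuallySingular_singularPart ν volume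
  have h1 : (volume : Measure UnitAddCircle) ≪ νa := by
    rw [hc]
    exact Measure.absolutelyContinuous_smul hc0
  exact h1.trans hle.absolutelyContinuous

/-- If an irrational translate of `μ` is not singular to `ν` then `ν` dominates Lebesgue
measure. -/
lemma translate_ac {p q : ℕ} (hp : 2 ≤ p) (hq : 2 ≤ q)
    (h : Irrational (Real.log p / Real.log q)) {μ ν : Measure UnitAddCircle}
    [IsProbabilityMeasure μ] [IsProbabilityMeasure ν]
    (hμp : MeasurePreserving (fun x : UnitAddCircle => p • x) μ μ)
    (hνp : MeasurePreserving (fun x : UnitAddCircle => p • x) ν ν)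
    (hνq : MeasurePreserving (fun x : UnitAddCircle => q • x) ν ν)
    {α : UnitAddCircle} (hα : ∀ n : ℕ, 0 < n → n • α ≠ 0)
    (hns : ¬ (μ.map (fun x => x + α) ⟂ₘ ν)) :
    (volume : Measure UnitAddCircle) ≪ ν := by
  have hvol := isProbabilityMeasure_volume
  refine volume_ac_of_not_singular hp hνp fun hsing => ?_
  have hTc : Continuous fun x : UnitAddCircle => x + α := continuous_id.add continuous_const
  set ρ : Measure UnitAddCircle := μ.map (fun x => x + α) with hρ
  have hρp : IsProbabilityMeasure ρ := Measure.isProbabilityMeasure_map hTc.measurable.aemeasurable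
  have hρs : SFinite ρ := inferInstance
  have hνs : SigmaFinite ν := inferInstance
  have hld : ρ.HaveLebesgueDecomposition ν := inferInstance
  set φ := ρ.rnDeriv ν with hφ
  set ρa : Measure UnitAddCircle := ν.withDensity φ with hρa
  have hρa0 : ρa ≠ 0 := by
    intro h0
    apply hns
    have hdec := Measure.haveLebesgueDecomposition_add ρ ν
    rw [← hφ, ← hρa, h0, add_zero] at hdec
    rw [hdec]
    exact Measure.mutuallySingular_singularPart ρ ν
  have hρale : ρa ≤ ρ := Measure.withDensity_rnDeriv_le ρ ν
  have hφm : Measurable φ := Measure.measurable_rnDeriv ρ ν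
  -- truncation
  set E : ℕ → Set UnitAddCircle := fun n => {x | φ x ≤ n} with hE
  have hEm : ∀ n, MeasurableSet (E n) := fun n => measurableSet_le hφm measurable_const
  obtain ⟨n, hn⟩ : ∃ n, ρa (E n) ≠ 0 := by
    by_contra hcon
    push Not at hcon
    apply hρa0
    have h1 : ρa (⋃ n, E n) = 0 := measure_iUnion_null hcon
    have h2 : ρa (⋃ n, E n)ᶜ = 0 := by
      have h3 : ν (⋃ n, E n)ᶜ = 0 := by
        have := Measure.rnDeriv_lt_top ρ ν
        rw [ae_iff] at this
        refine measure_mono_null ?_ this
        intro x hx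
        simp only [mem_compl_iff, mem_iUnion, not_exists] at hx
        intro hlt
        obtain ⟨m, hm⟩ := ENNReal.exists_nat_gt hlt.ne
        exact hx m hm.le
      exact withDensity_absolutelyContinuous ν φ h3
    rw [← Measure.measure_univ_eq_zero]
    rw [← union_compl_self (⋃ n, E n)]
    exact measure_union_null h1 h2
  set τ : Measure UnitAddCircle := ρa.restrict (E n) with hτ
  have hτρ : τ ≤ ρ := Measure.restrict_le_self.trans hρale
  have hτfin : IsFiniteMeasure τ := isFiniteMeasure_of_le ρ hτρ
  have hτν : τ ≤ (n : NNReal) • ν := by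
    refine Measure.le_iff.2 fun s hs => ?_
    rw [hτ, Measure.restrict_apply hs, hρa, withDensity_apply _ (hs.inter (hEm n))]
    calc ∫⁻ x in s ∩ E n, φ x ∂ν ≤ ∫⁻ x in s ∩ E n, (n : ENNReal) ∂ν := by
          refine setLIntegral_mono' (hs.inter (hEm n)) fun x hx => hx.2
      _ = n * ν (s ∩ E n) := by rw [setLIntegral_const]
      _ ≤ n * ν s := by gcongr; exact inter_subset_left
      _ = ((n : NNReal) • ν) s := by
          rw [Measure.smul_apply]
          rfl
  have hc : 0 < τ.real univ := by
    rw [measureReal_def, ENNReal.toReal_pos_iff]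
    refine ⟨?_, measure_lt_top _ _⟩
    rw [hτ, Measure.restrict_apply MeasurableSet.univ, univ_inter]
    exact pos_iff_ne_zero.2 hn
  set c := τ.real univ with hcdef
  -- choose the test function
  obtain ⟨S, hSm, hνS, hvS⟩ := hsing
  -- ν S = 0, volume Sᶜ = 0
  obtain ⟨K, hKS, hKc, hKv⟩ := hSm.exists_isCompact_sdiff_lt (μ := (volume : Measure UnitAddCircle))
    (measure_ne_top _ _) (ε := ENNReal.ofReal (c / 3)) (by
      simp only [ne_eq, ENNReal.ofReal_eq_zero, not_le]; positivity)
  have hKν : ν K = 0 := measure_mono_null hKS hνS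
  have hthick := tendsto_measure_thickening_of_isClosed (μ := ν) (s := K)
    ⟨1, one_pos, measure_ne_top _ _⟩ hKc.isClosed
  rw [hKν] at hthick
  have hev : ∀ᶠ r in 𝓝[>] (0 : ℝ), ν (Metric.thickening r K) <
      ENNReal.ofReal (c / (3 * (n + 1))) := by
    refine hthick.eventually_lt_const ?_
    simp only [ENNReal.ofReal_pos]
    positivity
  obtain ⟨δ, hδ, hδ0⟩ := (hev.and self_mem_nhdsWithin).exists
  have hδ0' : (0 : ℝ) < δ := hδ0
  set f : UnitAddCircle → ℝ := fun x => (thickenedIndicator hδ0' K x : ℝ) with hf
  have hfc : Continuous f := by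
    exact NNReal.continuous_coe.comp (thickenedIndicator hδ0' K).continuous
  have hf0 : ∀ x, 0 ≤ f x := fun x => NNReal.coe_nonneg _
  have hf1 : ∀ x, f x ≤ 1 := fun x => by
    have := thickenedIndicator_le_one hδ0' K x
    exact_mod_cast this
  have hmain := main_ineq hp hq h hμp hνp hνq hα hτρ hτν hfc hf0 hf1
  have hint : ∀ (ρ : Measure UnitAddCircle) [IsFiniteMeasure ρ] (u : UnitAddCircle → ℝ),
      Continuous u → (∀ x, 0 ≤ u x) → (∀ x, u x ≤ 1) → Integrable u ρ := by
    intro ρ _ u hu hu0 hu1
    refine (integrable_const (1 : ℝ)).mono' hu.aestronglyMeasurable (Eventually.of_forall ?_)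
    intro x
    rw [Real.norm_eq_abs, abs_of_nonneg (hu0 x)]
    exact hu1 x
  have h1 : ∫ x, f x ∂ν ≤ c / (3 * (n + 1)) := by
    have e1 : ∫ x, f x ∂ν ≤ ∫ x, (Metric.thickening δ K).indicator (fun _ => (1 : ℝ)) x ∂ν := by
      refine integral_mono (hint ν f hfc hf0 hf1) ?_ fun x => ?_
      · exact (integrable_const (1 : ℝ)).indicator Metric.isOpen_thickening.measurableSet
      · by_cases hx : x ∈ Metric.thickening δ K
        · simp only [indicator_of_mem hx]
          exact hf1 x
        · simp only [indicator_of_notMem hx]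
          have := thickenedIndicator_zero hδ0' K hx
          simp only [hf, this]
          simp
    refine e1.trans ?_
    rw [integral_indicator Metric.isOpen_thickening.measurableSet]
    simp only [integral_const, smul_eq_mul, mul_one]
    rw [measureReal_restrict_apply MeasurableSet.univ, univ_inter, measureReal_def]
    exact ENNReal.toReal_le_of_le_ofReal (by positivity) hδ.le
  have h2 : ∫ x, (1 - f x) ∂(volume : Measure UnitAddCircle) ≤ c / 3 := by
    have e1 : ∫ x, (1 - f x) ∂(volume : Measure UnitAddCircle) ≤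
        ∫ x, (Kᶜ).indicator (fun _ => (1 : ℝ)) x ∂volume := by
      refine integral_mono ?_ ?_ fun x => ?_
      · exact (integrable_const (1 : ℝ)).sub (hint _ f hfc hf0 hf1)
      · exact (integrable_const (1 : ℝ)).indicator hKc.measurableSet.compl
      · by_cases hx : x ∈ K
        · have h1 : x ∉ Kᶜ := fun h => h hx
          simp only [indicator_of_notMem h1]
          have := thickenedIndicator_one hδ0' K hx
          simp only [hf, this]
          simp
        · have h1 : x ∈ Kᶜ := hx
          simp only [indicator_of_mem h1]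
          linarith [hf0 x]
    refine e1.trans ?_
    rw [integral_indicator hKc.measurableSet.compl]
    simp only [integral_const, smul_eq_mul, mul_one]
    rw [measureReal_restrict_apply MeasurableSet.univ, univ_inter, measureReal_def]
    refine ENNReal.toReal_le_of_le_ofReal (by positivity) ?_
    have hsub : Kᶜ ⊆ (S \ K) ∪ Sᶜ := by
      intro x hx
      by_cases hxS : x ∈ S
      · exact Or.inl ⟨hxS, hx⟩
      · exact Or.inr hxS
    calc (volume : Measure UnitAddCircle) Kᶜ ≤ volume ((S \ K) ∪ Sᶜ) := measure_mono hsub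
      _ ≤ volume (S \ K) + volume Sᶜ := measure_union_le _ _
      _ = volume (S \ K) := by rw [hvS, add_zero]
      _ ≤ ENNReal.ofReal (c / 3) := hKv.le
  have h3 : ((n : NNReal) : ℝ) * ∫ x, f x ∂ν ≤ c / 3 := by
    have hn0 : (0 : ℝ) ≤ n := Nat.cast_nonneg n
    calc ((n : NNReal) : ℝ) * ∫ x, f x ∂ν ≤ n * (c / (3 * (n + 1))) := by
          have : ((n : NNReal) : ℝ) = n := by simp
          rw [this]
          exact mul_le_mul_of_nonneg_left h1 hn0
      _ ≤ c / 3 := by
          rw [mul_div_assoc', div_le_div_iff₀ (by positivity) (by positivity)]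
          nlinarith
  linarith

/-- An irrational translate of `μ` is singular to the singular part of `ν`. -/
lemma translate_singularPart {p q : ℕ} (hp : 2 ≤ p) (hq : 2 ≤ q)
    (h : Irrational (Real.log p / Real.log q)) {μ ν : Measure UnitAddCircle}
    [IsProbabilityMeasure μ] [IsProbabilityMeasure ν]
    (hμp : MeasurePreserving (fun x : UnitAddCircle => p • x) μ μ)
    (hνp : MeasurePreserving (fun x : UnitAddCircle => p • x) ν ν)
    (hνq : MeasurePreserving (fun x : UnitAddCircle => q • x) ν ν)
    {α : UnitAddCircle} (hα : ∀ n : ℕ, 0 < n → n • α ≠ 0) :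
    μ.map (fun x => x + α) ⟂ₘ ν.singularPart (volume : Measure UnitAddCircle) := by
  have hvol := isProbabilityMeasure_volume
  have hergp : Ergodic (fun y : UnitAddCircle => p • y) volume :=
    AddCircle.ergodic_nsmul (T := 1) (by omega)
  have hergq : Ergodic (fun y : UnitAddCircle => q • y) volume :=
    AddCircle.ergodic_nsmul (T := 1) (by omega)
  by_contra hns
  set σ : Measure UnitAddCircle := ν.singularPart volume with hσ
  have hσle : σ ≤ ν := Measure.singularPart_le ν volume
  have hσfin : IsFiniteMeasure σ := isFiniteMeasure_of_le ν hσle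
  have hσp : MeasurePreserving (fun x : UnitAddCircle => p • x) σ σ :=
    hνp.singularPart hergp.toMeasurePreserving
  have hσq : MeasurePreserving (fun x : UnitAddCircle => q • x) σ σ :=
    hνq.singularPart hergq.toMeasurePreserving
  have hσ0 : σ ≠ 0 := by
    intro h0
    apply hns
    rw [h0]
    exact Measure.MutuallySingular.zero_right
  have hu0 : σ univ ≠ 0 := by
    rw [ne_eq, Measure.measure_univ_eq_zero]
    exact hσ0
  have hut : σ univ ≠ ⊤ := measure_ne_top _ _
  set ν' : Measure UnitAddCircle := (σ univ)⁻¹ • σ with hν'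
  have hν'prob : IsProbabilityMeasure ν' := ⟨by
    rw [hν', Measure.smul_apply, smul_eq_mul, ENNReal.inv_mul_cancel hu0 hut]⟩
  have hν'p : MeasurePreserving (fun x : UnitAddCircle => p • x) ν' ν' := hσp.smul_measure _
  have hν'q : MeasurePreserving (fun x : UnitAddCircle => q • x) ν' ν' := hσq.smul_measure _
  have hσν' : σ ≪ ν' := Measure.absolutelyContinuous_smul (ENNReal.inv_ne_zero.2 hut)
  have hns' : ¬ (μ.map (fun x => x + α) ⟂ₘ ν') := fun hs =>
    hns (hs.mono_ac Measure.AbsolutelyContinuous.rfl hσν')
  have h1 := translate_ac hp hq h hμp hν'p hν'q hα hns'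
  have h2 : ν' ⟂ₘ (volume : Measure UnitAddCircle) :=
    (Measure.mutuallySingular_singularPart ν volume).mono_ac
      Measure.smul_absolutelyContinuous Measure.AbsolutelyContinuous.rfl
  have h3 := Measure.eq_zero_of_absolutelyContinuous_of_mutuallySingular h1 h2.symm
  exact hvol.ne_zero _ h3

/-- **Non-singular irrational translates.** -/
theorem translate_main {p q : ℕ} (hp : 2 ≤ p) (hq : 2 ≤ q)
    (h : Irrational (Real.log p / Real.log q)) {μ ν : Measure UnitAddCircle}
    [IsProbabilityMeasure μ] [IsProbabilityMeasure ν]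
    (hμp : MeasurePreserving (fun x : UnitAddCircle => p • x) μ μ)
    (hνp : MeasurePreserving (fun x : UnitAddCircle => p • x) ν ν)
    (hνq : MeasurePreserving (fun x : UnitAddCircle => q • x) ν ν)
    {α : UnitAddCircle} (hα : ∀ n : ℕ, 0 < n → n • α ≠ 0)
    (hns : ¬ (μ.map (fun x => x + α) ⟂ₘ ν)) :
    (volume : Measure UnitAddCircle) ≪ μ ∧ (volume : Measure UnitAddCircle) ≪ ν := by
  have hvol := isProbabilityMeasure_volume
  refine ⟨volume_ac_of_not_singular hp hμp fun hμ => ?_,
    translate_ac hp hq h hμp hνp hνq hα hns⟩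
  apply hns
  have hm : Measurable fun x : UnitAddCircle => x + α :=
    (continuous_id.add continuous_const).measurable
  -- the translate of `μ` is singular to Lebesgue measure
  have h1 : μ.map (fun x => x + α) ⟂ₘ (volume : Measure UnitAddCircle) := by
    have hm' : Measurable fun x : UnitAddCircle => x + -α :=
      (continuous_id.add continuous_const).measurable
    obtain ⟨s, hsm, h1, h2⟩ := hμ
    refine ⟨(fun x => x + -α) ⁻¹' s, hm' hsm, ?_, ?_⟩
    · rw [Measure.map_apply hm (hm' hsm)]
      refine measure_mono_null ?_ h1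
      intro x hx
      simp only [mem_preimage, add_neg_cancel_right] at hx
      exact hx
    · rw [← preimage_compl]
      have : (volume : Measure UnitAddCircle) ((fun x => x + -α) ⁻¹' sᶜ) = volume sᶜ :=
        measure_preimage_add_right volume (-α) sᶜ
      rw [this, h2]
  have h2 := translate_singularPart hp hq h hμp hνp hνq hα
  have hdec := Measure.haveLebesgueDecomposition_add ν (volume : Measure UnitAddCircle)
  rw [hdec]
  refine Measure.MutuallySingular.add_right h2 ?_
  exact h1.mono_ac Measure.AbsolutelyContinuous.rfl (withDensity_absolutelyContinuous _ _)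

/-- **Absolutely continuous irrational translates.** -/
theorem translate_eq {p q : ℕ} (hp : 2 ≤ p) (hq : 2 ≤ q)
    (h : Irrational (Real.log p / Real.log q)) {μ ν : Measure UnitAddCircle}
    [IsProbabilityMeasure μ] [IsProbabilityMeasure ν]
    (hμp : MeasurePreserving (fun x : UnitAddCircle => p • x) μ μ)
    (hνp : MeasurePreserving (fun x : UnitAddCircle => p • x) ν ν)
    (hνq : MeasurePreserving (fun x : UnitAddCircle => q • x) ν ν)
    {α : UnitAddCircle} (hα : ∀ n : ℕ, 0 < n → n • α ≠ 0)
    (hac : μ.map (fun x => x + α) ≪ ν) :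
    μ = (volume : Measure UnitAddCircle) := by
  have hvol := isProbabilityMeasure_volume
  have hergp : Ergodic (fun y : UnitAddCircle => p • y) volume :=
    AddCircle.ergodic_nsmul (T := 1) (by omega)
  have hm : Measurable fun x : UnitAddCircle => x + α :=
    (continuous_id.add continuous_const).measurable
  refine hergp.eq_of_absolutelyContinuous hμp ?_
  obtain ⟨S, hSm, hS1, hS2⟩ := translate_singularPart hp hq h hμp hνp hνq hα
  refine Measure.AbsolutelyContinuous.mk fun E hE hE0 => ?_
  -- translate `E`
  set E' : Set UnitAddCircle := (fun x => x + -α) ⁻¹' E with hE'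
  have hm' : Measurable fun x : UnitAddCircle => x + -α :=
    (continuous_id.add continuous_const).measurable
  have hE'm : MeasurableSet E' := hm' hE
  have hE'0 : (volume : Measure UnitAddCircle) E' = 0 := by
    have : (volume : Measure UnitAddCircle) ((fun x => x + -α) ⁻¹' E) = volume E :=
      measure_preimage_add_right volume (-α) E
    rw [hE', this, hE0]
  have h1 : ν (E' \ S) = 0 := by
    have hdec := Measure.haveLebesgueDecomposition_add ν (volume : Measure UnitAddCircle)
    rw [hdec, Measure.add_apply]
    have e1 : (ν.singularPart volume) (E' \ S) = 0 := by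
      refine measure_mono_null ?_ hS2
      exact fun x hx => hx.2
    have e2 : ((volume : Measure UnitAddCircle).withDensity (ν.rnDeriv volume)) (E' \ S) = 0 :=
      withDensity_absolutelyContinuous _ _ (measure_mono_null sdiff_subset hE'0)
    rw [e1, e2, add_zero]
  have h2 : (μ.map (fun x => x + α)) E' = 0 := by
    have hsub : E' ⊆ (E' \ S) ∪ S := by
      intro x hx
      by_cases hxS : x ∈ S
      · exact Or.inr hxS
      · exact Or.inl ⟨hx, hxS⟩
    exact measure_mono_null hsub (measure_union_null (hac h1) hS1)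
  rw [Measure.map_apply hm hE'm] at h2
  refine measure_mono_null ?_ h2
  intro x hx
  simp only [hE', mem_preimage, add_neg_cancel_right]
  exact hx

end Pool.Agent.H.MP_96e181_an
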